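import Pool.Agent.Helper149.Thin.Defs

/-!
Definitions for the improved thin-set construction (helper149, MP_c06095_nt).
-/

noncomputable section

namespace Pool.Agent.Helper149.Thin3

open Finset PowerSeries Pool.Agent.Helper149.Thin

/-- centred indicator -/
def xx (θ : ℝ) (U : Set ℕ) (a : ℕ) : ℝ := U.indicator (fun _ => (1 : ℝ)) a - pc θ a

/-- `∑_{a < T} x_a X^(e a)` -/
def gs (x : ℕ → ℝ) (T e : ℕ) : PowerSeries ℝ := ∑ a ∈ range T, monomial (e * a) (x a)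

/-- product over `S` of dilated sums -/
def pr {k : ℕ} (x : ℕ → ℝ) (T : ℕ) (e : Fin k → ℕ) (S : Finset (Fin k)) : PowerSeries ℝ :=
  ∏ i ∈ S, gs x T (e i)

/-- affine reduction of `x^r`, `x ∈ {1 - p, -p}`: constant part -/
def al (r : ℕ) (p : ℝ) : ℝ := p * (1 - p) ^ r + (1 - p) * (-p) ^ r

/-- affine reduction of `x^r`: linear part -/
def be (r : ℕ) (p : ℝ) : ℝ := (1 - p) ^ r - (-p) ^ r

/-- coefficient of the martingale difference -/
def cc {k : ℕ} (θ : ℝ) (w : PowerSeries ℝ) (e : Fin k → ℕ) (S : Finset (Fin k)) (n a : ℕ)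
    (U : Set ℕ) : ℝ :=
  ∑ R ∈ S.powerset.erase ∅, be R.card (pc θ a) *
    coeff n (pr (xx θ U) a e (S \ R) * w * X ^ ((∑ i ∈ R, e i) * a))

/-- drift -/
def dd {k : ℕ} (θ : ℝ) (w : PowerSeries ℝ) (e : Fin k → ℕ) (S : Finset (Fin k)) (n a : ℕ)
    (U : Set ℕ) : ℝ :=
  ∑ R ∈ S.powerset with 2 ≤ R.card, al R.card (pc θ a) *
    coeff n (pr (xx θ U) a e (S \ R) * w * X ^ ((∑ i ∈ R, e i) * a))

/-- logarithmic factor -/
def LL (n : ℕ) : ℝ := Real.log ((n : ℝ) + 2) + 1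

/-- the power series `(1 - X)^(-θ)` -/
def PP (θ : ℝ) : PowerSeries ℝ := PowerSeries.mk (pc θ)

/-- the family of weights -/
def WW (θ : ℝ) {k : ℕ} : Option (Bool × Fin (k + 1)) → PowerSeries ℝ
  | none => PowerSeries.mk (fun _ => 1)
  | some (false, l) => PP θ ^ (l : ℕ)
  | some (true, l) => (1 - X) * PP θ ^ (l : ℕ)

/-- randomness property of the set `U` -/
def Rand (θ : ℝ) (k : ℕ) (U : Set ℕ) : Prop :=
  ∃ K0 : ℝ, 0 ≤ K0 ∧ ∀ (j : Option (Bool × Fin (k + 1))) (e : Fin k → ℕ),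
    (∀ i, 1 ≤ e i ∧ e i ≤ k) → ∀ (S : Finset (Fin k)) (n r T : ℕ),
    (∀ a < T, |cc θ (WW θ j) e S n a U| ≤ 2 ^ r) →
    |∑ a ∈ range T, xx θ U a * cc θ (WW θ j) e S n a U|
      ≤ (∑ a ∈ range T, pc θ a * (cc θ (WW θ j) e S n a U) ^ 2) / 2 ^ r
        + (K0 + 2 * Real.log ((n : ℝ) + 2) + r) * 2 ^ r

end Pool.Agent.Helper149.Thin3
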