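import Pool.Agent.Helper149.Thin3.G3

/-!
Lemmas for the final estimate.
(helper lemmas for MP_c06095_nt; several proofs contributed by the team's lemma jobs)
-/

noncomputable section

namespace Pool.Agent.Helper149.Thin3

open Finset PowerSeries Pool.Agent.Helper149.Thin

theorem ct_coeff_gs (x : ℕ → ℝ) (T m : ℕ) (hm : m < T) : coeff m (gs x T 1) = x m := by
  unfold gs
  rw [map_sum, Finset.sum_eq_single m]
  · rw [PowerSeries.coeff_monomial, if_pos (one_mul m).symm]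
  · intro a _ ha
    rw [PowerSeries.coeff_monomial, if_neg]
    intro h
    rw [one_mul] at h
    exact ha h.symm
  · intro h
    exact absurd (Finset.mem_range.2 hm) h

theorem coef_trunc {θ : ℝ} (U : Set ℕ) (T b n : ℕ) (Q : PowerSeries ℝ) (hn : n < T) :
    coeff n (gs (U.indicator (fun _ => (1 : ℝ))) T 1 ^ b * Q)
      = coeff n ((gs (xx θ U) T 1 + PP θ) ^ b * Q) := by
  have h1 : (X : PowerSeries ℝ) ^ T ∣ gs (U.indicator (fun _ => (1 : ℝ))) T 1 -
      (gs (xx θ U) T 1 + PP θ) := by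
    rw [PowerSeries.X_pow_dvd_iff]
    intro m hm
    rw [map_sub, map_add, ct_coeff_gs _ _ _ hm, ct_coeff_gs _ _ _ hm, PP, PowerSeries.coeff_mk, xx]
    ring
  have h2 : (X : PowerSeries ℝ) ^ T ∣ (gs (U.indicator (fun _ => (1 : ℝ))) T 1) ^ b * Q -
      (gs (xx θ U) T 1 + PP θ) ^ b * Q := by
    rw [← sub_mul]
    exact Dvd.dvd.mul_right (h1.trans (sub_dvd_pow_sub_pow _ _ b)) Q
  rw [PowerSeries.X_pow_dvd_iff] at h2
  have h3 := h2 n hn
  rw [map_sub, sub_eq_zero] at h3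
  exact h3

theorem conv_bound (A B : PowerSeries ℝ) (M : ℝ) (m : ℕ) (h : ∀ t ≤ m, |coeff t A| ≤ M) :
    |coeff m (A * B)| ≤ M * ∑ t ∈ range (m + 1), |coeff t B| := by
  rw [coeff_mul]
  calc |∑ p ∈ antidiagonal m, coeff p.1 A * coeff p.2 B|
      ≤ ∑ p ∈ antidiagonal m, |coeff p.1 A * coeff p.2 B| := Finset.abs_sum_le_sum_abs _ _
    _ ≤ ∑ p ∈ antidiagonal m, M * |coeff p.2 B| := by
        apply Finset.sum_le_sum
        intro p hp
        rw [abs_mul]
        have h1 : p.1 ≤ m := by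
          have := HasAntidiagonal.mem_antidiagonal.1 hp
          omega
        exact mul_le_mul_of_nonneg_right (h p.1 h1) (abs_nonneg _)
    _ = M * ∑ p ∈ antidiagonal m, |coeff p.2 B| := by rw [Finset.mul_sum]
    _ = M * ∑ t ∈ range (m + 1), |coeff t B| := by
        congr 1
        have h1 := Finset.Nat.sum_antidiagonal_swap (n := m) (f := fun p : ℕ × ℕ => |coeff p.1 B|)
        have h2 := Finset.Nat.sum_antidiagonal_eq_sum_range_succ_mk (fun p : ℕ × ℕ => |coeff p.1 B|) m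
        simp only [Prod.fst_swap] at h1
        rw [h1, h2]

theorem conv_sum_bound (A B : PowerSeries ℝ) (m : ℕ) :
    ∑ t ∈ range (m + 1), |coeff t (A * B)|
      ≤ (∑ t ∈ range (m + 1), |coeff t A|) * ∑ t ∈ range (m + 1), |coeff t B| := by
  have h1 : ∀ t, |coeff t (A * B)| ≤ ∑ k ∈ range (t + 1), |coeff k A| * |coeff (t - k) B| := by
    intro t
    rw [coeff_mul, Finset.Nat.sum_antidiagonal_eq_sum_range_succ_mk]
    refine (Finset.abs_sum_le_sum_abs _ _).trans (le_of_eq ?_)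
    apply Finset.sum_congr rfl
    intro k _
    rw [abs_mul]
  calc ∑ t ∈ range (m + 1), |coeff t (A * B)|
      ≤ ∑ t ∈ range (m + 1), ∑ k ∈ range (t + 1), |coeff k A| * |coeff (t - k) B| :=
        Finset.sum_le_sum fun t _ => h1 t
    _ = ∑ t ∈ range (m + 1), ∑ k ∈ range (m + 1 - t), |coeff t A| * |coeff k B| :=
        Finset.sum_range_diag_flip (m + 1) fun i j => |coeff i A| * |coeff j B|
    _ ≤ ∑ t ∈ range (m + 1), ∑ k ∈ range (m + 1), |coeff t A| * |coeff k B| := by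
        apply Finset.sum_le_sum
        intro t _
        apply Finset.sum_le_sum_of_subset_of_nonneg
        · intro k hk
          rw [Finset.mem_range] at hk ⊢
          omega
        · intro k _ _
          positivity
    _ = (∑ t ∈ range (m + 1), |coeff t A|) * ∑ t ∈ range (m + 1), |coeff t B| := by
        rw [Finset.sum_mul_sum]

theorem ind_nonneg' (U : Set ℕ) (a : ℕ) : 0 ≤ U.indicator (fun _ => (1 : ℝ)) a :=
  Set.indicator_nonneg (fun _ _ => zero_le_one) a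

theorem coeff_gs' (x : ℕ → ℝ) (T e t : ℕ) :
    coeff t (gs x T e) = ∑ a ∈ range T, if t = e * a then x a else 0 := by
  unfold gs
  rw [map_sum]
  refine Finset.sum_congr rfl fun a _ => ?_
  rw [coeff_monomial]

theorem coeff_gs_nonneg' (U : Set ℕ) (T e t : ℕ) :
    0 ≤ coeff t (gs (U.indicator (fun _ => (1 : ℝ))) T e) := by
  rw [coeff_gs']
  refine Finset.sum_nonneg fun a _ => ?_
  split_ifs
  · exact ind_nonneg' U a
  · exact le_rfl

theorem pr_ind_nonneg {k : ℕ} (U : Set ℕ) (T : ℕ) (e : Fin k → ℕ) (S : Finset (Fin k)) (n : ℕ) :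
    0 ≤ coeff n (pr (U.indicator (fun _ => (1 : ℝ))) T e S) := by
  unfold pr
  induction S using Finset.induction_on generalizing n with
  | empty =>
    rw [Finset.prod_empty, coeff_one]
    split_ifs <;> norm_num
  | insert i S hi ih =>
    rw [Finset.prod_insert hi, coeff_mul]
    exact Finset.sum_nonneg fun p _ => mul_nonneg (coeff_gs_nonneg' U T (e i) p.1) (ih p.2)

theorem gs_sum' (U : Set ℕ) (T e m : ℕ) (he : 1 ≤ e) :
    ∑ t ∈ range (m + 1), |coeff t (gs (U.indicator (fun _ => (1 : ℝ))) T e)| ≤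
      ∑ a ∈ range (m + 1), U.indicator (fun _ => (1 : ℝ)) a := by
  have h1 : ∀ t ∈ range (m + 1), |coeff t (gs (U.indicator (fun _ => (1 : ℝ))) T e)| =
      ∑ a ∈ range T, if t = e * a then U.indicator (fun _ => (1 : ℝ)) a else 0 := by
    intro t _
    rw [abs_of_nonneg (coeff_gs_nonneg' U T e t), coeff_gs']
  rw [Finset.sum_congr rfl h1, Finset.sum_comm]
  have h2 : ∀ a ∈ range T, (∑ t ∈ range (m + 1),
      if t = e * a then U.indicator (fun _ => (1 : ℝ)) a else 0) ≤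
      if a ∈ range (m + 1) then U.indicator (fun _ => (1 : ℝ)) a else 0 := by
    intro a _
    rw [Finset.sum_ite_eq' (range (m + 1)) (e * a) (fun _ => U.indicator (fun _ => (1 : ℝ)) a)]
    by_cases h3 : e * a ∈ range (m + 1)
    · have h4 : a ∈ range (m + 1) := by
        rw [Finset.mem_range] at h3 ⊢
        have : a ≤ e * a := Nat.le_mul_of_pos_left a he
        omega
      rw [if_pos h3, if_pos h4]
    · rw [if_neg h3]
      split_ifs
      · exact ind_nonneg' U a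
      · exact le_rfl
  refine (Finset.sum_le_sum h2).trans ?_
  rw [← Finset.sum_filter]
  refine Finset.sum_le_sum_of_subset_of_nonneg ?_ fun a _ _ => ind_nonneg' U a
  intro a ha
  exact (Finset.mem_filter.1 ha).2

theorem pr_ind_sum_aux {k : ℕ} (U : Set ℕ) (T : ℕ) (e : Fin k → ℕ) (he : ∀ i, 1 ≤ e i)
    (S : Finset (Fin k)) (m : ℕ)
    (hconv : ∀ A B : PowerSeries ℝ, ∑ t ∈ range (m + 1), |coeff t (A * B)|
      ≤ (∑ t ∈ range (m + 1), |coeff t A|) * ∑ t ∈ range (m + 1), |coeff t B|) :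
    ∑ t ∈ range (m + 1), |coeff t (pr (U.indicator (fun _ => (1 : ℝ))) T e S)|
      ≤ (∑ a ∈ range (m + 1), U.indicator (fun _ => (1 : ℝ)) a) ^ S.card := by
  induction S using Finset.induction_on with
  | empty =>
    unfold pr
    rw [Finset.prod_empty, Finset.card_empty, pow_zero]
    have h1 : ∀ t ∈ range (m + 1), |coeff t (1 : PowerSeries ℝ)| = if t = 0 then 1 else 0 := by
      intro t _
      rw [coeff_one]
      split_ifs <;> norm_num
    rw [Finset.sum_congr rfl h1, Finset.sum_ite_eq' (range (m + 1)) 0 (fun _ => (1 : ℝ)),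
      if_pos (Finset.mem_range.2 (Nat.succ_pos m))]
  | insert i S hi ih =>
    have h1 : pr (U.indicator (fun _ => (1 : ℝ))) T e (insert i S) =
        gs (U.indicator (fun _ => (1 : ℝ))) T (e i) * pr (U.indicator (fun _ => (1 : ℝ))) T e S := by
      unfold pr
      rw [Finset.prod_insert hi]
    rw [h1, Finset.card_insert_of_notMem hi, pow_succ']
    refine (hconv _ _).trans ?_
    exact mul_le_mul (gs_sum' U T (e i) m (he i)) ih
      (Finset.sum_nonneg fun t _ => abs_nonneg _)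
      (Finset.sum_nonneg fun a _ => ind_nonneg' U a)

theorem w323_nonneg (s : ℝ) (hs : 0 ≤ s) (n : ℕ) : 0 ≤ pc s n := by
  unfold pc
  exact Finset.prod_nonneg fun j _ => by positivity

theorem w323_anti (s : ℝ) (hs : 0 ≤ s) (hs1 : s ≤ 1) (n : ℕ) : pc s (n + 1) ≤ pc s n := by
  have h0 := w323_nonneg s hs n
  have e : pc s (n + 1) = pc s n * ((s + n) / (n + 1)) := by
    unfold pc
    rw [Finset.prod_range_succ]
  rw [e]
  have h1 : (s + n) / ((n : ℝ) + 1) ≤ 1 := by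
    rw [div_le_one (by positivity)]
    linarith
  calc pc s n * ((s + n) / (n + 1)) ≤ pc s n * 1 := mul_le_mul_of_nonneg_left h1 h0
    _ = pc s n := mul_one _

theorem sum_w_le_aux {θ : ℝ} (h0 : 0 < θ)
    (hser : ∀ l : ℕ, PP θ ^ l = PowerSeries.mk (pc (l * θ)))
    (hpos : ∀ {s : ℝ}, 0 < s → ∀ n, 0 < pc s n)
    (hanti : ∀ {s : ℝ}, 0 < s → s ≤ 1 → ∀ n, pc s (n + 1) ≤ pc s n)
    (l : ℕ) (hl : (l : ℝ) * θ < 1) (m : ℕ) :
    ∑ t ∈ range (m + 1), |coeff t ((1 - X) * PP θ ^ l)| ≤ 2 := by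
  have hs : 0 ≤ (l : ℝ) * θ := by positivity
  set s : ℝ := (l : ℝ) * θ with hsdef
  have h0c : coeff 0 ((1 - X) * PP θ ^ l) = 1 := by
    rw [hser, sub_mul, one_mul, map_sub, coeff_mk, coeff_zero_X_mul, sub_zero]
    simp [pc]
  have hsc : ∀ t, coeff (t + 1) ((1 - X) * PP θ ^ l) = pc s (t + 1) - pc s t := by
    intro t
    rw [hser, sub_mul, one_mul, map_sub, coeff_mk, coeff_succ_X_mul, coeff_mk]
  rw [Finset.sum_range_succ', h0c]
  have e : ∀ t ∈ range m, |coeff (t + 1) ((1 - X) * PP θ ^ l)| = pc s t - pc s (t + 1) := by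
    intro t _
    rw [hsc, abs_of_nonpos (by linarith [w323_anti s hs hl.le t])]
    ring
  rw [Finset.sum_congr rfl e, Finset.sum_range_sub', abs_one]
  have h1 : pc s 0 = 1 := by simp [pc]
  have h2 := w323_nonneg s hs m
  rw [h1]
  linarith

theorem crude_dom_aux_prod {ι : Type*} [DecidableEq ι] (A B : ι → PowerSeries ℝ)
    (hA : ∀ i m, 0 ≤ coeff m (A i)) (hAB : ∀ i m, coeff m (A i) ≤ coeff m (B i))
    (S : Finset ι) : ∀ n, 0 ≤ coeff n (∏ i ∈ S, A i) ∧
      coeff n (∏ i ∈ S, A i) ≤ coeff n (∏ i ∈ S, B i) := by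
  induction S using Finset.induction_on with
  | empty =>
    intro n
    simp only [Finset.prod_empty]
    refine ⟨?_, le_rfl⟩
    rw [PowerSeries.coeff_one]
    split_ifs <;> norm_num
  | insert a s ha ih =>
    intro n
    rw [Finset.prod_insert ha, Finset.prod_insert ha, PowerSeries.coeff_mul, PowerSeries.coeff_mul]
    refine ⟨Finset.sum_nonneg fun p _ => mul_nonneg (hA _ _) (ih _).1, ?_⟩
    refine Finset.sum_le_sum fun p _ => ?_
    exact mul_le_mul (hAB _ _) (ih _).2 (ih _).1 ((hA _ _).trans (hAB _ _))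

theorem crude_dom_aux {θ : ℝ} (hpos : ∀ n, 0 < pc θ n) (k : ℕ) (C' : ℝ)
    (hC : 1 ≤ C') (hdom : ∀ e : ℕ, 1 ≤ e → e ≤ k * k → ∀ T n : ℕ,
      coeff n (gs (pc θ) T e) ≤ C' * pc θ n) (U : Set ℕ) (e : Fin k → ℕ)
    (he : ∀ i, 1 ≤ e i ∧ e i ≤ k) (S : Finset (Fin k)) (n T : ℕ) :
    coeff n (pr (U.indicator (fun _ => (1 : ℝ))) T e S)
      ≤ coeff n (∏ i ∈ S, (gs (xx θ U) T (e i) + C (2 * C') * PP θ)) := by
  unfold pr
  refine (crude_dom_aux_prod (fun i => gs (U.indicator (fun _ => (1 : ℝ))) T (e i))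
    (fun i => gs (xx θ U) T (e i) + C (2 * C') * PP θ) ?_ ?_ S n).2
  · intro i m
    simp only [gs, map_sum]
    refine Finset.sum_nonneg fun a _ => ?_
    rw [PowerSeries.coeff_monomial]
    split_ifs
    · exact Set.indicator_nonneg (fun _ _ => zero_le_one) _
    · exact le_rfl
  · intro i m
    have h1 : gs (U.indicator (fun _ => (1 : ℝ))) T (e i) =
        gs (xx θ U) T (e i) + gs (pc θ) T (e i) := by
      simp only [gs]
      rw [← Finset.sum_add_distrib]
      refine Finset.sum_congr rfl fun a _ => ?_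
      rw [← map_add]
      congr 1
      simp only [xx]
      ring
    have hk : e i ≤ k * k := by
      have := (he i).2
      have hk1 : 1 ≤ k := (he i).1.trans this
      nlinarith
    have h2 := hdom (e i) (he i).1 hk T m
    show coeff m (gs (U.indicator (fun _ => (1 : ℝ))) T (e i)) ≤
      coeff m (gs (xx θ U) T (e i) + C (2 * C') * PP θ)
    rw [h1, map_add, map_add, PowerSeries.coeff_C_mul]
    have h3 : coeff m (PP θ) = pc θ m := by simp [PP]
    rw [h3]
    have := hpos m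
    nlinarith

theorem expo_I {k b j l : ℕ} {θ : ℝ} (h0 : 0 < θ) (h1 : θ ≤ 1) (hk : 3 < (k : ℝ) * θ)
    (hsum : j + l + 2 * b ≤ k) (hcase : (1 ≤ b ∧ (b : ℝ) * θ ≤ 1) ∨ (b = 0 ∧ 1 ≤ j))
    (hl : 1 ≤ (l : ℝ) * θ) :
    (b : ℝ) * θ + ((j : ℝ) * θ / 2 + max 0 ((l : ℝ) * θ - 2)) < (k : ℝ) * θ - 2 := by
  have hs : (j : ℝ) + l + 2 * b ≤ k := by exact_mod_cast hsum
  have h3 : ((j : ℝ) + l + 2 * b) * θ ≤ k * θ := mul_le_mul_of_nonneg_right hs h0.le
  have hj : 0 ≤ (j : ℝ) * θ := by positivity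
  have hb : 0 ≤ (b : ℝ) * θ := by positivity
  have hpos : 0 < (b : ℝ) * θ + (j : ℝ) * θ / 2 := by
    rcases hcase with ⟨h, -⟩ | ⟨-, h⟩
    · have : (0 : ℝ) < b := by exact_mod_cast h
      have : 0 < (b : ℝ) * θ := by positivity
      linarith
    · have : (0 : ℝ) < j := by exact_mod_cast h
      have : 0 < (j : ℝ) * θ := by positivity
      linarith
  rcases le_total ((l : ℝ) * θ - 2) 0 with h | h
  · rw [max_eq_left h]
    linarith
  · rw [max_eq_right h]
    linarith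

theorem expo_II {k b j l : ℕ} {θ : ℝ} (h0 : 0 < θ) (h1 : θ ≤ 1) (hk : 3 < (k : ℝ) * θ)
    (hsum : j + l + 2 * b ≤ k) (hcase : (1 ≤ b ∧ (b : ℝ) * θ ≤ 1) ∨ (b = 0 ∧ 1 ≤ j))
    (hl : (l : ℝ) * θ < 1) :
    (b : ℝ) * θ + max 0 (((j : ℝ) * θ - 1) / 2) < (k : ℝ) * θ - 2 := by
  have hs : (j : ℝ) + l + 2 * b ≤ k := by exact_mod_cast hsum
  have h3 : ((j : ℝ) + l + 2 * b) * θ ≤ k * θ := mul_le_mul_of_nonneg_right hs h0.le
  have hj : 0 ≤ (j : ℝ) * θ := by positivity
  have hll : 0 ≤ (l : ℝ) * θ := by positivity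
  have hb : 0 ≤ (b : ℝ) * θ := by positivity
  have hb1 : (b : ℝ) * θ ≤ 1 := by
    rcases hcase with ⟨-, h⟩ | ⟨h, -⟩
    · exact h
    · rw [h]
      simp
  rcases le_total (((j : ℝ) * θ - 1) / 2) 0 with h | h
  · rw [max_eq_left h]
    linarith
  · rw [max_eq_right h]
    linarith

theorem pr_ind_sum {k : ℕ} (U : Set ℕ) (T : ℕ) (e : Fin k → ℕ) (he : ∀ i, 1 ≤ e i)
    (S : Finset (Fin k)) (m : ℕ) :
    ∑ t ∈ range (m + 1), |coeff t (pr (U.indicator (fun _ => (1 : ℝ))) T e S)|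
      ≤ (∑ a ∈ range (m + 1), U.indicator (fun _ => (1 : ℝ)) a) ^ S.card :=
  pr_ind_sum_aux U T e he S m (fun A B => conv_sum_bound A B m)

theorem sum_w_le {θ : ℝ} (h0 : 0 < θ) (l : ℕ) (hl : (l : ℝ) * θ < 1) (m : ℕ) :
    ∑ t ∈ range (m + 1), |coeff t ((1 - X) * PP θ ^ l)| ≤ 2 :=
  sum_w_le_aux h0 pser (fun hs n => pc_pos hs n) (fun hs hs1 n => pc_succ_le hs hs1 n) l hl m

theorem crude_dom {θ : ℝ} (h0 : 0 < θ) (h1 : θ ≤ 1) (k : ℕ) : ∃ C' : ℝ, 1 ≤ C' ∧
    ∀ (U : Set ℕ) (e : Fin k → ℕ) (_ : ∀ i, 1 ≤ e i ∧ e i ≤ k) (S : Finset (Fin k)) (n T : ℕ),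
    coeff n (pr (U.indicator (fun _ => (1 : ℝ))) T e S)
      ≤ coeff n (∏ i ∈ S, (gs (xx θ U) T (e i) + C (2 * C') * PP θ)) := by
  obtain ⟨C', hC', hdom⟩ := major_1 h0 h1 (k * k)
  exact ⟨C', hC', fun U e he S n T => crude_dom_aux (pc_pos h0) k C' hC' hdom U e he S n T⟩

end Pool.Agent.Helper149.Thin3
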