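import Pool.Agent.Helper149.Thin3.Main
import Pool.Agent.Helper149.Thin3.G5

noncomputable section

namespace Pool.Agent.Helper149.Thin3

open Finset PowerSeries Pool.Agent.Helper149.Thin

/-- `f T n` is bounded by `(n+2)^g` up to logarithms for some `g < G` -/
def LO (G : ℝ) (f : ℕ → ℕ → ℝ) : Prop :=
  ∃ g < G, ∃ K : ℝ, 0 ≤ K ∧ ∃ c : ℕ, ∀ T n : ℕ, n + 1 < T →
    |f T n| ≤ K * LL n ^ c * ((n : ℝ) + 2) ^ g

theorem LO.add {G : ℝ} {f f' : ℕ → ℕ → ℝ} (h : LO G f) (h' : LO G f') :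
    LO G (fun T n => f T n + f' T n) := by
  obtain ⟨g, hg, K, hK, c, hc⟩ := h
  obtain ⟨g', hg', K', hK', c', hc'⟩ := h'
  refine ⟨max g g', max_lt hg hg', K + K', by positivity, c + c', fun T n hn => ?_⟩
  have hLL := LL_one n
  have hLL0 : 0 ≤ LL n := by linarith
  have hn2 := n2_one n
  have e1 : LL n ^ c ≤ LL n ^ (c + c') := pow_le_pow_right₀ hLL (by omega)
  have e2 : LL n ^ c' ≤ LL n ^ (c + c') := pow_le_pow_right₀ hLL (by omega)
  have e3 : ((n : ℝ) + 2) ^ g ≤ ((n : ℝ) + 2) ^ (max g g') :=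
    Real.rpow_le_rpow_of_exponent_le hn2 (le_max_left _ _)
  have e4 : ((n : ℝ) + 2) ^ g' ≤ ((n : ℝ) + 2) ^ (max g g') :=
    Real.rpow_le_rpow_of_exponent_le hn2 (le_max_right _ _)
  calc |f T n + f' T n| ≤ |f T n| + |f' T n| := abs_add_le _ _
    _ ≤ K * LL n ^ c * ((n : ℝ) + 2) ^ g + K' * LL n ^ c' * ((n : ℝ) + 2) ^ g' :=
        add_le_add (hc T n hn) (hc' T n hn)
    _ ≤ K * LL n ^ (c + c') * ((n : ℝ) + 2) ^ (max g g')
        + K' * LL n ^ (c + c') * ((n : ℝ) + 2) ^ (max g g') := by gcongr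
    _ = _ := by ring

theorem LO.zero (G : ℝ) : LO G (fun _ _ => 0) := by
  refine ⟨G - 1, by linarith, 0, le_refl _, 0, fun T n _ => ?_⟩
  simp

theorem LO.sum {G : ℝ} {ι : Type*} (I : Finset ι) {f : ι → ℕ → ℕ → ℝ}
    (h : ∀ i ∈ I, LO G (f i)) : LO G (fun T n => ∑ i ∈ I, f i T n) := by
  classical
  induction I using Finset.induction_on with
  | empty => simpa using LO.zero G
  | insert a I ha ih =>
    simp only [Finset.sum_insert ha]
    exact (h a (Finset.mem_insert_self _ _)).add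
      (ih fun i hi => h i (Finset.mem_insert_of_mem hi))

theorem LO.le {G : ℝ} {f f' : ℕ → ℕ → ℝ} (h : LO G f)
    (hle : ∀ T n, n + 1 < T → |f' T n| ≤ |f T n|) : LO G f' := by
  obtain ⟨g, hg, K, hK, c, hc⟩ := h
  exact ⟨g, hg, K, hK, c, fun T n hn => (hle T n hn).trans (hc T n hn)⟩

theorem LL_succ (n : ℕ) : LL (n + 1) ≤ 2 * LL n := by
  unfold LL
  have h1 : Real.log (((n + 1 : ℕ) : ℝ) + 2) ≤ Real.log (((n : ℝ) + 2) * 2) := by
    apply Real.log_le_log (by positivity)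
    push_cast
    have : (0:ℝ) ≤ n := Nat.cast_nonneg n
    linarith
  rw [Real.log_mul (by positivity) (by norm_num)] at h1
  have h2 : Real.log 2 ≤ 1 := by have := Real.log_two_lt_d9; linarith
  have h3 : 0 ≤ Real.log ((n : ℝ) + 2) := Real.log_nonneg (n2_one n)
  linarith

/-- bounds at `n + 1` are as good as bounds at `n` -/
theorem LO.of_succ {G g K : ℝ} {c : ℕ} {f : ℕ → ℕ → ℝ} (hg : g < G) (hg0 : 0 ≤ g) (hK : 0 ≤ K)
    (h : ∀ T n : ℕ, n + 1 < T →
      |f T n| ≤ K * LL (n + 1) ^ c * (((n + 1 : ℕ) : ℝ) + 2) ^ g) : LO G f := by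
  refine ⟨g, hg, K * 2 ^ c * 2 ^ g, by positivity, c, fun T n hn => (h T n hn).trans ?_⟩
  have h1 : 0 ≤ LL (n + 1) := by linarith [LL_one (n + 1)]
  have h2 : 0 ≤ LL n := by linarith [LL_one n]
  have e1 : LL (n + 1) ^ c ≤ 2 ^ c * LL n ^ c := by
    rw [← mul_pow]
    exact pow_le_pow_left₀ h1 (LL_succ n) c
  have e2 : (((n + 1 : ℕ) : ℝ) + 2) ^ g ≤ 2 ^ g * ((n : ℝ) + 2) ^ g := by
    rw [← Real.mul_rpow (by norm_num) (by positivity)]
    apply Real.rpow_le_rpow (by positivity) _ hg0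
    push_cast
    have : (0:ℝ) ≤ n := Nat.cast_nonneg n
    linarith
  calc K * LL (n + 1) ^ c * (((n + 1 : ℕ) : ℝ) + 2) ^ g
      ≤ K * (2 ^ c * LL n ^ c) * (2 ^ g * ((n : ℝ) + 2) ^ g) := by gcongr
    _ = _ := by ring

theorem coeff_diff (F : PowerSeries ℝ) (n : ℕ) :
    coeff (n + 1) F - coeff n F = coeff (n + 1) ((1 - X) * F) := by
  rw [sub_mul, one_mul, map_sub, PowerSeries.coeff_succ_X_mul]

/-- the basic term bound -/
theorem term_LO {θ : ℝ} (h0 : 0 < θ) (h1 : θ ≤ 1) {k : ℕ} (hk1 : 1 ≤ k) (hk : 3 < (k : ℝ) * θ)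
    {U : Set ℕ} (hR : Rand θ k U) (e : Fin k → ℕ) (he : ∀ i, 1 ≤ e i ∧ e i ≤ k)
    (R S2 : Finset (Fin k)) (l : ℕ) (hsum : R.card + l + 2 * S2.card ≤ k)
    (hcase : (1 ≤ S2.card ∧ (S2.card : ℝ) * θ ≤ 1) ∨ (S2.card = 0 ∧ 1 ≤ R.card)) :
    LO ((k : ℝ) * θ - 2) (fun T n => coeff (n + 1) (pr (xx θ U) T e R *
      ((1 - X) * PP θ ^ l * pr (U.indicator (fun _ => (1 : ℝ))) T e S2))) := by
  obtain ⟨Kc, hKc, cc', hcnt⟩ := count_bound h0 h1 hk1 hR
  have hQ : ∀ T m, ∑ t ∈ range (m + 1), |coeff t (pr (U.indicator (fun _ => (1 : ℝ))) T e S2)|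
      ≤ Kc ^ S2.card * LL m ^ (cc' * S2.card) * ((m : ℝ) + 2) ^ ((S2.card : ℝ) * θ) := by
    intro T m
    refine (pr_ind_sum U T e (fun i => (he i).1) S2 m).trans ?_
    have hn20 : (0:ℝ) < (m:ℝ) + 2 := by positivity
    calc _ ≤ (Kc * LL m ^ cc' * ((m : ℝ) + 2) ^ θ) ^ S2.card := by
          apply pow_le_pow_left₀ _ (hcnt m)
          exact Finset.sum_nonneg fun a _ => Set.indicator_nonneg (fun _ _ => zero_le_one) a
      _ = _ := by
          rw [mul_pow, mul_pow, ← pow_mul, ← Real.rpow_mul_natCast hn20.le]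
          congr 2
          ring
  rcases le_or_gt 1 ((l : ℝ) * θ) with hl | hl
  · obtain ⟨K3, hK3, c3, h3⟩ := C3' h0 h1 hR l (by omega) R.card
    have hexp := expo_I h0 h1 hk hsum hcase hl
    refine LO.of_succ (g := (S2.card : ℝ) * θ + ((R.card : ℝ) * θ / 2 + max 0 ((l : ℝ) * θ - 2)))
      (K := K3 * Kc ^ S2.card) (c := c3 + cc' * S2.card) hexp (by positivity) (by positivity)
      (fun T n _ => ?_)
    set m := n + 1 with hm
    have hLL := LL_one m
    have hLL0 : 0 ≤ LL m := by linarith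
    have hn20 : (0:ℝ) < (m:ℝ) + 2 := by positivity
    have e1 : pr (xx θ U) T e R *
        ((1 - X) * PP θ ^ l * pr (U.indicator (fun _ => (1 : ℝ))) T e S2)
        = (pr (xx θ U) T e R * ((1 - X) * PP θ ^ l)) *
          pr (U.indicator (fun _ => (1 : ℝ))) T e S2 := by ring
    rw [e1]
    have hg0 : 0 ≤ (R.card : ℝ) * θ / 2 + max 0 ((l : ℝ) * θ - 2) := by positivity
    have e2 := conv_bound (pr (xx θ U) T e R * ((1 - X) * PP θ ^ l))
      (pr (U.indicator (fun _ => (1 : ℝ))) T e S2)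
      (K3 * LL m ^ c3 * ((m : ℝ) + 2) ^ ((R.card : ℝ) * θ / 2 + max 0 ((l : ℝ) * θ - 2))) m
      (fun t ht => by
        refine (h3 e he R rfl T t).trans ?_
        have f1 : LL t ≤ LL m := LL_mono ht
        have f2 : 0 ≤ LL t := by linarith [LL_one t]
        have f3 : (t : ℝ) ≤ m := by exact_mod_cast ht
        gcongr)
    refine e2.trans ?_
    calc _ ≤ (K3 * LL m ^ c3 * ((m : ℝ) + 2) ^ ((R.card : ℝ) * θ / 2 + max 0 ((l : ℝ) * θ - 2))) *
          (Kc ^ S2.card * LL m ^ (cc' * S2.card) * ((m : ℝ) + 2) ^ ((S2.card : ℝ) * θ)) := by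
          gcongr
          exact hQ T m
      _ = _ := by
          rw [Real.rpow_add hn20 ((S2.card : ℝ) * θ), pow_add]
          ring
  · obtain ⟨K2, hK2, c2, h2⟩ := C2' h0 h1 hR R.card (by omega)
    have hexp := expo_II h0 h1 hk hsum hcase hl
    refine LO.of_succ (g := (S2.card : ℝ) * θ + max 0 (((R.card : ℝ) * θ - 1) / 2))
      (K := K2 * (2 * Kc ^ S2.card)) (c := c2 + cc' * S2.card) hexp (by positivity) (by positivity)
      (fun T n _ => ?_)
    set m := n + 1 with hm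
    have hLL := LL_one m
    have hLL0 : 0 ≤ LL m := by linarith
    have hn20 : (0:ℝ) < (m:ℝ) + 2 := by positivity
    have e2 := conv_bound (pr (xx θ U) T e R)
      ((1 - X) * PP θ ^ l * pr (U.indicator (fun _ => (1 : ℝ))) T e S2)
      (K2 * LL m ^ c2 * ((m : ℝ) + 2) ^ (max 0 (((R.card : ℝ) * θ - 1) / 2))) m
      (fun t ht => by
        have h2' := h2 e he R rfl T t
        rw [mul_one] at h2'
        refine h2'.trans ?_
        have f1 : LL t ≤ LL m := LL_mono ht
        have f2 : 0 ≤ LL t := by linarith [LL_one t]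
        have f3 : (t : ℝ) ≤ m := by exact_mod_cast ht
        have f4 : 0 ≤ max 0 (((R.card : ℝ) * θ - 1) / 2) := le_max_left _ _
        gcongr)
    refine e2.trans ?_
    have e3 := conv_sum_bound ((1 - X) * PP θ ^ l)
      (pr (U.indicator (fun _ => (1 : ℝ))) T e S2) m
    have e4 : ∑ t ∈ range (m + 1), |coeff t ((1 - X) * PP θ ^ l *
        pr (U.indicator (fun _ => (1 : ℝ))) T e S2)| ≤
        2 * (Kc ^ S2.card * LL m ^ (cc' * S2.card) * ((m : ℝ) + 2) ^ ((S2.card : ℝ) * θ)) := by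
      refine e3.trans ?_
      apply mul_le_mul (sum_w_le h0 l hl m) (hQ T m)
      · exact Finset.sum_nonneg fun _ _ => abs_nonneg _
      · norm_num
    calc _ ≤ (K2 * LL m ^ c2 * ((m : ℝ) + 2) ^ (max 0 (((R.card : ℝ) * θ - 1) / 2))) *
          (2 * (Kc ^ S2.card * LL m ^ (cc' * S2.card) * ((m : ℝ) + 2) ^ ((S2.card : ℝ) * θ))) := by
          gcongr
      _ = _ := by
          rw [Real.rpow_add hn20 ((S2.card : ℝ) * θ), pow_add]
          ring

theorem expand_one {θ : ℝ} {k : ℕ} (U : Set ℕ) (e : Fin k → ℕ) (S1 : Finset (Fin k))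
    (h : ∀ i ∈ S1, e i = 1) (T n : ℕ) (hn : n < T) (Q : PowerSeries ℝ) :
    coeff n (pr (U.indicator (fun _ => (1 : ℝ))) T e S1 * Q)
      = ∑ R ∈ S1.powerset, coeff n (pr (xx θ U) T e R * (PP θ ^ (S1.card - R.card) * Q)) := by
  have e1 : pr (U.indicator (fun _ => (1 : ℝ))) T e S1
      = gs (U.indicator (fun _ => (1 : ℝ))) T 1 ^ S1.card := by
    unfold pr
    rw [← Finset.prod_const]
    exact Finset.prod_congr rfl fun i hi => by rw [h i hi]
  have e2 : (gs (xx θ U) T 1 + PP θ) ^ S1.card = ∏ i ∈ S1, (gs (xx θ U) T (e i) + PP θ) := by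
    rw [← Finset.prod_const]
    exact Finset.prod_congr rfl fun i hi => by rw [h i hi]
  rw [e1, coef_trunc (θ := θ) U T S1.card n Q hn, e2, Finset.prod_add, Finset.sum_mul, map_sum]
  refine Finset.sum_congr rfl fun R hR => ?_
  rw [Finset.mem_powerset] at hR
  rw [Finset.prod_const, Finset.card_sdiff_of_subset hR, mul_assoc]
  rfl

theorem fin_A' {θ : ℝ} (h0 : 0 < θ) (h1 : θ ≤ 1) {k : ℕ} (hk : 3 < (k : ℝ) * θ) {U : Set ℕ}
    (hR : Rand θ k U) (e : Fin k → ℕ) (he : ∀ i, 1 ≤ e i ∧ e i ≤ k) (S : Finset (Fin k))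
    (hS : ∑ i ∈ S, e i = k) (hS2 : ∃ i ∈ S, 2 ≤ e i) :
    LO ((k : ℝ) * θ - 2) (fun T n => coeff (n + 1) (pr (U.indicator (fun _ => (1 : ℝ))) T e S)
        - coeff n (pr (U.indicator (fun _ => (1 : ℝ))) T e S)) := by
  have hk1 : 1 ≤ k := by
    rcases Nat.eq_zero_or_pos k with rfl | h
    · norm_num at hk
    · exact h
  set S1 := S.filter (fun i => e i = 1) with hS1def
  set S2 := S.filter (fun i => ¬ e i = 1) with hS2def
  have hS2pos : 1 ≤ S2.card := by
    obtain ⟨i, hi, hi2⟩ := hS2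
    exact Finset.card_pos.mpr ⟨i, by rw [hS2def, Finset.mem_filter]; exact ⟨hi, by omega⟩⟩
  have hcard : S1.card + 2 * S2.card ≤ k := by
    refine le_trans ?_ hS.le
    rw [← Finset.sum_filter_add_sum_filter_not S (fun i => e i = 1)]
    have a1 : S1.card ≤ ∑ i ∈ S1, e i := by
      rw [Finset.card_eq_sum_ones]
      exact Finset.sum_le_sum fun i _ => (he i).1
    have a2 : 2 * S2.card ≤ ∑ i ∈ S2, e i := by
      rw [Finset.card_eq_sum_ones, Finset.mul_sum]
      refine Finset.sum_le_sum fun i hi => ?_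
      rw [hS2def, Finset.mem_filter] at hi
      have := (he i).1
      omega
    exact add_le_add a1 a2
  have hSS : S1.card + S2.card = S.card := by
    rw [hS1def, hS2def]; exact Finset.card_filter_add_card_filter_not _
  have hprod : ∀ T, pr (U.indicator (fun _ => (1 : ℝ))) T e S
      = pr (U.indicator (fun _ => (1 : ℝ))) T e S1 * pr (U.indicator (fun _ => (1 : ℝ))) T e S2 := by
    intro T
    unfold pr
    exact (Finset.prod_filter_mul_prod_filter_not S _ _).symm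
  rcases le_or_gt ((S2.card : ℝ) * θ) 1 with hb | hb
  · -- few nontrivial cycles
    have key := LO.sum (G := (k : ℝ) * θ - 2) S1.powerset (f := fun R T n =>
      coeff (n + 1) (pr (xx θ U) T e R *
      ((1 - X) * PP θ ^ (S1.card - R.card) * pr (U.indicator (fun _ => (1 : ℝ))) T e S2)))
      (fun R hR' => by
        rw [Finset.mem_powerset] at hR'
        have := Finset.card_le_card hR'
        exact term_LO h0 h1 hk1 hk hR e he R S2 _ (by omega) (Or.inl ⟨hS2pos, hb⟩))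
    refine key.le (fun T n hn => le_of_eq ?_)
    congr 1
    rw [coeff_diff, hprod]
    rw [show (1 - X) * (pr (U.indicator (fun _ => (1 : ℝ))) T e S1 *
        pr (U.indicator (fun _ => (1 : ℝ))) T e S2)
        = pr (U.indicator (fun _ => (1 : ℝ))) T e S1 * ((1 - X) *
        pr (U.indicator (fun _ => (1 : ℝ))) T e S2) by ring]
    rw [expand_one (θ := θ) U e S1 (fun i hi => by
      rw [hS1def, Finset.mem_filter] at hi; exact hi.2) T (n + 1) hn]
    refine Finset.sum_congr rfl fun R _ => ?_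
    congr 1
    ring
  · -- many nontrivial cycles: crude bound
    obtain ⟨C', hC', hdom⟩ := crude_dom h0 h1 k
    have hbd : ∀ R ⊆ S, ∃ K : ℝ, 1 ≤ K ∧ ∃ c : ℕ, ∀ T n : ℕ,
        |coeff n (pr (xx θ U) T e R * (PP θ ^ (S.card - R.card) * 1))|
          ≤ K * LL n ^ c * ((n : ℝ) + 2) ^ (max 0 ((S.card : ℝ) * θ - 1)) := by
      intro R hRS
      have hc1 := Finset.card_le_card hRS
      obtain ⟨K, hK, c, hc⟩ := C1' h0 h1 hR R.card (S.card - R.card) (by omega)
      refine ⟨K, hK, c, fun T n => ?_⟩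
      rw [mul_one]
      have := hc e he R rfl T n
      have e1 : ((R.card : ℝ) + ((S.card - R.card : ℕ) : ℝ)) = S.card := by
        rw [← Nat.cast_add, Nat.add_sub_cancel' hc1]
      rwa [e1] at this
    have hexp : max 0 ((S.card : ℝ) * θ - 1) < (k : ℝ) * θ - 2 := by
      apply max_lt (by linarith)
      have h2 : (S.card : ℝ) + S2.card ≤ k := by
        have : S.card + S2.card ≤ k := by omega
        exact_mod_cast this
      nlinarith
    -- bound of the coefficient itself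
    have hco : ∃ K : ℝ, 0 ≤ K ∧ ∃ c : ℕ, ∀ T n : ℕ,
        |coeff n (pr (U.indicator (fun _ => (1 : ℝ))) T e S)|
          ≤ K * LL n ^ c * ((n : ℝ) + 2) ^ (max 0 ((S.card : ℝ) * θ - 1)) := by
      have hbd' : ∀ R : Finset (Fin k), ∃ K : ℝ, 1 ≤ K ∧ ∃ c : ℕ, (R ⊆ S → ∀ T n : ℕ,
        |coeff n (pr (xx θ U) T e R * (PP θ ^ (S.card - R.card) * 1))|
          ≤ K * LL n ^ c * ((n : ℝ) + 2) ^ (max 0 ((S.card : ℝ) * θ - 1))) := by
        intro R
        by_cases h : R ⊆ S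
        · obtain ⟨K, hK, c, hc⟩ := hbd R h
          exact ⟨K, hK, c, fun _ => hc⟩
        · exact ⟨1, le_refl _, 0, fun h' => absurd h' h⟩
      choose K hK c hc using hbd'
      have hKnn : ∀ R, 0 ≤ K R := fun R => by linarith [hK R]
      refine ⟨∑ R ∈ S.powerset, (2 * C') ^ (S.card - R.card) * K R,
        Finset.sum_nonneg fun R _ => mul_nonneg (by positivity) (hKnn R),
        ∑ R ∈ S.powerset, c R, fun T n => ?_⟩
      have hLL := LL_one n
      have hLL0 : 0 ≤ LL n := by linarith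
      rw [abs_of_nonneg (pr_ind_nonneg U T e S n)]
      have g1 := hdom U e he S n T
      have g2 := major_3 (xx θ U) (PP θ) 1 (2 * C') (by positivity) e S n T
      rw [mul_one] at g2
      refine (g1.trans (le_abs_self _)).trans (g2.trans ?_)
      rw [Finset.sum_mul, Finset.sum_mul]
      refine Finset.sum_le_sum fun R hR' => ?_
      have hRS := Finset.mem_powerset.mp hR'
      have g3 : c R ≤ ∑ R ∈ S.powerset, c R :=
        Finset.single_le_sum (f := c) (fun _ _ => Nat.zero_le _) hR'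
      have g4 : LL n ^ c R ≤ LL n ^ (∑ R ∈ S.powerset, c R) := pow_le_pow_right₀ hLL g3
      have g5 := hc R hRS T n
      have g6 := hKnn R
      calc (2 * C') ^ (S.card - R.card) *
          |coeff n (pr (xx θ U) T e R * (PP θ ^ (S.card - R.card) * 1))|
          ≤ (2 * C') ^ (S.card - R.card) *
            (K R * LL n ^ c R * ((n : ℝ) + 2) ^ (max 0 ((S.card : ℝ) * θ - 1))) := by gcongr
        _ ≤ (2 * C') ^ (S.card - R.card) *
            (K R * LL n ^ (∑ R ∈ S.powerset, c R) *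
              ((n : ℝ) + 2) ^ (max 0 ((S.card : ℝ) * θ - 1))) := by gcongr
        _ = _ := by ring
    obtain ⟨K, hK, c, hc⟩ := hco
    have L1 : LO ((k : ℝ) * θ - 2)
        (fun T n => coeff (n + 1) (pr (U.indicator (fun _ => (1 : ℝ))) T e S)) :=
      LO.of_succ hexp (le_max_left _ _) hK (fun T n _ => hc T (n + 1))
    have L2 : LO ((k : ℝ) * θ - 2)
        (fun T n => - coeff n (pr (U.indicator (fun _ => (1 : ℝ))) T e S)) :=
      ⟨_, hexp, K, hK, c, fun T n _ => by rw [abs_neg]; exact hc T n⟩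
    exact (L1.add L2).le (fun T n _ => le_of_eq (by rw [sub_eq_add_neg]))

theorem fin_B' {θ : ℝ} (h0 : 0 < θ) (h1 : θ ≤ 1) {k : ℕ} (hk : 3 < (k : ℝ) * θ) {U : Set ℕ}
    (hR : Rand θ k U) :
    LO ((k : ℝ) * θ - 2) (fun T n => coeff (n + 1) (gs (U.indicator (fun _ => (1 : ℝ))) T 1 ^ k)
        - coeff n (gs (U.indicator (fun _ => (1 : ℝ))) T 1 ^ k) - pc (k * θ - 1) (n + 1)) := by
  have hk1 : 1 ≤ k := by
    rcases Nat.eq_zero_or_pos k with rfl | h
    · norm_num at hk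
    · exact h
  set e : Fin k → ℕ := fun _ => 1 with hedef
  have he : ∀ i, 1 ≤ e i ∧ e i ≤ k := fun i => ⟨le_refl _, hk1⟩
  have key := LO.sum (G := (k : ℝ) * θ - 2) ((univ : Finset (Fin k)).powerset.erase ∅)
    (f := fun R T n => coeff (n + 1) (pr (xx θ U) T e R *
      ((1 - X) * PP θ ^ (k - R.card) * pr (U.indicator (fun _ => (1 : ℝ))) T e ∅)))
      (fun R hR' => by
        rw [Finset.mem_erase] at hR'
        have hRc : 1 ≤ R.card := Finset.card_pos.mpr (Finset.nonempty_iff_ne_empty.mpr hR'.1)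
        have hRk : R.card ≤ k := by
          have := Finset.card_le_univ R
          rwa [Fintype.card_fin] at this
        exact term_LO h0 h1 hk1 hk hR e he R ∅ _ (by rw [Finset.card_empty]; omega)
          (Or.inr ⟨Finset.card_empty, hRc⟩))
  refine key.le (fun T n hn => le_of_eq ?_)
  congr 1
  rw [coeff_diff]
  have e1 : gs (U.indicator (fun _ => (1 : ℝ))) T 1 ^ k
      = pr (U.indicator (fun _ => (1 : ℝ))) T e univ := by
    unfold pr
    simp [hedef]
  rw [e1, mul_comm, expand_one (θ := θ) U e univ (fun i _ => rfl) T (n + 1) hn]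
  rw [Finset.card_univ, Fintype.card_fin]
  rw [← Finset.add_sum_erase _ _ (Finset.empty_mem_powerset (univ : Finset (Fin k)))]
  have e2 : coeff (n + 1) (pr (xx θ U) T e ∅ * (PP θ ^ (k - (∅ : Finset (Fin k)).card) * (1 - X)))
      = pc (k * θ - 1) (n + 1) := by
    rw [← pc_succ_sub]
    simp only [pr, Finset.prod_empty, one_mul, Finset.card_empty, Nat.sub_zero]
    rw [mul_comm, ← coeff_diff, pser, PowerSeries.coeff_mk, PowerSeries.coeff_mk]
  rw [e2, add_sub_cancel_left]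
  refine Finset.sum_congr rfl fun R _ => ?_
  congr 1
  simp only [pr, Finset.prod_empty]
  ring

end Pool.Agent.Helper149.Thin3
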