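import Pool.Agent.Helper149.Thin3.Fin
import Pool.Agent.Helper149.Thin.Final

noncomputable section

namespace Pool.Agent.Helper149.Thin3

open Finset PowerSeries Pool.Agent.Helper149.Thin

theorem LO.eventually_lt {G c0 : ℝ} (hc0 : 0 < c0) {f : ℕ → ℕ → ℝ} (h : LO G f) :
    ∃ n1 : ℕ, ∀ T n : ℕ, n1 ≤ n → n + 1 < T → |f T n| < c0 * ((n : ℝ) + 2) ^ G := by
  obtain ⟨g, hg, K, hK, c, hc⟩ := h
  set δ : ℝ := (G - g) / 2 with hδ
  have hδ0 : 0 < δ := by rw [hδ]; linarith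
  obtain ⟨K2, hK2, hL⟩ := LL_pow_le hδ0 c
  have ht : Filter.Tendsto (fun n : ℕ => ((n : ℝ) + 2) ^ δ) Filter.atTop Filter.atTop := by
    apply (tendsto_rpow_atTop hδ0).comp
    exact Filter.tendsto_atTop_add_const_right _ _ tendsto_natCast_atTop_atTop
  obtain ⟨n1, hn1⟩ := Filter.eventually_atTop.mp (ht.eventually_gt_atTop (K * K2 / c0))
  refine ⟨n1, fun T n hn hT => ?_⟩
  have h1 := hn1 n hn
  rw [div_lt_iff₀ hc0] at h1
  have hn20 : (0:ℝ) < (n:ℝ) + 2 := by positivity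
  have hp : 0 < ((n : ℝ) + 2) ^ (g + δ) := Real.rpow_pos_of_pos hn20 _
  have e1 : ((n : ℝ) + 2) ^ G = ((n : ℝ) + 2) ^ δ * ((n : ℝ) + 2) ^ (g + δ) := by
    rw [← Real.rpow_add hn20]; congr 1; rw [hδ]; ring
  calc |f T n| ≤ K * LL n ^ c * ((n : ℝ) + 2) ^ g := hc T n hT
    _ ≤ K * (K2 * ((n : ℝ) + 2) ^ δ) * ((n : ℝ) + 2) ^ g := by gcongr; exact hL n
    _ = (K * K2) * ((n : ℝ) + 2) ^ (g + δ) := by rw [Real.rpow_add hn20]; ring
    _ < (((n : ℝ) + 2) ^ δ * c0) * ((n : ℝ) + 2) ^ (g + δ) := mul_lt_mul_of_pos_right h1 hp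
    _ = _ := by rw [e1]; ring

theorem main_pos3 {θ : ℝ} (h0 : 0 < θ) (h1 : θ ≤ 1) {k : ℕ} (hk : 3 < (k : ℝ) * θ) {U : Set ℕ}
    (hR : Rand θ k U) :
    ∃ n1 : ℕ, ∀ m n : ℕ, n1 ≤ n → n + 1 < 2 ^ m →
      ∑ σ ∈ (univ : Finset (Equiv.Perm (Fin k))).erase 1, |Dd U σ m n|
        < Dd U (1 : Equiv.Perm (Fin k)) m n := by
  classical
  have hc := fun σ : Equiv.Perm (Fin k) => cycles k σ
  choose e S he hS hS2 hD using hc
  -- error terms
  have L1 : ∀ σ ∈ (univ : Finset (Equiv.Perm (Fin k))).erase 1,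
      LO ((k : ℝ) * θ - 2) (fun T n =>
        |coeff (n + 1) (pr (U.indicator (fun _ => (1 : ℝ))) T (e σ) (S σ))
          - coeff n (pr (U.indicator (fun _ => (1 : ℝ))) T (e σ) (S σ))|) := by
    intro σ hσ
    rw [Finset.mem_erase] at hσ
    exact (fin_A' h0 h1 hk hR (e σ) (he σ) (S σ) (hS σ) (hS2 σ hσ.1)).le
      (fun T n _ => by rw [abs_abs])
  have L2 := LO.sum _ L1
  have L3 : LO ((k : ℝ) * θ - 2) (fun T n =>
      |coeff (n + 1) (gs (U.indicator (fun _ => (1 : ℝ))) T 1 ^ k)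
        - coeff n (gs (U.indicator (fun _ => (1 : ℝ))) T 1 ^ k) - pc (k * θ - 1) (n + 1)|) :=
    (fin_B' h0 h1 hk hR).le (fun T n _ => by rw [abs_abs])
  have L4 := L2.add L3
  obtain ⟨c0, hc0, hlow⟩ := pc_lower (s := (k : ℝ) * θ - 1) (by linarith)
  obtain ⟨n1, hn1⟩ := L4.eventually_lt hc0
  refine ⟨n1, fun m n hn hm => ?_⟩
  have h2 := hn1 (2 ^ m) n hn hm
  have h3 := hlow (n + 1)
  have e5 : (k : ℝ) * θ - 1 - 1 = (k : ℝ) * θ - 2 := by ring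
  have e6 : (((n + 1 : ℕ) : ℝ) + 1) = (n : ℝ) + 2 := by push_cast; ring
  rw [e5, e6] at h3
  have h4 : ∑ σ ∈ (univ : Finset (Equiv.Perm (Fin k))).erase 1, |Dd U σ m n|
      = ∑ σ ∈ (univ : Finset (Equiv.Perm (Fin k))).erase 1,
        |coeff (n + 1) (pr (U.indicator (fun _ => (1 : ℝ))) (2 ^ m) (e σ) (S σ))
          - coeff n (pr (U.indicator (fun _ => (1 : ℝ))) (2 ^ m) (e σ) (S σ))| := by
    refine Finset.sum_congr rfl fun σ _ => ?_
    rw [Dd, hD, hD]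
  have h5 : Dd U (1 : Equiv.Perm (Fin k)) m n
      = coeff (n + 1) (gs (U.indicator (fun _ => (1 : ℝ))) (2 ^ m) 1 ^ k)
        - coeff n (gs (U.indicator (fun _ => (1 : ℝ))) (2 ^ m) 1 ^ k) := by
    rw [Dd, cycles_one, cycles_one]
  rw [h4, h5]
  have h6 := (abs_lt.mp h2).2
  have h7 := neg_abs_le (coeff (n + 1) (gs (U.indicator (fun _ => (1 : ℝ))) (2 ^ m) 1 ^ k)
        - coeff n (gs (U.indicator (fun _ => (1 : ℝ))) (2 ^ m) 1 ^ k) - pc (k * θ - 1) (n + 1))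
  linarith

theorem cnt_le3 {U : Set ℕ} {B : ℕ → ℝ}
    (h : ∀ n : ℕ, ∑ a ∈ range (n + 1), U.indicator (fun _ => (1 : ℝ)) a ≤ B n) (n : ℕ) :
    (cnt ((fun a => a + 1) '' U) n : ℝ) ≤ B n := by
  classical
  have h3 : cnt ((fun a => a + 1) '' U) n ≤ ((range (n + 1)).filter (· ∈ U)).card := by
    unfold cnt
    rw [← Fintype.card_coe, ← Nat.card_eq_fintype_card]
    refine Nat.card_le_card_of_injective
      (fun x : {a : ℕ // a ∈ (fun a => a + 1) '' U ∧ a ≤ n} =>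
        (⟨x.1 - 1, ?_⟩ : {y // y ∈ (range (n + 1)).filter (· ∈ U)})) ?_
    · obtain ⟨a, ha, hax⟩ := x.2.1
      have hax' : a + 1 = x.1 := hax
      rw [Finset.mem_filter, Finset.mem_range, ← hax']
      have := x.2.2
      exact ⟨by omega, by simpa using ha⟩
    · rintro ⟨x, hx, hx2⟩ ⟨y, hy, hy2⟩ hxy
      simp only [Subtype.mk.injEq] at hxy ⊢
      obtain ⟨a, ha, hax⟩ := hx
      obtain ⟨b, hb, hby⟩ := hy
      simp only at hax hby
      omega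
  have h4 : (cnt ((fun a => a + 1) '' U) n : ℝ) ≤ (((range (n + 1)).filter (· ∈ U)).card : ℝ) := by
    exact_mod_cast h3
  refine h4.trans (le_trans (le_of_eq ?_) (h n))
  rw [Finset.card_filter]
  push_cast
  refine Finset.sum_congr rfl fun a _ => ?_
  by_cases ha : a ∈ U
  · rw [if_pos ha, Set.indicator_of_mem ha]
  · rw [if_neg ha, Set.indicator_of_notMem ha]

theorem three_over_k (k : ℕ) (hk : 4 ≤ k) (ε : ℝ) (hε : 0 < ε) :
    ∃ A : Set ℕ, A.Infinite ∧ (∀ a ∈ A, 1 ≤ a) ∧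
      (∃ C : ℝ, ∀ n : ℕ, 1 ≤ n → (cnt A n : ℝ) ≤ C * (n : ℝ) ^ (3 / (k : ℝ) + ε)) ∧
      ∃ n0 : ℕ, ∀ n ≥ n0, rep1 A k n < rep1 A k (n + 1) ∧ rep2 A k n < rep2 A k (n + 1) ∧
        rep3 A k n < rep3 A k (n + 1) := by
  classical
  have hkR : (4:ℝ) ≤ k := by exact_mod_cast hk
  set θ : ℝ := min (3 / (k : ℝ) + ε / 2) 1 with hθ
  have h3k : 3 / (k : ℝ) < 1 := by rw [div_lt_one (by linarith)]; linarith
  have hθlow : 3 / (k : ℝ) < θ := lt_min (by linarith) h3k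
  have h3k0 : 0 < 3 / (k : ℝ) := by positivity
  have h0 : 0 < θ := by linarith
  have h1 : θ ≤ 1 := min_le_right _ _
  have hkθ3 : 3 < (k : ℝ) * θ := by
    rw [div_lt_iff₀ (by linarith)] at hθlow
    linarith
  obtain ⟨U, hR⟩ := exists_rand h0 h1 k
  obtain ⟨n1, hn1⟩ := main_pos3 h0 h1 hkθ3 hR
  obtain ⟨K, hK, c, hcount⟩ := count_bound h0 h1 (by omega : 1 ≤ k) hR
  obtain ⟨K2, hK2, hL⟩ := LL_pow_le (half_pos hε) c
  have hinc : ∀ n ≥ n1 + k,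
      rep1 ((fun a => a + 1) '' U) k n < rep1 ((fun a => a + 1) '' U) k (n + 1) ∧
      rep2 ((fun a => a + 1) '' U) k n < rep2 ((fun a => a + 1) '' U) k (n + 1) ∧
      rep3 ((fun a => a + 1) '' U) k n < rep3 ((fun a => a + 1) '' U) k (n + 1) := by
    intro n hn
    obtain ⟨l, rfl⟩ : ∃ l, n = l + k := ⟨n - k, by omega⟩
    have g1 : l + 1 < 2 ^ (l + 1) := Nat.lt_two_pow_self
    exact incr_of_pos U k (l + 1) l g1 (hn1 (l + 1) l (by omega) g1)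
  refine ⟨(fun a => a + 1) '' U, infinite_of_rep _ k _ (fun n hn => (hinc n hn).1), ?_, ?_,
    ⟨_, hinc⟩⟩
  · rintro _ ⟨a, -, rfl⟩
    exact Nat.succ_le_succ (Nat.zero_le a)
  · refine ⟨K * K2 * 3 ^ (3 / (k : ℝ) + ε), fun n hn => ?_⟩
    refine (cnt_le3 hcount n).trans ?_
    have hnR : (1:ℝ) ≤ n := by exact_mod_cast hn
    have hn20 : (0:ℝ) < (n:ℝ) + 2 := by positivity
    have e1 : θ + ε / 2 ≤ 3 / (k : ℝ) + ε := by
      have := min_le_left (3 / (k : ℝ) + ε / 2) 1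
      rw [← hθ] at this
      linarith
    calc K * LL n ^ c * ((n : ℝ) + 2) ^ θ
        ≤ K * (K2 * ((n : ℝ) + 2) ^ (ε / 2)) * ((n : ℝ) + 2) ^ θ := by gcongr; exact hL n
      _ = K * K2 * ((n : ℝ) + 2) ^ (θ + ε / 2) := by
          rw [Real.rpow_add hn20]; ring
      _ ≤ K * K2 * ((n : ℝ) + 2) ^ (3 / (k : ℝ) + ε) := by
          have : ((n : ℝ) + 2) ^ (θ + ε / 2) ≤ ((n : ℝ) + 2) ^ (3 / (k : ℝ) + ε) :=
            Real.rpow_le_rpow_of_exponent_le (by linarith) e1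
          gcongr
      _ ≤ K * K2 * (3 * (n : ℝ)) ^ (3 / (k : ℝ) + ε) := by
          have : ((n : ℝ) + 2) ^ (3 / (k : ℝ) + ε) ≤ (3 * (n : ℝ)) ^ (3 / (k : ℝ) + ε) := by
            apply Real.rpow_le_rpow hn20.le (by linarith) (by positivity)
          gcongr
      _ = _ := by
          rw [Real.mul_rpow (by norm_num) (by positivity)]; ring

end Pool.Agent.Helper149.Thin3
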