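import Pool.Agent.Helper149.Thin3.Defs
import Pool.Agent.Helper149.Thin.Lemmas

/-!
Adaptive method of conditional expectations.
(helper lemmas for MP_c06095_nt; several proofs contributed by the team's lemma jobs)
-/

noncomputable section

namespace Pool.Agent.Helper149.Thin3

open Finset PowerSeries Pool.Agent.Helper149.Thin

/-- statistic -/
def DD' {ι : Type} (p : ℕ → ℝ) (c : ι → ℕ → Set ℕ → ℝ) (U : Set ℕ) (i : ι) (T : ℕ) : ℝ :=
  ∑ a ∈ range T, (U.indicator (fun _ => (1 : ℝ)) a - p a) * c i a U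
        - ∑ a ∈ range T, p a * (c i a U) ^ 2

theorem DD'_congr {ι : Type} (p : ℕ → ℝ) (c : ι → ℕ → Set ℕ → ℝ)
    (hpred : ∀ i a (U V : Set ℕ), (∀ b < a, (b ∈ U ↔ b ∈ V)) → c i a U = c i a V)
    (U V : Set ℕ) (i : ι) (T : ℕ) (h : ∀ b < T, (b ∈ U ↔ b ∈ V)) : DD' p c U i T = DD' p c V i T := by
  classical
  unfold DD'
  have h1 : ∀ a ∈ range T, c i a U = c i a V := fun a ha =>
    hpred i a U V fun b hb => h b (hb.trans (mem_range.1 ha))
  have h2 : ∀ a ∈ range T, U.indicator (fun _ => (1 : ℝ)) a = V.indicator (fun _ => (1 : ℝ)) a := by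
    intro a ha
    simp only [Set.indicator_apply, h a (mem_range.1 ha)]
  congr 1
  · refine sum_congr rfl fun a ha => ?_
    rw [h1 a ha, h2 a ha]
  · refine sum_congr rfl fun a ha => ?_
    rw [h1 a ha]

theorem DD'_succ {ι : Type} (p : ℕ → ℝ) (c : ι → ℕ → Set ℕ → ℝ) (U : Set ℕ) (i : ι) (T : ℕ) :
    DD' p c U i (T + 1) = DD' p c U i T +
      ((U.indicator (fun _ => (1 : ℝ)) T - p T) * c i T U - p T * (c i T U) ^ 2) := by
  unfold DD'
  rw [sum_range_succ, sum_range_succ]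
  ring

theorem key_ineq (p c : ℝ) (hp0 : 0 ≤ p) (_hp1 : p ≤ 1) (hc : |c| ≤ 1) :
    (1 - p) * Real.exp ((0 - p) * c - p * c ^ 2) + p * Real.exp ((1 - p) * c - p * c ^ 2) ≤ 1 := by
  have h1 : Real.exp ((0 - p) * c - p * c ^ 2) = Real.exp (-(p * c) - p * c ^ 2) := by ring_nf
  have h2 : Real.exp ((1 - p) * c - p * c ^ 2) =
      Real.exp (-(p * c) - p * c ^ 2) * Real.exp c := by
    rw [← Real.exp_add]; ring_nf
  rw [h1, h2]
  have e : (1 - p) * Real.exp (-(p * c) - p * c ^ 2) +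
      p * (Real.exp (-(p * c) - p * c ^ 2) * Real.exp c) =
      Real.exp (-(p * c) - p * c ^ 2) * (p * (Real.exp c - 1) + 1) := by ring
  rw [e]
  have h3 : p * (Real.exp c - 1) + 1 ≤ Real.exp (p * (Real.exp c - 1)) :=
    Real.add_one_le_exp _
  have h4 : Real.exp c - 1 - c ≤ c ^ 2 := (abs_le.1 (Real.abs_exp_sub_one_sub_id_le hc)).2
  calc Real.exp (-(p * c) - p * c ^ 2) * (p * (Real.exp c - 1) + 1)
      ≤ Real.exp (-(p * c) - p * c ^ 2) * Real.exp (p * (Real.exp c - 1)) :=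
        mul_le_mul_of_nonneg_left h3 (Real.exp_pos _).le
    _ = Real.exp (p * (Real.exp c - 1 - c - c ^ 2)) := by
        rw [← Real.exp_add]; ring_nf
    _ ≤ Real.exp 0 := by
        apply Real.exp_le_exp.2
        apply mul_nonpos_of_nonneg_of_nonpos hp0
        linarith
    _ = 1 := Real.exp_zero

theorem greedy_phi {ι : Type} (I : Finset ι) (p : ℕ → ℝ) (hp : ∀ a, 0 ≤ p a ∧ p a ≤ 1)
    (c : ι → ℕ → Set ℕ → ℝ) (hc : ∀ i a U, |c i a U| ≤ 1)
    (hpred : ∀ i a (U V : Set ℕ), (∀ b < a, (b ∈ U ↔ b ∈ V)) → c i a U = c i a V)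
    (ω : ι → ℝ) (hω : ∀ i ∈ I, 0 < ω i) (hsum : ∑ i ∈ I, ω i ≤ 1) (N : ℕ) :
    ∃ U : Set ℕ, ∀ T ≤ N, ∑ i ∈ I, ω i * Real.exp (DD' p c U i T) ≤ 1 := by
  classical
  induction N with
  | zero =>
    refine ⟨∅, fun T hT => ?_⟩
    obtain rfl : T = 0 := Nat.le_zero.1 hT
    simpa [DD'] using hsum
  | succ N ih =>
    obtain ⟨U, hU⟩ := ih
    let U0 : Set ℕ := {b | b ∈ U ∧ b < N}
    let U1 : Set ℕ := insert N U0
    have a0 : ∀ b < N, (b ∈ U0 ↔ b ∈ U) := fun b hb => ⟨fun h => h.1, fun h => ⟨h, hb⟩⟩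
    have a1 : ∀ b < N, (b ∈ U1 ↔ b ∈ U) := fun b hb => by
      rw [← a0 b hb]
      exact ⟨fun h => h.resolve_left hb.ne, fun h => Or.inr h⟩
    have s0 : ∀ i, ∀ T ≤ N, DD' p c U0 i T = DD' p c U i T := fun i T hT =>
      DD'_congr p c hpred U0 U i T fun b hb => a0 b (lt_of_lt_of_le hb hT)
    have s1 : ∀ i, ∀ T ≤ N, DD' p c U1 i T = DD' p c U i T := fun i T hT =>
      DD'_congr p c hpred U1 U i T fun b hb => a1 b (lt_of_lt_of_le hb hT)
    have c0 : ∀ i, c i N U0 = c i N U := fun i => hpred i N U0 U a0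
    have c1 : ∀ i, c i N U1 = c i N U := fun i => hpred i N U1 U a1
    have i0 : U0.indicator (fun _ => (1 : ℝ)) N = 0 :=
      Set.indicator_of_notMem (fun h => lt_irrefl _ h.2) _
    have i1 : U1.indicator (fun _ => (1 : ℝ)) N = 1 :=
      Set.indicator_of_mem (Set.mem_insert _ _) _
    have havg : (1 - p N) * (∑ i ∈ I, ω i * Real.exp (DD' p c U0 i (N + 1))) +
        p N * (∑ i ∈ I, ω i * Real.exp (DD' p c U1 i (N + 1))) ≤ 1 := by
      rw [mul_sum, mul_sum, ← sum_add_distrib]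
      refine le_trans (sum_le_sum fun i hi => ?_) (hU N le_rfl)
      rw [DD'_succ, DD'_succ, s0 i N le_rfl, s1 i N le_rfl, c0, c1, i0, i1, Real.exp_add,
        Real.exp_add]
      have hk := key_ineq (p N) (c i N U) (hp N).1 (hp N).2 (hc i N U)
      have hpos : 0 ≤ ω i * Real.exp (DD' p c U i N) :=
        mul_nonneg (hω i hi).le (Real.exp_pos _).le
      calc _ = ω i * Real.exp (DD' p c U i N) *
            ((1 - p N) * Real.exp ((0 - p N) * c i N U - p N * c i N U ^ 2) +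
              p N * Real.exp ((1 - p N) * c i N U - p N * c i N U ^ 2)) := by ring
        _ ≤ ω i * Real.exp (DD' p c U i N) * 1 := mul_le_mul_of_nonneg_left hk hpos
        _ = _ := mul_one _
    have hor : (∑ i ∈ I, ω i * Real.exp (DD' p c U0 i (N + 1)) ≤ 1) ∨
        (∑ i ∈ I, ω i * Real.exp (DD' p c U1 i (N + 1)) ≤ 1) := by
      by_contra hcon
      push Not at hcon
      obtain ⟨h1, h2⟩ := hcon
      have hp0 := (hp N).1
      have hp1 := (hp N).2
      rcases eq_or_lt_of_le hp0 with h | h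
      · rw [← h] at havg
        linarith
      · have := mul_lt_mul_of_pos_left h2 h
        have := mul_le_mul_of_nonneg_left h1.le (sub_nonneg.2 hp1)
        linarith
    rcases hor with hor | hor
    · refine ⟨U0, fun T hT => ?_⟩
      rcases Nat.lt_or_ge N T with h | h
      · obtain rfl : T = N + 1 := le_antisymm hT h
        exact hor
      · simpa only [s0 _ T h] using hU T h
    · refine ⟨U1, fun T hT => ?_⟩
      rcases Nat.lt_or_ge N T with h | h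
      · obtain rfl : T = N + 1 := le_antisymm hT h
        exact hor
      · simpa only [s1 _ T h] using hU T h

theorem greedy_fin {ι : Type} (I : Finset ι) (p : ℕ → ℝ) (hp : ∀ a, 0 ≤ p a ∧ p a ≤ 1)
    (c : ι → ℕ → Set ℕ → ℝ) (hc : ∀ i a U, |c i a U| ≤ 1)
    (hpred : ∀ i a (U V : Set ℕ), (∀ b < a, (b ∈ U ↔ b ∈ V)) → c i a U = c i a V)
    (ω : ι → ℝ) (hω : ∀ i ∈ I, 0 < ω i) (hsum : ∑ i ∈ I, ω i ≤ 1) (N : ℕ) :
    ∃ U : Set ℕ, ∀ i ∈ I, ∀ T ≤ N,
      ∑ a ∈ range T, (U.indicator (fun _ => (1 : ℝ)) a - p a) * c i a U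
        - ∑ a ∈ range T, p a * (c i a U) ^ 2 ≤ Real.log (1 / ω i) := by
  obtain ⟨U, hU⟩ := greedy_phi I p hp c hc hpred ω hω hsum N
  refine ⟨U, fun i hi T hT => ?_⟩
  show DD' p c U i T ≤ _
  have h1 : ω i * Real.exp (DD' p c U i T) ≤ 1 :=
    (single_le_sum (f := fun i => ω i * Real.exp (DD' p c U i T))
      (fun j hj => mul_nonneg (hω j hj).le (Real.exp_pos _).le) hi).trans (hU T hT)
  have h2 : 0 < 1 / ω i := one_div_pos.2 (hω i hi)
  rw [Real.le_log_iff_exp_le h2, le_div_iff₀ (hω i hi)]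
  linarith

theorem compact_sel (Q : ℕ → Set ℕ → Prop) (N : ℕ → ℕ)
    (hQ : ∀ m (U V : Set ℕ), (∀ b < N m, (b ∈ U ↔ b ∈ V)) → Q m U → Q m V)
    (h : ∀ m, ∃ U, ∀ m' < m, Q m' U) : ∃ U, ∀ m, Q m U := by
  choose U hU using h
  refine ⟨{a | ∀ᶠ m in (Filter.hyperfilter ℕ : Filter ℕ), a ∈ U m}, ?_⟩
  intro m'
  set A : Set ℕ := {a | ∀ᶠ m in (Filter.hyperfilter ℕ : Filter ℕ), a ∈ U m} with hA
  have h1 : ∀ᶠ m in (Filter.hyperfilter ℕ : Filter ℕ), m' < m := by
    have h2 : (Filter.hyperfilter ℕ : Filter ℕ) ≤ Filter.atTop := by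
      rw [← Nat.cofinite_eq_atTop]
      exact Filter.hyperfilter_le_cofinite
    exact h2 (Filter.eventually_gt_atTop m')
  have h3 : ∀ᶠ m in (Filter.hyperfilter ℕ : Filter ℕ), ∀ b ∈ Set.Iio (N m'),
      (b ∈ U m ↔ b ∈ A) := by
    rw [Filter.eventually_all_finite (Set.finite_Iio _)]
    intro b _
    by_cases hb : b ∈ A
    · have h4 : ∀ᶠ m in (Filter.hyperfilter ℕ : Filter ℕ), b ∈ U m := hb
      filter_upwards [h4] with m hm
      exact ⟨fun _ => hb, fun _ => hm⟩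
    · have h4 : ¬ ∀ᶠ m in (Filter.hyperfilter ℕ : Filter ℕ), b ∈ U m := hb
      rw [← Ultrafilter.eventually_not] at h4
      filter_upwards [h4] with m hm
      exact ⟨fun h => absurd h hm, fun h => absurd h hb⟩
  obtain ⟨m, hm1, hm2⟩ := (h1.and h3).exists
  exact hQ m' (U m) A (fun b hb => hm2 b hb) (hU m m' hm1)

theorem greedy_sumA (m : ℕ) :
    ∑ n ∈ range m, 1 / (((n : ℝ) + 1) * ((n : ℝ) + 2)) = 1 - 1 / ((m : ℝ) + 1) := by
  induction m with
  | zero => simp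
  | succ m ih =>
    rw [Finset.sum_range_succ, ih]
    push_cast
    have h1 : (m : ℝ) + 1 ≠ 0 := by positivity
    have h2 : (m : ℝ) + 2 ≠ 0 := by positivity
    have h3 : (m : ℝ) + 1 + 1 ≠ 0 := by positivity
    field_simp
    ring

theorem greedy_sumB (m : ℕ) :
    ∑ r ∈ range m, (1 / 2 : ℝ) ^ (r + 1) = 1 - (1 / 2 : ℝ) ^ m := by
  induction m with
  | zero => simp
  | succ m ih =>
    rw [Finset.sum_range_succ, ih]
    ring

/-- weights -/
def greedy_om (Φ : Type) [Fintype Φ] (i : ℕ × ℕ × Bool × Φ) : ℝ :=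
  1 / (((i.1 : ℝ) + 1) * ((i.1 : ℝ) + 2)) * (1 / 2 : ℝ) ^ (i.2.1 + 1) *
    (1 / (2 * ((Fintype.card Φ : ℝ) + 1)))

theorem greedy_om_pos (Φ : Type) [Fintype Φ] (i : ℕ × ℕ × Bool × Φ) : 0 < greedy_om Φ i := by
  unfold greedy_om
  positivity

theorem greedy_om_sum (Φ : Type) [Fintype Φ] (m : ℕ) :
    ∑ i ∈ (range m ×ˢ range m ×ˢ (univ : Finset Bool) ×ˢ (univ : Finset Φ)), greedy_om Φ i
      ≤ 1 := by
  have hA0 : 0 ≤ ∑ n ∈ range m, 1 / (((n : ℝ) + 1) * ((n : ℝ) + 2)) :=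
    Finset.sum_nonneg fun n _ => by positivity
  have hA1 : ∑ n ∈ range m, 1 / (((n : ℝ) + 1) * ((n : ℝ) + 2)) ≤ 1 := by
    rw [greedy_sumA]
    have : 0 ≤ 1 / ((m : ℝ) + 1) := by positivity
    linarith
  have hB0 : 0 ≤ ∑ r ∈ range m, (1 / 2 : ℝ) ^ (r + 1) :=
    Finset.sum_nonneg fun n _ => by positivity
  have hB1 : ∑ r ∈ range m, (1 / 2 : ℝ) ^ (r + 1) ≤ 1 := by
    rw [greedy_sumB]
    have : 0 ≤ (1 / 2 : ℝ) ^ m := by positivity
    linarith
  have hC : 2 * (Fintype.card Φ : ℝ) * (1 / (2 * ((Fintype.card Φ : ℝ) + 1))) ≤ 1 := by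
    rw [mul_one_div, div_le_one (by positivity)]
    linarith
  have hC0 : 0 ≤ 2 * (Fintype.card Φ : ℝ) * (1 / (2 * ((Fintype.card Φ : ℝ) + 1))) := by
    positivity
  have heq : ∑ i ∈ (range m ×ˢ range m ×ˢ (univ : Finset Bool) ×ˢ (univ : Finset Φ)),
      greedy_om Φ i = (∑ n ∈ range m, 1 / (((n : ℝ) + 1) * ((n : ℝ) + 2))) *
        ((∑ r ∈ range m, (1 / 2 : ℝ) ^ (r + 1)) *
          (2 * (Fintype.card Φ : ℝ) * (1 / (2 * ((Fintype.card Φ : ℝ) + 1))))) := by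
    rw [Finset.sum_product, Finset.sum_mul]
    refine Finset.sum_congr rfl fun n _ => ?_
    rw [Finset.sum_product, Finset.sum_mul, Finset.mul_sum]
    refine Finset.sum_congr rfl fun r _ => ?_
    have h1 : ∀ y ∈ ((univ : Finset Bool) ×ˢ (univ : Finset Φ)), greedy_om Φ (n, r, y) =
        1 / (((n : ℝ) + 1) * ((n : ℝ) + 2)) * (1 / 2 : ℝ) ^ (r + 1) *
          (1 / (2 * ((Fintype.card Φ : ℝ) + 1))) := fun y _ => rfl
    rw [Finset.sum_congr rfl h1, Finset.sum_const, Finset.card_product, Finset.card_univ,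
      Finset.card_univ, Fintype.card_bool, nsmul_eq_mul]
    push_cast
    ring
  rw [heq]
  have h1 := mul_le_mul hB1 hC hC0 (by norm_num)
  have h2 := mul_le_mul hA1 h1 (mul_nonneg hB0 hC0) (by norm_num)
  simpa using h2

theorem greedy_om_log (Φ : Type) [Fintype Φ] (i : ℕ × ℕ × Bool × Φ) :
    Real.log (1 / greedy_om Φ i) ≤
      (Real.log (2 * ((Fintype.card Φ : ℝ) + 1)) + Real.log 2) + 2 * Real.log ((i.1 : ℝ) + 2) +
        (i.2.1 : ℝ) := by
  have h1 : 1 / greedy_om Φ i = (((i.1 : ℝ) + 1) * ((i.1 : ℝ) + 2)) * 2 ^ (i.2.1 + 1) *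
      (2 * ((Fintype.card Φ : ℝ) + 1)) := by
    unfold greedy_om
    have h2 : (i.1 : ℝ) + 1 ≠ 0 := by positivity
    have h3 : (i.1 : ℝ) + 2 ≠ 0 := by positivity
    have h4 : (Fintype.card Φ : ℝ) + 1 ≠ 0 := by positivity
    rw [one_div_pow]
    field_simp
  rw [h1, Real.log_mul (by positivity) (by positivity), Real.log_mul (by positivity)
    (by positivity), Real.log_mul (by positivity) (by positivity), Real.log_pow]
  have h2 : Real.log ((i.1 : ℝ) + 1) ≤ Real.log ((i.1 : ℝ) + 2) :=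
    Real.log_le_log (by positivity) (by linarith)
  have h3 : Real.log 2 ≤ 1 := by
    have := Real.log_two_lt_d9
    linarith
  push_cast
  have h4 : (i.2.1 : ℝ) * Real.log 2 ≤ (i.2.1 : ℝ) * 1 :=
    mul_le_mul_of_nonneg_left h3 (Nat.cast_nonneg _)
  linarith

open Classical in
/-- truncated processes -/
def greedy_ct {Φ : Type} (c : Φ → ℕ → ℕ → Set ℕ → ℝ) (i : ℕ × ℕ × Bool × Φ) (a : ℕ)
    (U : Set ℕ) : ℝ :=
  if |c i.2.2.2 i.1 a U| ≤ 2 ^ i.2.1 then
    (if i.2.2.1 then (1 : ℝ) else -1) * c i.2.2.2 i.1 a U / 2 ^ i.2.1 else 0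

theorem greedy_ct_le {Φ : Type} (c : Φ → ℕ → ℕ → Set ℕ → ℝ) (i : ℕ × ℕ × Bool × Φ) (a : ℕ)
    (U : Set ℕ) : |greedy_ct c i a U| ≤ 1 := by
  unfold greedy_ct
  split_ifs with h h'
  · rw [one_mul, abs_div, abs_of_pos (show (0 : ℝ) < 2 ^ i.2.1 by positivity)]
    exact (div_le_one (by positivity)).mpr h
  · rw [neg_one_mul, abs_div, abs_neg, abs_of_pos (show (0 : ℝ) < 2 ^ i.2.1 by positivity)]
    exact (div_le_one (by positivity)).mpr h
  · simp

theorem greedy_nr_aux {Φ : Type} [Fintype Φ] (p : ℕ → ℝ) (hp : ∀ a, 0 ≤ p a ∧ p a ≤ 1)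
    (c : Φ → ℕ → ℕ → Set ℕ → ℝ)
    (hfin : ∀ (I : Finset (ℕ × ℕ × Bool × Φ)) (c : (ℕ × ℕ × Bool × Φ) → ℕ → Set ℕ → ℝ)
      (_ : ∀ i a U, |c i a U| ≤ 1)
      (_ : ∀ i a (U V : Set ℕ), (∀ b < a, (b ∈ U ↔ b ∈ V)) → c i a U = c i a V)
      (ω : (ℕ × ℕ × Bool × Φ) → ℝ) (_ : ∀ i ∈ I, 0 < ω i) (_ : ∑ i ∈ I, ω i ≤ 1) (N : ℕ),
      ∃ U : Set ℕ, ∀ i ∈ I, ∀ T ≤ N,
        ∑ a ∈ range T, (U.indicator (fun _ => (1 : ℝ)) a - p a) * c i a U
          - ∑ a ∈ range T, p a * (c i a U) ^ 2 ≤ Real.log (1 / ω i))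
    (hcomp : ∀ (Q : ℕ → Set ℕ → Prop) (N : ℕ → ℕ)
      (_ : ∀ m (U V : Set ℕ), (∀ b < N m, (b ∈ U ↔ b ∈ V)) → Q m U → Q m V)
      (_ : ∀ m, ∃ U, ∀ m' < m, Q m' U), ∃ U, ∀ m, Q m U)
    (hpred : ∀ φ n a (U V : Set ℕ), (∀ b < a, (b ∈ U ↔ b ∈ V)) → c φ n a U = c φ n a V) :
    ∃ (U : Set ℕ) (K0 : ℝ), 0 ≤ K0 ∧ ∀ φ (n r T : ℕ), (∀ a < T, |c φ n a U| ≤ 2 ^ r) →
      |∑ a ∈ range T, (U.indicator (fun _ => (1 : ℝ)) a - p a) * c φ n a U|
        ≤ (∑ a ∈ range T, p a * (c φ n a U) ^ 2) / 2 ^ r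
          + (K0 + 2 * Real.log ((n : ℝ) + 2) + r) * 2 ^ r := by
  classical
  have hctp : ∀ (i : ℕ × ℕ × Bool × Φ) a (U V : Set ℕ), (∀ b < a, (b ∈ U ↔ b ∈ V)) →
      greedy_ct c i a U = greedy_ct c i a V := by
    intro i a U V hUV
    unfold greedy_ct
    rw [hpred i.2.2.2 i.1 a U V hUV]
  let Q : ℕ → Set ℕ → Prop := fun m U =>
    ∀ i ∈ (range (m + 1) ×ˢ range (m + 1) ×ˢ (univ : Finset Bool) ×ˢ (univ : Finset Φ)),
      ∀ T ≤ m, ∑ a ∈ range T, (U.indicator (fun _ => (1 : ℝ)) a - p a) * greedy_ct c i a U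
          - ∑ a ∈ range T, p a * (greedy_ct c i a U) ^ 2 ≤ Real.log (1 / greedy_om Φ i)
  have hQloc : ∀ m (U V : Set ℕ), (∀ b < m, (b ∈ U ↔ b ∈ V)) → Q m U → Q m V := by
    intro m U V hUV hQ i hi T hT
    have h1 := hQ i hi T hT
    have h2 : ∀ a ∈ range T, U.indicator (fun _ => (1 : ℝ)) a =
        V.indicator (fun _ => (1 : ℝ)) a := by
      intro a ha
      have haT := Finset.mem_range.mp ha
      have h3 := hUV a (by omega)
      by_cases haU : a ∈ U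
      · rw [Set.indicator_of_mem haU, Set.indicator_of_mem (h3.mp haU)]
      · rw [Set.indicator_of_notMem haU, Set.indicator_of_notMem (fun h => haU (h3.mpr h))]
    have h3 : ∀ a ∈ range T, greedy_ct c i a U = greedy_ct c i a V := by
      intro a ha
      have haT := Finset.mem_range.mp ha
      exact hctp i a U V fun b hb => hUV b (by omega)
    have h4 : ∑ a ∈ range T, (U.indicator (fun _ => (1 : ℝ)) a - p a) * greedy_ct c i a U =
        ∑ a ∈ range T, (V.indicator (fun _ => (1 : ℝ)) a - p a) * greedy_ct c i a V :=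
      Finset.sum_congr rfl fun a ha => by rw [h2 a ha, h3 a ha]
    have h5 : ∑ a ∈ range T, p a * (greedy_ct c i a U) ^ 2 =
        ∑ a ∈ range T, p a * (greedy_ct c i a V) ^ 2 :=
      Finset.sum_congr rfl fun a ha => by rw [h3 a ha]
    rw [h4, h5] at h1
    exact h1
  obtain ⟨U, hU⟩ := hcomp Q (fun m => m) hQloc (by
    intro m
    obtain ⟨U, hU⟩ := hfin
      (range m ×ˢ range m ×ˢ (univ : Finset Bool) ×ˢ (univ : Finset Φ)) (greedy_ct c)
      (greedy_ct_le c) hctp (greedy_om Φ) (fun i _ => greedy_om_pos Φ i) (greedy_om_sum Φ m) m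
    refine ⟨U, fun m' hm' i hi T hT => hU i ?_ T (by omega)⟩
    simp only [Finset.mem_product, Finset.mem_range, Finset.mem_univ, and_true] at hi ⊢
    omega)
  refine ⟨U, Real.log (2 * ((Fintype.card Φ : ℝ) + 1)) + Real.log 2, ?_, ?_⟩
  · apply add_nonneg
    · apply Real.log_nonneg
      have : (0 : ℝ) ≤ Fintype.card Φ := Nat.cast_nonneg _
      linarith
    · exact Real.log_nonneg (by norm_num)
  · intro φ n r T hb
    have key : ∀ s : Bool,
        (if s then (1 : ℝ) else -1) * ∑ a ∈ range T,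
          (U.indicator (fun _ => (1 : ℝ)) a - p a) * c φ n a U ≤
        (∑ a ∈ range T, p a * (c φ n a U) ^ 2) / 2 ^ r
          + ((Real.log (2 * ((Fintype.card Φ : ℝ) + 1)) + Real.log 2) +
            2 * Real.log ((n : ℝ) + 2) + r) * 2 ^ r := by
      intro s
      have h1 := hU (max n (max r T)) (n, r, s, φ) (by
        simp only [Finset.mem_product, Finset.mem_range, Finset.mem_univ, and_true]
        omega) T (by omega)
      have h2 : ∀ a ∈ range T, greedy_ct c (n, r, s, φ) a U =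
          (if s then (1 : ℝ) else -1) * c φ n a U / 2 ^ r := by
        intro a ha
        unfold greedy_ct
        exact if_pos (hb a (Finset.mem_range.mp ha))
      have hs2 : (if s then (1 : ℝ) else -1) ^ 2 = 1 := by
        cases s <;> simp
      have h3 : ∑ a ∈ range T, (U.indicator (fun _ => (1 : ℝ)) a - p a) *
          greedy_ct c (n, r, s, φ) a U =
          (if s then (1 : ℝ) else -1) * (∑ a ∈ range T,
            (U.indicator (fun _ => (1 : ℝ)) a - p a) * c φ n a U) / 2 ^ r := by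
        rw [Finset.mul_sum, Finset.sum_div]
        refine Finset.sum_congr rfl fun a ha => ?_
        rw [h2 a ha]
        ring
      have h4 : ∑ a ∈ range T, p a * (greedy_ct c (n, r, s, φ) a U) ^ 2 =
          (∑ a ∈ range T, p a * (c φ n a U) ^ 2) / (2 ^ r * 2 ^ r) := by
        rw [Finset.sum_div]
        refine Finset.sum_congr rfl fun a ha => ?_
        rw [h2 a ha, div_pow, mul_pow, hs2]
        ring
      rw [h3, h4] at h1
      have h5 := h1.trans (greedy_om_log Φ (n, r, s, φ))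
      simp only at h5
      have h2r : (0 : ℝ) < 2 ^ r := by positivity
      have h6 := mul_le_mul_of_nonneg_right h5 h2r.le
      have h7 : ((if s then (1 : ℝ) else -1) * (∑ a ∈ range T,
            (U.indicator (fun _ => (1 : ℝ)) a - p a) * c φ n a U) / 2 ^ r -
          (∑ a ∈ range T, p a * (c φ n a U) ^ 2) / (2 ^ r * 2 ^ r)) * 2 ^ r =
          (if s then (1 : ℝ) else -1) * (∑ a ∈ range T,
            (U.indicator (fun _ => (1 : ℝ)) a - p a) * c φ n a U) -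
          (∑ a ∈ range T, p a * (c φ n a U) ^ 2) / 2 ^ r := by
        generalize (∑ a ∈ range T,
            (U.indicator (fun _ => (1 : ℝ)) a - p a) * c φ n a U) = X
        generalize (∑ a ∈ range T, p a * (c φ n a U) ^ 2) = V
        field_simp
      rw [h7] at h6
      linarith
    rw [abs_le]
    constructor
    · have h1 := key false
      simp only [Bool.false_eq_true, if_false, neg_one_mul] at h1
      linarith
    · have h1 := key true
      simp only [if_true, one_mul] at h1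
      exact h1

/-- version of `exists_rand` in which the exponent `r` in the hypothesis is a natural number -/
theorem exists_rand_nat {θ : ℝ} (k : ℕ)
    (hg : ∀ (c : (Option (Bool × Fin (k + 1)) × (Fin k → Fin (k + 1)) × Finset (Fin k)) → ℕ → ℕ → Set ℕ → ℝ)
      (_ : ∀ φ n a (U V : Set ℕ), (∀ b < a, (b ∈ U ↔ b ∈ V)) → c φ n a U = c φ n a V),
      ∃ (U : Set ℕ) (K0 : ℝ), 0 ≤ K0 ∧ ∀ φ (n r T : ℕ), (∀ a < T, |c φ n a U| ≤ 2 ^ r) →
        |∑ a ∈ range T, (U.indicator (fun _ => (1 : ℝ)) a - pc θ a) * c φ n a U|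
          ≤ (∑ a ∈ range T, pc θ a * (c φ n a U) ^ 2) / 2 ^ r
            + (K0 + 2 * Real.log ((n : ℝ) + 2) + r) * 2 ^ r) :
    ∃ U : Set ℕ, Rand θ k U := by
  classical
  obtain ⟨U, K0, hK0, h⟩ := hg
    (fun φ n a U => cc θ (WW θ φ.1) (fun i => (φ.2.1 i : ℕ)) φ.2.2 n a U) (by
      intro φ n a U V hUV
      have hx : ∀ b < a, xx θ U b = xx θ V b := by
        intro b hb
        unfold xx
        congr 1
        by_cases hbU : b ∈ U
        · rw [Set.indicator_of_mem hbU, Set.indicator_of_mem ((hUV b hb).mp hbU)]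
        · rw [Set.indicator_of_notMem hbU,
            Set.indicator_of_notMem (fun hv => hbU ((hUV b hb).mpr hv))]
      have hgs : ∀ e : ℕ, gs (xx θ U) a e = gs (xx θ V) a e := by
        intro e
        unfold gs
        refine Finset.sum_congr rfl fun b hb => ?_
        rw [hx b (Finset.mem_range.mp hb)]
      have hpr : ∀ (e : Fin k → ℕ) (S : Finset (Fin k)),
          pr (xx θ U) a e S = pr (xx θ V) a e S := by
        intro e S
        unfold pr
        exact Finset.prod_congr rfl fun i _ => hgs (e i)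
      show cc θ (WW θ φ.1) (fun i => (φ.2.1 i : ℕ)) φ.2.2 n a U =
        cc θ (WW θ φ.1) (fun i => (φ.2.1 i : ℕ)) φ.2.2 n a V
      unfold cc
      refine Finset.sum_congr rfl fun R _ => ?_
      rw [hpr])
  refine ⟨U, K0, hK0, fun j e he S n r T hT => ?_⟩
  exact h (j, fun i => ⟨e i, by have := (he i).2; omega⟩, S) n r T hT

theorem greedy_nr {Φ : Type} [Fintype Φ] (p : ℕ → ℝ) (hp : ∀ a, 0 ≤ p a ∧ p a ≤ 1)
    (c : Φ → ℕ → ℕ → Set ℕ → ℝ)
    (hpred : ∀ φ n a (U V : Set ℕ), (∀ b < a, (b ∈ U ↔ b ∈ V)) → c φ n a U = c φ n a V) :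
    ∃ (U : Set ℕ) (K0 : ℝ), 0 ≤ K0 ∧ ∀ (φ : Φ) (n r T : ℕ), (∀ a < T, |c φ n a U| ≤ 2 ^ r) →
      |∑ a ∈ range T, (U.indicator (fun _ => (1 : ℝ)) a - p a) * c φ n a U|
        ≤ (∑ a ∈ range T, p a * (c φ n a U) ^ 2) / 2 ^ r
          + (K0 + 2 * Real.log ((n : ℝ) + 2) + r) * 2 ^ r :=
  greedy_nr_aux p hp c (fun I c hc hpred ω hω hsum N => greedy_fin I p hp c hc hpred ω hω hsum N)
    (fun Q N hQ h => compact_sel Q N hQ h) hpred

theorem exists_rand {θ : ℝ} (h0 : 0 < θ) (h1 : θ ≤ 1) (k : ℕ) : ∃ U : Set ℕ, Rand θ k U :=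
  exists_rand_nat k
    (fun c hc => greedy_nr (pc θ) (fun a => ⟨(pc_pos h0 a).le, pc_le_one h0 h1 a⟩) c hc)

end Pool.Agent.Helper149.Thin3
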