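import Pool.Agent.Helper149.Thin3.Defs
import Pool.Agent.Helper149.Thin.Lemmas

/-!
Martingale decomposition and the choice of the scale.
(helper lemmas for MP_c06095_nt; several proofs contributed by the team's lemma jobs)
-/

noncomputable section

namespace Pool.Agent.Helper149.Thin3

open Finset PowerSeries Pool.Agent.Helper149.Thin

theorem real_M (K0 K g : ℝ) (c : ℕ) (hK0 : 0 ≤ K0) (hK : 1 ≤ K) (hg : 0 ≤ g) :
    ∃ K' : ℝ, 0 ≤ K' ∧ ∀ (n : ℕ) (Y V : ℝ), 0 ≤ V → V ≤ (K * LL n ^ c * ((n : ℝ) + 2) ^ g) ^ 2 →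
      (∀ r : ℕ, K * LL n ^ c * ((n : ℝ) + 2) ^ g ≤ 2 ^ r →
        Y ≤ V / 2 ^ r + (K0 + 2 * Real.log ((n : ℝ) + 2) + r) * 2 ^ r) →
      Y ≤ K' * LL n ^ (c + 1) * ((n : ℝ) + 2) ^ g := by
  have hlK : 0 ≤ Real.log K := Real.log_nonneg hK
  set K1 : ℝ := 1 + 2 * (Real.log K + c + g) with hK1
  have hK1' : 0 ≤ K1 := by positivity
  refine ⟨(1 + 2 * (K0 + 2 + K1)) * K, by positivity, ?_⟩
  intro n Y V hV hVB hY
  set N : ℝ := (n : ℝ) + 2 with hN
  have hN2 : (1 : ℝ) ≤ N := by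
    have : (0 : ℝ) ≤ n := Nat.cast_nonneg n
    rw [hN]
    linarith
  have hlN : 0 ≤ Real.log N := Real.log_nonneg hN2
  set L : ℝ := LL n with hL
  have hLdef : L = Real.log N + 1 := rfl
  have hL1 : 1 ≤ L := by rw [hLdef]; linarith
  have hNg : 1 ≤ N ^ g := Real.one_le_rpow hN2 hg
  have hLc : 1 ≤ L ^ c := one_le_pow₀ hL1
  set B : ℝ := K * L ^ c * N ^ g with hB
  have hB1 : 1 ≤ B := by
    rw [hB]
    have h1 : 1 ≤ K * L ^ c := one_le_mul_of_one_le_of_one_le hK hLc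
    exact one_le_mul_of_one_le_of_one_le h1 hNg
  have hlogB : Real.log B ≤ (Real.log K + c + g) * L := by
    have hKne : K ≠ 0 := by positivity
    have hLne : L ^ c ≠ 0 := by positivity
    have hNne : N ^ g ≠ 0 := by positivity
    rw [hB, Real.log_mul (mul_ne_zero hKne hLne) hNne, Real.log_mul hKne hLne, Real.log_pow,
      Real.log_rpow (by linarith)]
    have h1 : Real.log L ≤ L := by
      have := Real.log_le_sub_one_of_pos (show 0 < L by linarith)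
      linarith
    have h2 : Real.log N ≤ L := by rw [hLdef]; linarith
    have h3 : Real.log K ≤ Real.log K * L := by nlinarith
    have h4 : (c : ℝ) * Real.log L ≤ c * L := mul_le_mul_of_nonneg_left h1 (Nat.cast_nonneg c)
    have h5 : g * Real.log N ≤ g * L := mul_le_mul_of_nonneg_left h2 hg
    linarith
  obtain ⟨r, hr1, hr2⟩ : ∃ r : ℕ, B ≤ 2 ^ r ∧ (2 : ℝ) ^ r ≤ 2 * B := by
    have hex : ∃ r : ℕ, B ≤ 2 ^ r := by
      obtain ⟨r, hr⟩ := pow_unbounded_of_one_lt B (show (1 : ℝ) < 2 by norm_num)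
      exact ⟨r, hr.le⟩
    classical
    refine ⟨Nat.find hex, Nat.find_spec hex, ?_⟩
    rcases Nat.eq_zero_or_pos (Nat.find hex) with h0 | h0
    · rw [h0, pow_zero]
      linarith
    · obtain ⟨m, hm⟩ : ∃ m, Nat.find hex = m + 1 := ⟨Nat.find hex - 1, by omega⟩
      have h1 : ¬ B ≤ 2 ^ m := Nat.find_min hex (by omega)
      rw [hm, pow_succ]
      push Not at h1
      linarith
  have hrL : (r : ℝ) ≤ K1 * L := by
    have h1 : (r : ℝ) * Real.log 2 ≤ Real.log 2 + Real.log B := by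
      rw [← Real.log_pow, ← Real.log_mul (by norm_num) (by positivity)]
      exact Real.log_le_log (by positivity) hr2
    have h2 : (1 : ℝ) / 2 < Real.log 2 := by
      have := Real.log_two_gt_d9
      linarith
    have hlB0 : 0 ≤ Real.log B := Real.log_nonneg hB1
    have h3 : ((r : ℝ) - 1) * Real.log 2 ≤ Real.log B := by linarith
    have h4 : (r : ℝ) - 1 ≤ 2 * Real.log B := by
      by_contra hcon
      push Not at hcon
      nlinarith
    rw [hK1]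
    nlinarith
  have hYr := hY r hr1
  have h2r : (0 : ℝ) < 2 ^ r := by positivity
  have hVr : V / 2 ^ r ≤ B := by
    rw [div_le_iff₀ h2r]
    have h1 : B ^ 2 ≤ B * 2 ^ r := by nlinarith
    linarith
  have h6 : K0 + 2 * Real.log N + r ≤ (K0 + 2 + K1) * L := by
    have h2 : Real.log N ≤ L := by rw [hLdef]; linarith
    nlinarith
  have h7 : (K0 + 2 * Real.log N + r) * 2 ^ r ≤ (K0 + 2 + K1) * L * (2 * B) := by
    apply mul_le_mul h6 hr2 h2r.le
    positivity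
  have h8 : B ≤ L * B := by nlinarith
  have h9 : (1 + 2 * (K0 + 2 + K1)) * K * L ^ (c + 1) * N ^ g =
      (1 + 2 * (K0 + 2 + K1)) * (L * B) := by
    rw [hB]
    ring
  rw [h9]
  nlinarith

theorem decomp_pow (θ : ℝ) (U : Set ℕ) (a r : ℕ) :
    xx θ U a ^ r = al r (pc θ a) + be r (pc θ a) * xx θ U a := by
  classical
  unfold al be
  by_cases h : a ∈ U
  · have h1 : xx θ U a = 1 - pc θ a := by
      unfold xx; rw [Set.indicator_of_mem h]
    rw [h1]; ring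
  · have h1 : xx θ U a = - pc θ a := by
      unfold xx; rw [Set.indicator_of_notMem h]; ring
    rw [h1]; ring

theorem decomp_mono {k : ℕ} (x : ℝ) (T : ℕ) (e : Fin k → ℕ) (R : Finset (Fin k)) :
    (∏ i ∈ R, (monomial (e i * T) x : PowerSeries ℝ)) =
      C (x ^ R.card) * X ^ ((∑ i ∈ R, e i) * T) := by
  classical
  have h1 : ∀ i ∈ R, (monomial (e i * T) x : PowerSeries ℝ) = C x * X ^ (e i * T) := by
    intro i _
    rw [monomial_eq_mk, mul_comm, ← PowerSeries.monomial_eq_mk]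
    rw [mul_comm]
    ext m
    rw [coeff_C_mul, coeff_monomial, coeff_X_pow]
    split_ifs <;> simp
  rw [Finset.prod_congr rfl h1, Finset.prod_mul_distrib, Finset.prod_const, ← map_pow,
    Finset.prod_pow_eq_pow_sum, Finset.sum_mul]

theorem decomp_step {k : ℕ} (x : ℕ → ℝ) (w : PowerSeries ℝ) (e : Fin k → ℕ) (S : Finset (Fin k))
    (n T : ℕ) :
    coeff n (pr x (T + 1) e S * w) = ∑ R ∈ S.powerset, x T ^ R.card *
      coeff n (pr x T e (S \ R) * w * X ^ ((∑ i ∈ R, e i) * T)) := by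
  classical
  have h1 : pr x (T + 1) e S = ∑ R ∈ S.powerset,
      (∏ i ∈ R, (monomial (e i * T) (x T) : PowerSeries ℝ)) * pr x T e (S \ R) := by
    unfold pr
    rw [← Finset.prod_add]
    refine Finset.prod_congr rfl fun i _ => ?_
    unfold gs
    rw [Finset.sum_range_succ, add_comm]
  rw [h1, Finset.sum_mul, map_sum]
  refine Finset.sum_congr rfl fun R _ => ?_
  rw [decomp_mono]
  have h2 : C (x T ^ R.card) * X ^ ((∑ i ∈ R, e i) * T) * pr x T e (S \ R) * w =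
      C (x T ^ R.card) * (pr x T e (S \ R) * w * X ^ ((∑ i ∈ R, e i) * T)) := by ring
  rw [h2, coeff_C_mul]

theorem decomp {k : ℕ} (θ : ℝ) (w : PowerSeries ℝ) (e : Fin k → ℕ) (S : Finset (Fin k))
    (hS : S.Nonempty) (n T : ℕ) (U : Set ℕ) :
    coeff n (pr (xx θ U) T e S * w)
      = ∑ a ∈ range T, xx θ U a * cc θ w e S n a U + ∑ a ∈ range T, dd θ w e S n a U := by
  classical
  induction T with
  | zero =>
    obtain ⟨i, hi⟩ := hS
    have h0 : pr (xx θ U) 0 e S = 0 := by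
      unfold pr
      apply Finset.prod_eq_zero hi
      unfold gs
      simp
    rw [h0]
    simp
  | succ T ih =>
    rw [Finset.sum_range_succ, Finset.sum_range_succ, decomp_step]
    have h1 : (∅ : Finset (Fin k)) ∈ S.powerset := Finset.empty_mem_powerset S
    rw [← Finset.add_sum_erase _ _ h1]
    have h2 : xx θ U T ^ (∅ : Finset (Fin k)).card * coeff n (pr (xx θ U) T e (S \ ∅) * w *
        X ^ ((∑ i ∈ (∅ : Finset (Fin k)), e i) * T)) = coeff n (pr (xx θ U) T e S * w) := by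
      simp
    rw [h2, ih]
    have h3 : ∑ R ∈ S.powerset.erase ∅, xx θ U T ^ R.card *
        coeff n (pr (xx θ U) T e (S \ R) * w * X ^ ((∑ i ∈ R, e i) * T)) =
        xx θ U T * cc θ w e S n T U + dd θ w e S n T U := by
      have h4 : dd θ w e S n T U = ∑ R ∈ S.powerset.erase ∅, al R.card (pc θ T) *
          coeff n (pr (xx θ U) T e (S \ R) * w * X ^ ((∑ i ∈ R, e i) * T)) := by
        unfold dd
        apply Finset.sum_subset
        · intro R hR
          rw [Finset.mem_filter] at hR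
          rw [Finset.mem_erase]
          refine ⟨?_, hR.1⟩
          rintro rfl
          simp at hR
        · intro R hR hR2
          rw [Finset.mem_erase] at hR
          rw [Finset.mem_filter, not_and] at hR2
          have h5 := hR2 hR.2
          have h6 : R.card = 1 := by
            have h7 : R.card ≠ 0 := by rw [Ne, Finset.card_eq_zero]; exact hR.1
            omega
          rw [h6]
          unfold al
          ring
      rw [h4]
      unfold cc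
      rw [Finset.mul_sum, ← Finset.sum_add_distrib]
      refine Finset.sum_congr rfl fun R _ => ?_
      rw [decomp_pow]
      ring
    rw [h3]
    ring

theorem be_le {p : ℝ} (h0 : 0 ≤ p) (h1 : p ≤ 1) {r : ℕ} (hr : 1 ≤ r) : |be r p| ≤ 1 := by
  unfold be
  have hq0 : 0 ≤ 1 - p := by linarith
  have hq1 : 1 - p ≤ 1 := by linarith
  have a1 : (1 - p) ^ r ≤ 1 - p := pow_le_of_le_one hq0 hq1 (by omega)
  have a2 : p ^ r ≤ p := pow_le_of_le_one h0 h1 (by omega)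
  calc |(1 - p) ^ r - (-p) ^ r| ≤ |(1 - p) ^ r| + |(-p) ^ r| := abs_sub _ _
    _ = (1 - p) ^ r + p ^ r := by
        rw [abs_pow, abs_pow, abs_neg, abs_of_nonneg h0, abs_of_nonneg hq0]
    _ ≤ (1 - p) + p := add_le_add a1 a2
    _ = 1 := by ring

theorem al_le {p : ℝ} (h0 : 0 ≤ p) (h1 : p ≤ 1) {r : ℕ} (hr : 2 ≤ r) : |al r p| ≤ p := by
  unfold al
  have hq0 : 0 ≤ 1 - p := by linarith
  have hq1 : 1 - p ≤ 1 := by linarith
  obtain ⟨s, rfl⟩ : ∃ s, r = s + 1 := ⟨r - 1, by omega⟩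
  have a1 : (1 - p) ^ s ≤ 1 - p := pow_le_of_le_one hq0 hq1 (by omega)
  have a2 : p ^ s ≤ p := pow_le_of_le_one h0 h1 (by omega)
  calc |p * (1 - p) ^ (s + 1) + (1 - p) * (-p) ^ (s + 1)|
      ≤ |p * (1 - p) ^ (s + 1)| + |(1 - p) * (-p) ^ (s + 1)| := abs_add_le _ _
    _ = p * (1 - p) ^ (s + 1) + (1 - p) * p ^ (s + 1) := by
        rw [abs_mul, abs_mul, abs_pow, abs_pow, abs_neg, abs_of_nonneg h0, abs_of_nonneg hq0]
    _ = (p * (1 - p)) * ((1 - p) ^ s + p ^ s) := by ring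
    _ ≤ (p * (1 - p)) * ((1 - p) + p) :=
        mul_le_mul_of_nonneg_left (add_le_add a1 a2) (mul_nonneg h0 hq0)
    _ ≤ p := by nlinarith

theorem LL_pow_le {δ : ℝ} (hδ : 0 < δ) (c : ℕ) :
    ∃ K : ℝ, 0 < K ∧ ∀ n : ℕ, LL n ^ c ≤ K * ((n : ℝ) + 2) ^ δ := by
  have hc1 : (0:ℝ) < (c:ℝ) + 1 := by positivity
  set ε : ℝ := δ / ((c:ℝ) + 1) with hε
  have hεp : 0 < ε := div_pos hδ hc1
  refine ⟨(1 / ε + 1) ^ c, by positivity, fun n => ?_⟩
  have hn2 : (1:ℝ) ≤ (n:ℝ) + 2 := by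
    have : (0:ℝ) ≤ (n:ℝ) := Nat.cast_nonneg n
    linarith
  have hn0 : (0:ℝ) ≤ (n:ℝ) + 2 := by linarith
  have h1 : Real.log ((n:ℝ) + 2) ≤ ((n:ℝ) + 2) ^ ε / ε := Real.log_le_rpow_div hn0 hεp
  have h2 : (1:ℝ) ≤ ((n:ℝ) + 2) ^ ε := Real.one_le_rpow hn2 hεp.le
  have h3 : LL n ≤ (1 / ε + 1) * ((n:ℝ) + 2) ^ ε := by
    unfold LL
    have : (1 / ε + 1) * ((n:ℝ) + 2) ^ ε = ((n:ℝ) + 2) ^ ε / ε + ((n:ℝ) + 2) ^ ε := by ring
    rw [this]
    linarith
  have h0 : 0 ≤ LL n := by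
    unfold LL
    have := Real.log_nonneg hn2
    linarith
  calc LL n ^ c ≤ ((1 / ε + 1) * ((n:ℝ) + 2) ^ ε) ^ c := pow_le_pow_left₀ h0 h3 c
    _ = (1 / ε + 1) ^ c * (((n:ℝ) + 2) ^ ε) ^ c := mul_pow _ _ _
    _ = (1 / ε + 1) ^ c * ((n:ℝ) + 2) ^ (ε * c) := by
        rw [← Real.rpow_natCast (((n:ℝ) + 2) ^ ε) c, ← Real.rpow_mul hn0]
    _ ≤ (1 / ε + 1) ^ c * ((n:ℝ) + 2) ^ δ := by
        refine mul_le_mul_of_nonneg_left ?_ (by positivity)
        refine Real.rpow_le_rpow_of_exponent_le hn2 ?_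
        rw [hε, div_mul_eq_mul_div, div_le_iff₀ hc1]
        nlinarith

theorem count_bound_cc (θ : ℝ) {k : ℕ} (U : Set ℕ) (i0 : Fin k) (n a : ℕ) (ha : a < n + 1) :
    cc θ (WW θ (none : Option (Bool × Fin (k + 1)))) (fun _ : Fin k => 1) {i0} n a U = 1 := by
  have hps : (({i0} : Finset (Fin k)).powerset.erase ∅) = {{i0}} := by
    ext s
    simp only [mem_erase, mem_powerset, mem_singleton, subset_singleton_iff]
    constructor
    · rintro ⟨h1, h2 | h2⟩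
      · exact absurd h2 h1
      · exact h2
    · rintro rfl
      exact ⟨singleton_ne_empty _, Or.inr rfl⟩
  unfold cc
  rw [hps, sum_singleton, card_singleton, sdiff_self]
  have h1 : be 1 (pc θ a) = 1 := by
    unfold be
    ring
  have h2 : pr (xx θ U) a (fun _ : Fin k => 1) (∅ : Finset (Fin k)) = 1 := by
    unfold pr
    exact prod_empty
  have h3 : (∅ : Finset (Fin k)) = ⊥ := rfl
  rw [h1, one_mul]
  have h4 : pr (xx θ U) a (fun _ : Fin k => 1) (⊥ : Finset (Fin k)) = 1 := h2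
  simp only [h4, sum_singleton, one_mul]
  rw [coeff_mul_X_pow', if_pos (by omega)]
  unfold WW
  rw [coeff_mk]

theorem count_bound_aux {θ : ℝ} (h0 : 0 < θ) (h1 : θ ≤ 1) {k : ℕ} (hk : 1 ≤ k) {U : Set ℕ}
    (hpos : ∀ n, 0 < pc θ n)
    (hsum : ∃ C : ℝ, 0 < C ∧ ∀ n : ℕ, 1 ≤ n → ∑ a ∈ range n, pc θ a ≤ C * (n : ℝ) ^ θ)
    (hM : ∀ (K0 K g : ℝ) (c : ℕ) (_ : 0 ≤ K0) (_ : 1 ≤ K) (_ : 0 ≤ g),
      ∃ K' : ℝ, 0 ≤ K' ∧ ∀ (n : ℕ) (Y V : ℝ), 0 ≤ V → V ≤ (K * LL n ^ c * ((n : ℝ) + 2) ^ g) ^ 2 →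
      (∀ r : ℕ, K * LL n ^ c * ((n : ℝ) + 2) ^ g ≤ 2 ^ r →
        Y ≤ V / 2 ^ r + (K0 + 2 * Real.log ((n : ℝ) + 2) + r) * 2 ^ r) →
      Y ≤ K' * LL n ^ (c + 1) * ((n : ℝ) + 2) ^ g)
    (hR : Rand θ k U) :
    ∃ K : ℝ, 1 ≤ K ∧ ∃ c : ℕ, ∀ n : ℕ,
      ∑ a ∈ range (n + 1), U.indicator (fun _ => (1 : ℝ)) a
        ≤ K * LL n ^ c * ((n : ℝ) + 2) ^ θ := by
  obtain ⟨K0, hK0, hRand⟩ := hR
  obtain ⟨C, hC, hCs⟩ := hsum
  obtain ⟨K', hK', hM'⟩ := hM K0 (max 1 C) (θ / 2) 0 hK0 (le_max_left _ _) (by positivity)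
  refine ⟨K' + C + 1, by linarith, 1, ?_⟩
  intro n
  have hn2 : (0 : ℝ) < (n : ℝ) + 2 := by positivity
  have hn21 : (1 : ℝ) ≤ (n : ℝ) + 2 := by
    have : (0 : ℝ) ≤ n := by positivity
    linarith
  have hLL : 1 ≤ LL n := by
    unfold LL
    have := Real.log_nonneg hn21
    linarith
  have hV : ∑ a ∈ range (n + 1), pc θ a ≤ C * ((n : ℝ) + 2) ^ θ := by
    refine (hCs (n + 1) (by omega)).trans ?_
    apply mul_le_mul_of_nonneg_left _ hC.le
    apply Real.rpow_le_rpow (by positivity) _ h0.le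
    push_cast
    linarith
  have hV0 : 0 ≤ ∑ a ∈ range (n + 1), pc θ a := sum_nonneg (fun a _ => (hpos a).le)
  have hhalf : (((n : ℝ) + 2) ^ (θ / 2)) ^ 2 = ((n : ℝ) + 2) ^ θ := by
    rw [← Real.rpow_natCast, ← Real.rpow_mul hn2.le]
    congr 1
    push_cast
    ring
  have hY := hM' n |∑ a ∈ range (n + 1), xx θ U a| (∑ a ∈ range (n + 1), pc θ a) hV0 (by
      rw [pow_zero, mul_one, mul_pow, hhalf]
      refine hV.trans (mul_le_mul_of_nonneg_right ?_ (by positivity))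
      have g1 : C ≤ max 1 C := le_max_right _ _
      have g2 : 1 ≤ max 1 C := le_max_left _ _
      nlinarith) (by
      intro r _
      have hcc : ∀ a ∈ range (n + 1), cc θ (WW θ (none : Option (Bool × Fin (k + 1))))
          (fun _ : Fin k => 1) {(⟨0, hk⟩ : Fin k)} n a U = 1 := fun a ha =>
        count_bound_cc θ U ⟨0, hk⟩ n a (mem_range.1 ha)
      have h2 := hRand none (fun _ : Fin k => 1) (fun _ => ⟨le_rfl, hk⟩) {(⟨0, hk⟩ : Fin k)} n r
        (n + 1) (by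
          intro a ha
          rw [hcc a (mem_range.2 ha), abs_one]
          exact one_le_pow₀ (by norm_num))
      have e1 : ∑ a ∈ range (n + 1), xx θ U a * cc θ (WW θ (none : Option (Bool × Fin (k + 1))))
          (fun _ : Fin k => 1) {(⟨0, hk⟩ : Fin k)} n a U = ∑ a ∈ range (n + 1), xx θ U a :=
        sum_congr rfl (fun a ha => by rw [hcc a ha, mul_one])
      have e2 : ∑ a ∈ range (n + 1), pc θ a * (cc θ (WW θ (none : Option (Bool × Fin (k + 1))))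
          (fun _ : Fin k => 1) {(⟨0, hk⟩ : Fin k)} n a U) ^ 2 = ∑ a ∈ range (n + 1), pc θ a :=
        sum_congr rfl (fun a ha => by rw [hcc a ha, one_pow, mul_one])
      rw [e1, e2] at h2
      exact h2)
  have hind : ∑ a ∈ range (n + 1), U.indicator (fun _ => (1 : ℝ)) a =
      ∑ a ∈ range (n + 1), xx θ U a + ∑ a ∈ range (n + 1), pc θ a := by
    rw [← sum_add_distrib]
    refine sum_congr rfl (fun a _ => ?_)
    unfold xx
    ring
  rw [hind]
  have h3 : ∑ a ∈ range (n + 1), xx θ U a ≤ |∑ a ∈ range (n + 1), xx θ U a| := le_abs_self _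
  have h4 : ((n : ℝ) + 2) ^ (θ / 2) ≤ ((n : ℝ) + 2) ^ θ :=
    Real.rpow_le_rpow_of_exponent_le hn21 (by linarith)
  have h5 : K' * LL n ^ (0 + 1) * ((n : ℝ) + 2) ^ (θ / 2) ≤ K' * LL n ^ 1 * ((n : ℝ) + 2) ^ θ := by
    rw [zero_add]
    exact mul_le_mul_of_nonneg_left h4 (by positivity)
  have hP0 : 0 ≤ ((n : ℝ) + 2) ^ θ := by positivity
  have h6 : C * ((n : ℝ) + 2) ^ θ ≤ (C + 1) * LL n ^ 1 * ((n : ℝ) + 2) ^ θ := by
    rw [pow_one]
    apply mul_le_mul_of_nonneg_right _ hP0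
    nlinarith
  have h7 : (K' + C + 1) * LL n ^ 1 * ((n : ℝ) + 2) ^ θ =
      K' * LL n ^ 1 * ((n : ℝ) + 2) ^ θ + (C + 1) * LL n ^ 1 * ((n : ℝ) + 2) ^ θ := by ring
  rw [h7]
  linarith

theorem count_bound {θ : ℝ} (h0 : 0 < θ) (h1 : θ ≤ 1) {k : ℕ} (hk : 1 ≤ k) {U : Set ℕ}
    (hR : Rand θ k U) :
    ∃ K : ℝ, 1 ≤ K ∧ ∃ c : ℕ, ∀ n : ℕ,
      ∑ a ∈ range (n + 1), U.indicator (fun _ => (1 : ℝ)) a
        ≤ K * LL n ^ c * ((n : ℝ) + 2) ^ θ :=
  count_bound_aux h0 h1 hk (pc_pos h0) (sum_pc_le h0)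
    (fun K0 K g c hK0 hK hg => real_M K0 K g c hK0 hK hg) hR

end Pool.Agent.Helper149.Thin3
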