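import Pool.Agent.Helper149.Thin3.Defs
import Pool.Agent.Helper149.Thin.Lemmas

/-!
Bounds by domination.
(helper lemmas for MP_c06095_nt; several proofs contributed by the team's lemma jobs)
-/

noncomputable section

namespace Pool.Agent.Helper149.Thin3

open Finset PowerSeries Pool.Agent.Helper149.Thin

/-- sup bound for all products of `i` factors -/
def Bd (k : ℕ) (θ : ℝ) (U : Set ℕ) (w : PowerSeries ℝ) (i : ℕ) (g : ℝ) : Prop :=
  ∃ K : ℝ, 1 ≤ K ∧ ∃ c : ℕ, ∀ e : Fin k → ℕ, (∀ i, 1 ≤ e i ∧ e i ≤ k) →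
    ∀ S : Finset (Fin k), S.card = i → ∀ T n : ℕ,
      |coeff n (pr (xx θ U) T e S * w)| ≤ K * LL n ^ c * ((n : ℝ) + 2) ^ g

/-- weighted sum bound for all products of `i` factors -/
def Bw (k : ℕ) (θ : ℝ) (U : Set ℕ) (w : PowerSeries ℝ) (i : ℕ) (g : ℝ) : Prop :=
  ∃ K : ℝ, 1 ≤ K ∧ ∃ c : ℕ, ∀ e : Fin k → ℕ, (∀ i, 1 ≤ e i ∧ e i ≤ k) →
    ∀ S : Finset (Fin k), S.card = i → ∀ s : ℕ, 1 ≤ s → s ≤ k * k → ∀ T n : ℕ,
      ∑ a ∈ range T, pc θ a * |coeff n (pr (xx θ U) a e S * w * X ^ (s * a))|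
        ≤ K * LL n ^ c * ((n : ℝ) + 2) ^ g

theorem major_1_aux {θ : ℝ} (h0 : 0 < θ) (h1 : θ ≤ 1) (hpos : ∀ n, 0 < pc θ n)
    (hup : ∃ C : ℝ, 0 < C ∧ ∀ n : ℕ, pc θ n ≤ C * ((n : ℝ) + 1) ^ (θ - 1))
    (hlow : ∃ c : ℝ, 0 < c ∧ ∀ n : ℕ, c * ((n : ℝ) + 1) ^ (θ - 1) ≤ pc θ n) (E : ℕ) :
    ∃ C : ℝ, 1 ≤ C ∧ ∀ e : ℕ, 1 ≤ e → e ≤ E → ∀ T n : ℕ,
      coeff n (gs (pc θ) T e) ≤ C * pc θ n := by
  obtain ⟨C0, hC0, hup⟩ := hup
  obtain ⟨c, hc, hlow⟩ := hlow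
  refine ⟨max 1 (C0 * (E : ℝ) ^ (1 - θ) / c), le_max_left _ _, ?_⟩
  intro e he heE T n
  have hE : (0 : ℝ) < (E : ℝ) := by
    have : 0 < E := by omega
    exact_mod_cast this
  have hcoef : coeff n (gs (pc θ) T e) = ∑ a ∈ range T, if n = e * a then pc θ a else 0 := by
    unfold gs
    rw [map_sum]
    exact Finset.sum_congr rfl fun a _ => PowerSeries.coeff_monomial _ _ _
  rw [hcoef]
  by_cases hex : ∃ a0 ∈ range T, n = e * a0
  · obtain ⟨a0, ha0, hn⟩ := hex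
    have hsum : (∑ a ∈ range T, if n = e * a then pc θ a else 0) = pc θ a0 := by
      rw [Finset.sum_eq_single a0]
      · rw [if_pos hn]
      · intro b _ hb
        rw [if_neg]
        intro h
        apply hb
        have : e * b = e * a0 := by rw [← h, ← hn]
        exact Nat.eq_of_mul_eq_mul_left (by omega) this
      · intro h
        exact absurd ha0 h
    rw [hsum]
    have hn0 : (0 : ℝ) < (n : ℝ) + 1 := by positivity
    have ha00 : (0 : ℝ) < (a0 : ℝ) + 1 := by positivity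
    have h2 : ((n : ℝ) + 1) / E ≤ (a0 : ℝ) + 1 := by
      rw [div_le_iff₀ hE]
      have h3 : n + 1 ≤ (a0 + 1) * E := by
        rw [hn]
        nlinarith [Nat.mul_le_mul_right a0 heE]
      exact_mod_cast h3
    have h3 : ((a0 : ℝ) + 1) ^ (θ - 1) ≤ (((n : ℝ) + 1) / E) ^ (θ - 1) :=
      Real.rpow_le_rpow_of_nonpos (by positivity) h2 (by linarith)
    have h4 : (((n : ℝ) + 1) / E) ^ (θ - 1) = ((n : ℝ) + 1) ^ (θ - 1) * (E : ℝ) ^ (1 - θ) := by
      rw [Real.div_rpow hn0.le hE.le, div_eq_mul_inv, ← Real.rpow_neg hE.le]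
      congr 2
      ring
    have h5 : ((n : ℝ) + 1) ^ (θ - 1) ≤ pc θ n / c := by
      rw [le_div_iff₀ hc]
      linarith [hlow n]
    have hEp : (0 : ℝ) ≤ (E : ℝ) ^ (1 - θ) := Real.rpow_nonneg hE.le _
    calc pc θ a0 ≤ C0 * ((a0 : ℝ) + 1) ^ (θ - 1) := hup a0
      _ ≤ C0 * (((n : ℝ) + 1) ^ (θ - 1) * (E : ℝ) ^ (1 - θ)) := by
          rw [← h4]
          exact mul_le_mul_of_nonneg_left h3 hC0.le
      _ ≤ C0 * (pc θ n / c * (E : ℝ) ^ (1 - θ)) :=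
          mul_le_mul_of_nonneg_left (mul_le_mul_of_nonneg_right h5 hEp) hC0.le
      _ = (C0 * (E : ℝ) ^ (1 - θ) / c) * pc θ n := by ring
      _ ≤ max 1 (C0 * (E : ℝ) ^ (1 - θ) / c) * pc θ n :=
          mul_le_mul_of_nonneg_right (le_max_right _ _) (hpos n).le
  · rw [Finset.sum_eq_zero]
    · exact mul_nonneg (le_trans zero_le_one (le_max_left _ _)) (hpos n).le
    · intro a ha
      rw [if_neg]
      intro h
      exact hex ⟨a, ha, h⟩

/-- coefficientwise domination -/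
def dmm (F G : PowerSeries ℝ) : Prop := ∀ m, |coeff m F| ≤ coeff m G

theorem dmm_nonneg {F G : PowerSeries ℝ} (h : dmm F G) (m : ℕ) : 0 ≤ coeff m G :=
  (abs_nonneg _).trans (h m)

theorem dmm_mul {F G F' G' : PowerSeries ℝ} (h : dmm F G) (h' : dmm F' G') :
    dmm (F * F') (G * G') := by
  intro m
  rw [PowerSeries.coeff_mul, PowerSeries.coeff_mul]
  refine (Finset.abs_sum_le_sum_abs _ _).trans (Finset.sum_le_sum fun x _ => ?_)
  rw [abs_mul]
  exact mul_le_mul (h _) (h' _) (abs_nonneg _) (dmm_nonneg h _)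

theorem dmm_self {F : PowerSeries ℝ} (h : ∀ m, 0 ≤ coeff m F) : dmm F F := by
  intro m; rw [abs_of_nonneg (h m)]

theorem dmm_prod {ι : Type*} (S : Finset ι) (F G : ι → PowerSeries ℝ)
    (h : ∀ i ∈ S, dmm (F i) (G i)) : dmm (∏ i ∈ S, F i) (∏ i ∈ S, G i) := by
  classical
  induction S using Finset.induction_on with
  | empty =>
    rw [Finset.prod_empty, Finset.prod_empty]
    apply dmm_self
    intro m
    rw [PowerSeries.coeff_one]
    split_ifs <;> norm_num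
  | insert a S ha ih =>
    rw [Finset.prod_insert ha, Finset.prod_insert ha]
    exact dmm_mul (h a (Finset.mem_insert_self _ _))
      (ih fun i hi => h i (Finset.mem_insert_of_mem hi))

theorem dmm_mono {F G G' : PowerSeries ℝ} (hF : ∀ m, 0 ≤ coeff m F)
    (h : ∀ m, coeff m G ≤ coeff m G') (n : ℕ) : coeff n (F * G) ≤ coeff n (F * G') := by
  rw [PowerSeries.coeff_mul, PowerSeries.coeff_mul]
  exact Finset.sum_le_sum fun x _ => mul_le_mul_of_nonneg_left (h _) (hF _)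

theorem coeff_gs (x : ℕ → ℝ) (T e m : ℕ) :
    coeff m (gs x T e) = ∑ a ∈ range T, if m = e * a then x a else 0 := by
  unfold gs
  rw [map_sum]
  exact Finset.sum_congr rfl fun a _ => PowerSeries.coeff_monomial _ _ _

theorem abs_xx_le {θ : ℝ} (hpos : ∀ n, 0 < pc θ n) (U : Set ℕ) (a : ℕ) :
    |xx θ U a| ≤ xx θ U a + 2 * pc θ a := by
  have h := hpos a
  unfold xx
  by_cases ha : a ∈ U
  · rw [Set.indicator_of_mem ha, abs_le]
    constructor <;> linarith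
  · rw [Set.indicator_of_notMem ha, abs_le]
    constructor <;> linarith

theorem major_2_aux {θ : ℝ} (h0 : 0 < θ) (h1 : θ ≤ 1) (hpos : ∀ n, 0 < pc θ n) (k : ℕ) (C' : ℝ)
    (hC : 1 ≤ C') (hdom : ∀ e : ℕ, 1 ≤ e → e ≤ k * k → ∀ T n : ℕ,
      coeff n (gs (pc θ) T e) ≤ C' * pc θ n)
    (hPl : ∀ l n : ℕ, 0 ≤ coeff n (PP θ ^ l)) (U : Set ℕ) (e : Fin k → ℕ)
    (he : ∀ i, 1 ≤ e i ∧ e i ≤ k) (S : Finset (Fin k)) (l s n T : ℕ) (hs : 1 ≤ s)
    (hs2 : s ≤ k * k) :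
    ∑ a ∈ range T, pc θ a * |coeff n (pr (xx θ U) a e S * PP θ ^ l * X ^ (s * a))|
      ≤ C' * coeff n ((∏ i ∈ S, (gs (xx θ U) T (e i) + C (2 * C') * PP θ)) * PP θ ^ (l + 1)) := by
  set H : PowerSeries ℝ := ∏ i ∈ S, (gs (xx θ U) T (e i) + C (2 * C') * PP θ) with hH
  have hcP : ∀ m, coeff m (C (2 * C') * PP θ) = 2 * C' * pc θ m := by
    intro m
    rw [PowerSeries.coeff_C_mul, PP, PowerSeries.coeff_mk]
  have hfac : ∀ a ≤ T, ∀ i, dmm (gs (xx θ U) a (e i)) (gs (xx θ U) T (e i) + C (2 * C') * PP θ) := by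
    intro a ha i m
    rw [map_add, hcP, coeff_gs, coeff_gs]
    have hek : e i ≤ k * k := by
      have hk : 1 ≤ k := (he i).1.trans (he i).2
      exact (he i).2.trans (Nat.le_mul_of_pos_left k hk)
    have h2 := hdom (e i) (he i).1 hek T m
    rw [coeff_gs] at h2
    have h3 : |∑ b ∈ range a, if m = e i * b then xx θ U b else 0|
        ≤ ∑ b ∈ range a, if m = e i * b then |xx θ U b| else 0 := by
      refine (Finset.abs_sum_le_sum_abs _ _).trans (Finset.sum_le_sum fun b _ => ?_)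
      split_ifs
      · exact le_rfl
      · simp
    have h4 : (∑ b ∈ range a, if m = e i * b then |xx θ U b| else 0)
        ≤ ∑ b ∈ range T, if m = e i * b then |xx θ U b| else 0 := by
      refine Finset.sum_le_sum_of_subset_of_nonneg (Finset.range_mono ha) fun b _ _ => ?_
      split_ifs
      · exact abs_nonneg _
      · exact le_rfl
    have h5 : (∑ b ∈ range T, if m = e i * b then |xx θ U b| else 0)
        ≤ (∑ b ∈ range T, if m = e i * b then xx θ U b else 0)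
          + 2 * ∑ b ∈ range T, if m = e i * b then pc θ b else 0 := by
      rw [Finset.mul_sum, ← Finset.sum_add_distrib]
      refine Finset.sum_le_sum fun b _ => ?_
      split_ifs
      · exact abs_xx_le hpos U b
      · simp
    linarith
  have hHd : ∀ a ≤ T, dmm (pr (xx θ U) a e S) H := fun a ha =>
    dmm_prod S _ _ fun i _ => hfac a ha i
  have hX : ∀ j : ℕ, dmm (X ^ j : PowerSeries ℝ) (X ^ j) := by
    intro j
    apply dmm_self
    intro m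
    rw [PowerSeries.coeff_X_pow]
    split_ifs <;> norm_num
  have hH0 : ∀ m, 0 ≤ coeff m (H * PP θ ^ l) := fun m =>
    dmm_nonneg (dmm_mul (hHd T le_rfl) (dmm_self (hPl l))) m
  have hmon : ∀ a : ℕ, (monomial (s * a) (pc θ a) : PowerSeries ℝ) = pc θ a • X ^ (s * a) := by
    intro a
    ext m
    rw [PowerSeries.coeff_monomial, map_smul, PowerSeries.coeff_X_pow, smul_eq_mul]
    split_ifs <;> simp
  calc ∑ a ∈ range T, pc θ a * |coeff n (pr (xx θ U) a e S * PP θ ^ l * X ^ (s * a))|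
      ≤ ∑ a ∈ range T, pc θ a * coeff n (H * PP θ ^ l * X ^ (s * a)) := by
        refine Finset.sum_le_sum fun a ha => mul_le_mul_of_nonneg_left ?_ (hpos a).le
        exact dmm_mul (dmm_mul (hHd a (Finset.mem_range.1 ha).le) (dmm_self (hPl l))) (hX _) n
    _ = coeff n (H * PP θ ^ l * gs (pc θ) T s) := by
        unfold gs
        rw [Finset.mul_sum, map_sum]
        refine Finset.sum_congr rfl fun a _ => ?_
        rw [hmon, mul_smul_comm, map_smul, smul_eq_mul]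
    _ ≤ coeff n (H * PP θ ^ l * (C C' * PP θ)) := by
        refine dmm_mono hH0 (fun m => ?_) n
        rw [PowerSeries.coeff_C_mul, PP, PowerSeries.coeff_mk]
        exact hdom s hs hs2 T m
    _ = C' * coeff n (H * PP θ ^ (l + 1)) := by
        rw [← PowerSeries.coeff_C_mul]
        congr 1
        ring

theorem major_3 {k : ℕ} (x : ℕ → ℝ) (P Q : PowerSeries ℝ) (c : ℝ) (hc : 0 ≤ c) (e : Fin k → ℕ)
    (S : Finset (Fin k)) (n T : ℕ) :
    |coeff n ((∏ i ∈ S, (gs x T (e i) + C c * P)) * Q)|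
      ≤ ∑ R ∈ S.powerset, c ^ (S.card - R.card) *
        |coeff n (pr x T e R * (P ^ (S.card - R.card) * Q))| := by
  classical
  rw [Finset.prod_add, Finset.sum_mul, map_sum]
  refine (Finset.abs_sum_le_sum_abs _ _).trans ?_
  refine Finset.sum_le_sum fun R hR => ?_
  have hRS : R ⊆ S := Finset.mem_powerset.1 hR
  have h1 : (∏ i ∈ R, gs x T (e i)) * (∏ i ∈ S \ R, (C c * P)) * Q =
      C (c ^ (S.card - R.card)) * (pr x T e R * (P ^ (S.card - R.card) * Q)) := by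
    rw [Finset.prod_const, Finset.card_sdiff_of_subset hRS, mul_pow, ← map_pow]
    unfold pr
    ring
  rw [h1, PowerSeries.coeff_C_mul, abs_mul, abs_of_nonneg (pow_nonneg hc _)]

theorem triv_Bw_aux {θ : ℝ} (h0 : 0 < θ) (h1 : θ ≤ 1) (hpos : ∀ n, 0 < pc θ n)
    (hsum : ∃ C : ℝ, 0 < C ∧ ∀ n : ℕ, 1 ≤ n → ∑ a ∈ range n, pc θ a ≤ C * (n : ℝ) ^ θ)
    (k : ℕ) (U : Set ℕ) (w : PowerSeries ℝ)
    (i : ℕ) (g : ℝ) (hg : 0 ≤ g) (h : Bd k θ U w i g) : Bw k θ U w i (g + θ) := by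
  obtain ⟨K, hK, c, hB⟩ := h
  obtain ⟨C, hC, hsum⟩ := hsum
  have hK0 : 0 < K := by linarith
  have hLL1 : ∀ n : ℕ, 1 ≤ LL n := by
    intro n
    unfold LL
    have : 0 ≤ Real.log ((n : ℝ) + 2) := Real.log_nonneg (by have : (0:ℝ) ≤ n := Nat.cast_nonneg n; linarith)
    linarith
  have hLLm : ∀ m n : ℕ, m ≤ n → LL m ≤ LL n := by
    intro m n hmn
    unfold LL
    have h2 : (m : ℝ) ≤ n := by exact_mod_cast hmn
    have h3 : (0:ℝ) ≤ m := Nat.cast_nonneg m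
    have := Real.log_le_log (by linarith : (0:ℝ) < (m:ℝ) + 2) (by linarith : (m:ℝ) + 2 ≤ n + 2)
    linarith
  refine ⟨max 1 (K * C), le_max_left _ _, c, ?_⟩
  intro e he S hS s hs _ T n
  set M : ℝ := K * LL n ^ c * ((n : ℝ) + 2) ^ g with hM
  have hn2 : (0:ℝ) < (n : ℝ) + 2 := by positivity
  have hLn : 0 < LL n := by linarith [hLL1 n]
  have hM0 : 0 ≤ M := by positivity
  have hterm : ∀ a ∈ range T, pc θ a * |coeff n (pr (xx θ U) a e S * w * X ^ (s * a))| ≤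
      if a ∈ range (n + 1) then pc θ a * M else 0 := by
    intro a _
    rw [coeff_mul_X_pow']
    by_cases hsa : s * a ≤ n
    · have han : a ≤ n := le_trans (Nat.le_mul_of_pos_left a hs) hsa
      rw [if_pos hsa, if_pos (mem_range.2 (by omega))]
      apply mul_le_mul_of_nonneg_left _ (hpos a).le
      refine (hB e he S hS a (n - s * a)).trans ?_
      have hle : n - s * a ≤ n := Nat.sub_le _ _
      have e1 : LL (n - s * a) ^ c ≤ LL n ^ c :=
        pow_le_pow_left₀ (by linarith [hLL1 (n - s * a)]) (hLLm _ _ hle) c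
      have e2 : (((n - s * a : ℕ) : ℝ) + 2) ^ g ≤ ((n : ℝ) + 2) ^ g := by
        apply Real.rpow_le_rpow (by positivity) _ hg
        have : ((n - s * a : ℕ) : ℝ) ≤ n := by exact_mod_cast hle
        linarith
      rw [hM]
      apply mul_le_mul (mul_le_mul_of_nonneg_left e1 hK0.le) e2 (by positivity) (by positivity)
    · rw [if_neg hsa, abs_zero, mul_zero]
      split_ifs
      · exact mul_nonneg (hpos a).le hM0
      · exact le_rfl
  refine (Finset.sum_le_sum hterm).trans ?_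
  have h5 : ∑ a ∈ range T, (if a ∈ range (n + 1) then pc θ a * M else 0) ≤
      ∑ a ∈ range (n + 1), pc θ a * M := by
    rw [← Finset.sum_filter]
    apply Finset.sum_le_sum_of_subset_of_nonneg
    · intro a ha
      exact (mem_filter.1 ha).2
    · intro a _ _
      exact mul_nonneg (hpos a).le hM0
  refine h5.trans ?_
  rw [← Finset.sum_mul]
  have h6 := hsum (n + 1) (by omega)
  have h7 : (((n + 1 : ℕ) : ℝ)) ^ θ ≤ ((n : ℝ) + 2) ^ θ := by
    apply Real.rpow_le_rpow (by positivity) _ h0.le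
    push_cast
    linarith
  have h8 : ∑ a ∈ range (n + 1), pc θ a ≤ C * ((n : ℝ) + 2) ^ θ :=
    h6.trans (mul_le_mul_of_nonneg_left h7 hC.le)
  refine (mul_le_mul_of_nonneg_right h8 hM0).trans ?_
  have h9 : C * ((n : ℝ) + 2) ^ θ * M = (K * C) * (LL n ^ c * ((n : ℝ) + 2) ^ (g + θ)) := by
    rw [hM, Real.rpow_add hn2]
    ring
  rw [h9]
  have h10 : (0:ℝ) ≤ LL n ^ c * ((n : ℝ) + 2) ^ (g + θ) := by positivity
  calc (K * C) * (LL n ^ c * ((n : ℝ) + 2) ^ (g + θ))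
      ≤ max 1 (K * C) * (LL n ^ c * ((n : ℝ) + 2) ^ (g + θ)) :=
        mul_le_mul_of_nonneg_right (le_max_right 1 (K * C)) h10
    _ = max 1 (K * C) * LL n ^ c * ((n : ℝ) + 2) ^ (g + θ) := by ring

theorem Bd_zero_pc0 (n : ℕ) : |pc 0 n| ≤ 1 := by
  cases n with
  | zero => simp [pc]
  | succ n =>
    have : pc 0 (n + 1) = 0 := by
      unfold pc
      exact Finset.prod_eq_zero (Finset.mem_range.2 (Nat.succ_pos n)) (by simp)
    rw [this]; simp

theorem Bd_zero_unit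
    (hpos : ∀ {s : ℝ}, 0 < s → ∀ n, 0 < pc s n)
    (hle : ∀ {s : ℝ}, 0 < s → s ≤ 1 → ∀ n, pc s n ≤ 1) {s : ℝ} (hs : 0 ≤ s) (hs1 : s ≤ 1) (n : ℕ) :
    0 ≤ pc s n ∧ pc s n ≤ 1 := by
  rcases hs.eq_or_lt with h | h
  · subst h
    cases n with
    | zero => simp [pc]
    | succ n =>
      have : pc 0 (n + 1) = 0 := by
        unfold pc
        exact Finset.prod_eq_zero (Finset.mem_range.2 (Nat.succ_pos n)) (by simp)
      rw [this]; simp
  · exact ⟨(hpos h n).le, hle h hs1 n⟩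

theorem Bd_zero_gen
    (hpos : ∀ {s : ℝ}, 0 < s → ∀ n, 0 < pc s n)
    (hle : ∀ {s : ℝ}, 0 < s → s ≤ 1 → ∀ n, pc s n ≤ 1)
    (hup : ∀ {s : ℝ}, 0 < s → ∃ C : ℝ, 0 < C ∧ ∀ n : ℕ, pc s n ≤ C * ((n : ℝ) + 1) ^ (s - 1))
    {s : ℝ} (hs : 0 ≤ s) :
    ∃ K : ℝ, 1 ≤ K ∧ ∀ n : ℕ, |pc s n| ≤ K * ((n : ℝ) + 2) ^ (max 0 (s - 1)) := by
  rcases le_or_gt s 1 with h | h
  · refine ⟨1, le_rfl, fun n => ?_⟩
    obtain ⟨h1, h2⟩ := Bd_zero_unit hpos hle hs h n
    rw [abs_of_nonneg h1, max_eq_left (by linarith), Real.rpow_zero]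
    linarith
  · obtain ⟨C, hC, hCn⟩ := hup (s := s) (by linarith)
    refine ⟨max 1 C, le_max_left _ _, fun n => ?_⟩
    rw [abs_of_pos (hpos (by linarith) n), max_eq_right (by linarith : (0:ℝ) ≤ s - 1)]
    refine (hCn n).trans ?_
    refine mul_le_mul (le_max_right _ _) ?_ (by positivity) (by positivity)
    exact Real.rpow_le_rpow (by positivity) (by linarith) (by linarith)

theorem Bd_zero_aux {θ : ℝ} (h0 : 0 < θ) (h1 : θ ≤ 1)
    (hser : ∀ l : ℕ, PP θ ^ l = PowerSeries.mk (pc (l * θ)))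
    (hpos : ∀ {s : ℝ}, 0 < s → ∀ n, 0 < pc s n)
    (hle : ∀ {s : ℝ}, 0 < s → s ≤ 1 → ∀ n, pc s n ≤ 1)
    (hup : ∀ {s : ℝ}, 0 < s → ∃ C : ℝ, 0 < C ∧ ∀ n : ℕ, pc s n ≤ C * ((n : ℝ) + 1) ^ (s - 1))
    (hsub : ∀ (s : ℝ) (n : ℕ), pc s (n + 1) - pc s n = pc (s - 1) (n + 1))
    (k : ℕ) (U : Set ℕ) (l : ℕ) :
    Bd k θ U (PP θ ^ l) 0 (max 0 ((l : ℝ) * θ - 1)) := by
  have hs : (0:ℝ) ≤ (l : ℝ) * θ := by positivity
  obtain ⟨K, hK, hKn⟩ := Bd_zero_gen hpos hle hup hs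
  refine ⟨K, hK, 0, fun e he S hS T n => ?_⟩
  rw [Finset.card_eq_zero] at hS
  subst hS
  rw [hser l]
  have : pr (xx θ U) T e ∅ = 1 := by simp [pr]
  rw [this, one_mul, PowerSeries.coeff_mk, pow_zero, mul_one]
  exact hKn n

theorem Bd_zero_aux' {θ : ℝ} (h0 : 0 < θ) (h1 : θ ≤ 1)
    (hser : ∀ l : ℕ, PP θ ^ l = PowerSeries.mk (pc (l * θ)))
    (hpos : ∀ {s : ℝ}, 0 < s → ∀ n, 0 < pc s n)
    (hle : ∀ {s : ℝ}, 0 < s → s ≤ 1 → ∀ n, pc s n ≤ 1)
    (hup : ∀ {s : ℝ}, 0 < s → ∃ C : ℝ, 0 < C ∧ ∀ n : ℕ, pc s n ≤ C * ((n : ℝ) + 1) ^ (s - 1))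
    (hsub : ∀ (s : ℝ) (n : ℕ), pc s (n + 1) - pc s n = pc (s - 1) (n + 1))
    (k : ℕ) (U : Set ℕ) (l : ℕ) :
    Bd k θ U ((1 - X) * PP θ ^ l) 0 (max 0 ((l : ℝ) * θ - 2)) := by
  have hs : (0:ℝ) ≤ (l : ℝ) * θ := by positivity
  have hg : (0:ℝ) ≤ max 0 ((l : ℝ) * θ - 2) := le_max_left _ _
  have hc0 : ∀ T (e : Fin k → ℕ) , pr (xx θ U) T e ∅ = 1 := by
    intro T e; simp [pr]
  have hcoef0 : coeff 0 ((1 - X) * PP θ ^ l) = 1 := by
    rw [hser l]
    simp [pc]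
  have hcoef : ∀ n : ℕ, coeff (n + 1) ((1 - X) * PP θ ^ l) =
      pc (l * θ) (n + 1) - pc (l * θ) n := by
    intro n
    rw [hser l, sub_mul, one_mul, map_sub, PowerSeries.coeff_succ_X_mul]
    simp only [PowerSeries.coeff_mk]
  have hp1 : ∀ n : ℕ, (1:ℝ) ≤ ((n : ℝ) + 2) ^ (max 0 ((l : ℝ) * θ - 2)) := fun n =>
    Real.one_le_rpow (by have : (0:ℝ) ≤ n := Nat.cast_nonneg n; linarith) hg
  rcases le_or_gt ((l : ℝ) * θ) 1 with h | h
  · refine ⟨1, le_rfl, 0, fun e he S hS T n => ?_⟩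
    rw [Finset.card_eq_zero] at hS
    subst hS
    rw [hc0, one_mul, pow_zero, mul_one, one_mul]
    refine le_trans ?_ (hp1 n)
    cases n with
    | zero => rw [hcoef0]; simp
    | succ n =>
      rw [hcoef n]
      obtain ⟨h1, h2⟩ := Bd_zero_unit hpos hle hs h n
      obtain ⟨h3, h4⟩ := Bd_zero_unit hpos hle hs h (n + 1)
      rw [abs_le]
      constructor <;> linarith
  · obtain ⟨K, hK, hKn⟩ := Bd_zero_gen hpos hle hup (s := (l : ℝ) * θ - 1) (by linarith)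
    refine ⟨K, hK, 0, fun e he S hS T n => ?_⟩
    rw [Finset.card_eq_zero] at hS
    subst hS
    rw [hc0, one_mul, pow_zero, mul_one]
    cases n with
    | zero =>
      rw [hcoef0, abs_one]
      have := hp1 0
      nlinarith
    | succ n =>
      rw [hcoef n, hsub]
      have := hKn (n + 1)
      have e : (l : ℝ) * θ - 1 - 1 = (l : ℝ) * θ - 2 := by ring
      rw [e] at this
      exact this

theorem pser {θ : ℝ} (l : ℕ) : PP θ ^ l = PowerSeries.mk (pc (l * θ)) := pc_conv_pow_ser θ l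

theorem major_1 {θ : ℝ} (h0 : 0 < θ) (h1 : θ ≤ 1) (E : ℕ) :
    ∃ C : ℝ, 1 ≤ C ∧ ∀ e : ℕ, 1 ≤ e → e ≤ E → ∀ T n : ℕ,
      coeff n (gs (pc θ) T e) ≤ C * pc θ n :=
  major_1_aux h0 h1 (pc_pos h0) (pc_upper h0) (pc_lower h0) E

theorem triv_Bw {θ : ℝ} (h0 : 0 < θ) (h1 : θ ≤ 1) (k : ℕ) (U : Set ℕ) (w : PowerSeries ℝ)
    (i : ℕ) (g : ℝ) (hg : 0 ≤ g) (h : Bd k θ U w i g) : Bw k θ U w i (g + θ) :=
  triv_Bw_aux h0 h1 (pc_pos h0) (sum_pc_le h0) k U w i g hg h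

theorem Bd_zero {θ : ℝ} (h0 : 0 < θ) (h1 : θ ≤ 1) (k : ℕ) (U : Set ℕ) (l : ℕ) :
    Bd k θ U (PP θ ^ l) 0 (max 0 ((l : ℝ) * θ - 1)) :=
  Bd_zero_aux h0 h1 pser (fun hs n => pc_pos hs n) (fun hs hs1 n => pc_le_one hs hs1 n)
    (fun hs => pc_upper hs) pc_succ_sub k U l

theorem Bd_zero' {θ : ℝ} (h0 : 0 < θ) (h1 : θ ≤ 1) (k : ℕ) (U : Set ℕ) (l : ℕ) :
    Bd k θ U ((1 - X) * PP θ ^ l) 0 (max 0 ((l : ℝ) * θ - 2)) :=
  Bd_zero_aux' h0 h1 pser (fun hs n => pc_pos hs n) (fun hs hs1 n => pc_le_one hs hs1 n)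
    (fun hs => pc_upper hs) pc_succ_sub k U l

theorem Bd.mono {k : ℕ} {θ : ℝ} {U : Set ℕ} {w : PowerSeries ℝ} {i : ℕ} {g g' : ℝ}
    (h : Bd k θ U w i g) (hg : g ≤ g') : Bd k θ U w i g' := by
  obtain ⟨K, hK, c, hc⟩ := h
  refine ⟨K, hK, c, fun e he S hS T n => (hc e he S hS T n).trans ?_⟩
  have h0 : (0:ℝ) ≤ n := Nat.cast_nonneg n
  have hLL : 0 ≤ LL n := by
    unfold LL
    have : 0 ≤ Real.log ((n : ℝ) + 2) := Real.log_nonneg (by linarith)
    linarith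
  have h1 : ((n : ℝ) + 2) ^ g ≤ ((n : ℝ) + 2) ^ g' :=
    Real.rpow_le_rpow_of_exponent_le (by linarith) hg
  gcongr

theorem Bw.mono {k : ℕ} {θ : ℝ} {U : Set ℕ} {w : PowerSeries ℝ} {i : ℕ} {g g' : ℝ}
    (h : Bw k θ U w i g) (hg : g ≤ g') : Bw k θ U w i g' := by
  obtain ⟨K, hK, c, hc⟩ := h
  refine ⟨K, hK, c, fun e he S hS s hs hs2 T n => (hc e he S hS s hs hs2 T n).trans ?_⟩
  have h0 : (0:ℝ) ≤ n := Nat.cast_nonneg n
  have hLL : 0 ≤ LL n := by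
    unfold LL
    have : 0 ≤ Real.log ((n : ℝ) + 2) := Real.log_nonneg (by linarith)
    linarith
  have h1 : ((n : ℝ) + 2) ^ g ≤ ((n : ℝ) + 2) ^ g' :=
    Real.rpow_le_rpow_of_exponent_le (by linarith) hg
  gcongr

theorem PP_pow_nonneg {θ : ℝ} (h0 : 0 < θ) (l n : ℕ) : 0 ≤ coeff n (PP θ ^ l) := by
  rw [pser, PowerSeries.coeff_mk]
  rcases Nat.eq_zero_or_pos l with rfl | hl
  · unfold pc
    apply Finset.prod_nonneg
    intro j _
    simp only [Nat.cast_zero, zero_mul, zero_add]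
    positivity
  · exact (pc_pos (by positivity) n).le

theorem major_Bw {θ : ℝ} (h0 : 0 < θ) (h1 : θ ≤ 1) (k : ℕ) (U : Set ℕ) (l i : ℕ) (g : ℝ)
    (h : ∀ i' ≤ i, Bd k θ U (PP θ ^ (l + 1 + (i - i'))) i' g) :
    Bw k θ U (PP θ ^ l) i g := by
  obtain ⟨C', hC', hdom⟩ := major_1 h0 h1 (k * k)
  have hbd' : ∀ i' : ℕ, ∃ K : ℝ, 1 ≤ K ∧ ∃ c : ℕ, (i' ≤ i → ∀ e : Fin k → ℕ,
      (∀ i, 1 ≤ e i ∧ e i ≤ k) → ∀ S : Finset (Fin k), S.card = i' → ∀ T n : ℕ,
      |coeff n (pr (xx θ U) T e S * PP θ ^ (l + 1 + (i - i')))|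
        ≤ K * LL n ^ c * ((n : ℝ) + 2) ^ g) := by
    intro i'
    by_cases hi : i' ≤ i
    · obtain ⟨K, hK, c, hc⟩ := h i' hi
      exact ⟨K, hK, c, fun _ => hc⟩
    · exact ⟨1, le_refl _, 0, fun h' => absurd h' hi⟩
  choose K hK c hc using hbd'
  have hKnn : ∀ R, 0 ≤ K R := fun R => by linarith [hK R]
  -- uniform constants
  set K1 : ℝ := 1 + ∑ i' ∈ range (i + 1), K i' with hK1
  set c1 : ℕ := ∑ i' ∈ range (i + 1), c i' with hc1
  have hK1' : 1 ≤ K1 := by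
    have : 0 ≤ ∑ i' ∈ range (i + 1), K i' := Finset.sum_nonneg fun i' _ => hKnn i'
    linarith
  refine ⟨C' * (2 ^ i * ((2 * C') ^ i * K1)), ?_, c1, fun e he S hS s hs hs2 T n => ?_⟩
  · have a1 : (1:ℝ) ≤ 2 ^ i := one_le_pow₀ (by norm_num)
    have a2 : (1:ℝ) ≤ (2 * C') ^ i := one_le_pow₀ (by linarith)
    exact one_le_mul_of_one_le_of_one_le hC'
      (one_le_mul_of_one_le_of_one_le a1 (one_le_mul_of_one_le_of_one_le a2 hK1'))
  have hn0 : (0:ℝ) ≤ n := Nat.cast_nonneg n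
  have hLL1 : 1 ≤ LL n := by
    unfold LL
    have : 0 ≤ Real.log ((n : ℝ) + 2) := Real.log_nonneg (by linarith)
    linarith
  have hLL0 : 0 ≤ LL n := by linarith
  have hm2 := major_2_aux h0 h1 (pc_pos h0) k C' hC' hdom (PP_pow_nonneg h0) U e he S l s n T hs hs2
  have hm3 := major_3 (xx θ U) (PP θ) (PP θ ^ (l + 1)) (2 * C') (by positivity) e S n T
  refine hm2.trans ?_
  have h2 : ∀ R ∈ S.powerset, (2 * C') ^ (S.card - R.card) *
        |coeff n (pr (xx θ U) T e R * (PP θ ^ (S.card - R.card) * PP θ ^ (l + 1)))|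
        ≤ (2 * C') ^ i * K1 * LL n ^ c1 * ((n : ℝ) + 2) ^ g := by
    intro R hR
    have hRS := Finset.card_le_card (Finset.mem_powerset.mp hR)
    rw [hS] at hRS ⊢
    have h3 := hc R.card hRS e he R rfl T n
    rw [← pow_add, show i - R.card + (l + 1) = l + 1 + (i - R.card) by ring]
    have h4 : (2 * C') ^ (i - R.card) ≤ (2 * C') ^ i :=
      pow_le_pow_right₀ (by linarith) (Nat.sub_le _ _)
    have h5 : K R.card ≤ K1 := by
      have := Finset.single_le_sum (f := K) (fun i' _ => hKnn i')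
        (Finset.mem_range.mpr (Nat.lt_succ_of_le hRS))
      linarith
    have h6 : c R.card ≤ c1 := Finset.single_le_sum (f := c) (fun i' _ => Nat.zero_le _)
        (Finset.mem_range.mpr (Nat.lt_succ_of_le hRS))
    have h7 : LL n ^ c R.card ≤ LL n ^ c1 := pow_le_pow_right₀ hLL1 h6
    have h8 := hKnn R.card
    calc _ ≤ (2 * C') ^ i * (K1 * LL n ^ c1 * ((n : ℝ) + 2) ^ g) := by
          apply mul_le_mul h4 (h3.trans _) (abs_nonneg _) (by positivity)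
          gcongr
      _ = _ := by ring
  have h9 : coeff n ((∏ i ∈ S, (gs (xx θ U) T (e i) + C (2 * C') * PP θ)) * PP θ ^ (l + 1))
      ≤ 2 ^ i * ((2 * C') ^ i * K1 * LL n ^ c1 * ((n : ℝ) + 2) ^ g) := by
    refine (le_abs_self _).trans (hm3.trans ((Finset.sum_le_sum h2).trans ?_))
    rw [Finset.sum_const, Finset.card_powerset, hS, nsmul_eq_mul]
    push_cast
    exact le_refl _
  calc _ ≤ C' * (2 ^ i * ((2 * C') ^ i * K1 * LL n ^ c1 * ((n : ℝ) + 2) ^ g)) := by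
        apply mul_le_mul_of_nonneg_left h9 (by linarith)
    _ = _ := by ring

end Pool.Agent.Helper149.Thin3
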