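import Pool.Agent.Helper149.Thin3.Defs
import Pool.Agent.Helper149.Thin.Main

/-!
Tuples fixed by a permutation.
(helper lemmas for MP_c06095_nt; several proofs contributed by the team's lemma jobs)
-/

noncomputable section

namespace Pool.Agent.Helper149.Thin3

open Finset PowerSeries Pool.Agent.Helper149.Thin

theorem cycles_gs (A : Set ℕ) (m e : ℕ) :
    gs (A.indicator (fun _ => (1 : ℝ))) (2 ^ m) e = ∑ x ∈ SA A m, (X : PowerSeries ℝ) ^ (e * x) := by
  classical
  unfold gs SA
  rw [Finset.sum_filter]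
  refine Finset.sum_congr rfl fun a _ => ?_
  by_cases ha : a ∈ A
  · rw [if_pos ha, Set.indicator_of_mem ha, PowerSeries.X_pow_eq]
  · rw [if_neg ha, Set.indicator_of_notMem ha, map_zero]

open Classical in
theorem cycles_coeff {k : ℕ} (A : Set ℕ) (σ : Equiv.Perm (Fin k)) (m n : ℕ) :
    (D A σ m n : ℝ) = coeff n (∑ f ∈ (Fintype.piFinset fun _ : Fin k => SA A m) with
      (∀ i, f (σ i) = f i), (X : PowerSeries ℝ) ^ (∑ i, f i)) := by
  rw [map_sum]
  simp only [PowerSeries.coeff_X_pow]
  rw [Finset.sum_boole]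
  unfold D
  congr 2
  ext f
  simp only [Finset.mem_filter]
  constructor
  · rintro ⟨h1, h2, h3⟩
    exact ⟨⟨h1, h3⟩, h2.symm⟩
  · rintro ⟨⟨h1, h3⟩, h2⟩
    exact ⟨h1, h2.symm, h3⟩

theorem cycles (k : ℕ) (σ : Equiv.Perm (Fin k)) :
    ∃ (e : Fin k → ℕ) (S : Finset (Fin k)), (∀ i, 1 ≤ e i ∧ e i ≤ k) ∧ ∑ i ∈ S, e i = k ∧
      (σ ≠ 1 → ∃ i ∈ S, 2 ≤ e i) ∧
      ∀ (A : Set ℕ) (m n : ℕ), (D A σ m n : ℝ)
        = coeff n (pr (A.indicator (fun _ => (1 : ℝ))) (2 ^ m) e S) := by
  classical
  let r : Fin k → Fin k → Prop := fun i j => σ i = j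
  let Q := Quot r
  haveI : Fintype Q := Fintype.ofFinite Q
  let n : Q → ℕ := fun q => (univ.filter (fun i => Quot.mk r i = q)).card
  have hmk : ∀ i, Quot.mk r i = Quot.mk r (σ i) := fun i => Quot.sound rfl
  have hn1 : ∀ q, 1 ≤ n q := by
    intro q
    obtain ⟨i, rfl⟩ := Quot.exists_rep q
    apply Finset.card_pos.mpr
    exact ⟨i, by simp⟩
  have hnk : ∀ q, n q ≤ k := by
    intro q
    have h := Finset.card_le_univ (univ.filter (fun i => Quot.mk r i = q))
    rw [Fintype.card_fin] at h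
    exact h
  have houtinj : ∀ q q' : Q, Quot.out q = Quot.out q' → q = q' := by
    intro q q' h
    rw [← Quot.out_eq q, ← Quot.out_eq q', h]
  have hsumn : ∑ q : Q, n q = k := by
    have := Finset.card_eq_sum_card_fiberwise (f := Quot.mk r) (s := (univ : Finset (Fin k)))
      (t := (univ : Finset Q)) (fun i _ => by simp)
    rw [Finset.card_univ, Fintype.card_fin] at this
    exact this.symm
  refine ⟨fun i => n (Quot.mk r i), (univ : Finset Q).image Quot.out,
    fun i => ⟨hn1 _, hnk _⟩, ?_, ?_, ?_⟩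
  · rw [Finset.sum_image (fun q _ q' _ h => houtinj q q' h)]
    refine Eq.trans (Finset.sum_congr rfl fun q _ => ?_) hsumn
    rw [Quot.out_eq]
  · intro hσ
    obtain ⟨i, hi⟩ : ∃ i, σ i ≠ i := by
      by_contra h
      push Not at h
      exact hσ (Equiv.ext h)
    refine ⟨Quot.out (Quot.mk r i), Finset.mem_image_of_mem _ (Finset.mem_univ _), ?_⟩
    change 2 ≤ n (Quot.mk r (Quot.out (Quot.mk r i)))
    rw [Quot.out_eq]
    have h2 : 1 < n (Quot.mk r i) := by
      apply Finset.one_lt_card.mpr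
      exact ⟨i, by simp, σ i, by
        rw [Finset.mem_filter]; exact ⟨Finset.mem_univ _, (hmk i).symm⟩, fun h => hi h.symm⟩
    omega
  · intro A m N
    rw [cycles_coeff]
    congr 1
    unfold pr
    rw [Finset.prod_image (fun q _ q' _ h => houtinj q q' h)]
    have e1 : ∀ q : Q, gs (A.indicator (fun _ => (1 : ℝ))) (2 ^ m)
        (n (Quot.mk r (Quot.out q))) = ∑ x ∈ SA A m, (X : PowerSeries ℝ) ^ (n q * x) := by
      intro q
      rw [Quot.out_eq, cycles_gs]
    rw [Finset.prod_congr rfl fun q _ => e1 q, Finset.prod_univ_sum]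
    symm
    apply Finset.sum_bij' (i := fun (g : Q → ℕ) _ => fun i => g (Quot.mk r i))
      (j := fun (f : Fin k → ℕ) _ => fun q => f (Quot.out q))
    · intro g hg
      rw [Finset.mem_filter, Fintype.mem_piFinset]
      rw [Fintype.mem_piFinset] at hg
      exact ⟨fun i => hg _, fun i => congrArg g (hmk i).symm⟩
    · intro f hf
      rw [Finset.mem_filter, Fintype.mem_piFinset] at hf
      rw [Fintype.mem_piFinset]
      exact fun q => hf.1 _
    · intro g hg
      funext q
      show g (Quot.mk r (Quot.out q)) = g q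
      rw [Quot.out_eq]
    · intro f hf
      rw [Finset.mem_filter] at hf
      funext i
      let F : Q → ℕ := Quot.lift f (by
        intro a b hab
        have : σ a = b := hab
        rw [← this, hf.2 a])
      have hF : ∀ j, F (Quot.mk r j) = f j := fun j => rfl
      show f (Quot.out (Quot.mk r i)) = f i
      rw [← hF (Quot.out (Quot.mk r i)), Quot.out_eq, hF]
    · intro g hg
      rw [Finset.prod_pow_eq_pow_sum]
      congr 1
      rw [← Finset.sum_fiberwise_of_maps_to (s := (univ : Finset (Fin k)))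
        (t := (univ : Finset Q)) (g := Quot.mk r) (fun i _ => Finset.mem_univ _)]
      apply Finset.sum_congr rfl
      intro q _
      have h3 : ∑ i ∈ univ.filter (fun i => Quot.mk r i = q), g (Quot.mk r i) =
          ∑ i ∈ univ.filter (fun i => Quot.mk r i = q), g q := by
        apply Finset.sum_congr rfl
        intro i hi
        rw [(Finset.mem_filter.mp hi).2]
      rw [h3, Finset.sum_const, smul_eq_mul]

theorem cycles_one (k : ℕ) (A : Set ℕ) (m n : ℕ) :
    (D A (1 : Equiv.Perm (Fin k)) m n : ℝ)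
        = coeff n (gs (A.indicator (fun _ => (1 : ℝ))) (2 ^ m) 1 ^ k) := by
  classical
  rw [cycles_coeff]
  congr 1
  have e1 : gs (A.indicator (fun _ => (1 : ℝ))) (2 ^ m) 1 ^ k =
      ∏ _i : Fin k, ∑ x ∈ SA A m, (X : PowerSeries ℝ) ^ (1 * x) := by
    rw [cycles_gs, Finset.prod_const, Finset.card_univ, Fintype.card_fin]
  rw [e1, Finset.prod_univ_sum]
  rw [Finset.filter_true_of_mem (fun f _ i => rfl)]
  refine Finset.sum_congr rfl fun f _ => ?_
  rw [Finset.prod_pow_eq_pow_sum]
  simp only [one_mul]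

end Pool.Agent.Helper149.Thin3
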