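import Pool.Agent.Helper149.Thin3.G1
import Pool.Agent.Helper149.Thin3.G2
import Pool.Agent.Helper149.Thin3.G3
import Pool.Agent.Helper149.Thin3.G4

noncomputable section

namespace Pool.Agent.Helper149.Thin3

open Finset PowerSeries Pool.Agent.Helper149.Thin

theorem LL_one (n : ℕ) : 1 ≤ LL n := by
  unfold LL
  have : 0 ≤ Real.log ((n : ℝ) + 2) := Real.log_nonneg (by
    have : (0:ℝ) ≤ n := Nat.cast_nonneg n
    linarith)
  linarith

theorem LL_mono {m n : ℕ} (h : m ≤ n) : LL m ≤ LL n := by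
  unfold LL
  have h' : (m:ℝ) ≤ n := by exact_mod_cast h
  have : Real.log ((m : ℝ) + 2) ≤ Real.log ((n : ℝ) + 2) :=
    Real.log_le_log (by positivity) (by linarith)
  linarith

theorem n2_one (n : ℕ) : (1:ℝ) ≤ (n:ℝ) + 2 := by
  have : (0:ℝ) ≤ n := Nat.cast_nonneg n
  linarith

/-- uniform constants for finitely many bounds -/
theorem unif_Bd {k : ℕ} {θ : ℝ} {U : Set ℕ} {w : PowerSeries ℝ} {i : ℕ} {g : ℝ}
    (H : ∀ i' < i, Bd k θ U w i' g) :
    ∃ K : ℝ, 1 ≤ K ∧ ∃ c : ℕ, ∀ e : Fin k → ℕ, (∀ i, 1 ≤ e i ∧ e i ≤ k) →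
    ∀ S : Finset (Fin k), S.card < i → ∀ T n : ℕ,
      |coeff n (pr (xx θ U) T e S * w)| ≤ K * LL n ^ c * ((n : ℝ) + 2) ^ g := by
  have H' : ∀ i' : ℕ, ∃ K : ℝ, 1 ≤ K ∧ ∃ c : ℕ, (i' < i → ∀ e : Fin k → ℕ,
      (∀ i, 1 ≤ e i ∧ e i ≤ k) → ∀ S : Finset (Fin k), S.card = i' → ∀ T n : ℕ,
      |coeff n (pr (xx θ U) T e S * w)| ≤ K * LL n ^ c * ((n : ℝ) + 2) ^ g) := by
    intro i'
    by_cases h : i' < i
    · obtain ⟨K, hK, c, hc⟩ := H i' h
      exact ⟨K, hK, c, fun _ => hc⟩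
    · exact ⟨1, le_refl _, 0, fun h' => absurd h' h⟩
  choose K hK c hc using H'
  refine ⟨1 + ∑ i' ∈ range i, K i', ?_, ∑ i' ∈ range i, c i', ?_⟩
  · have : 0 ≤ ∑ i' ∈ range i, K i' := Finset.sum_nonneg fun i' _ => by linarith [hK i']
    linarith
  intro e he S hS T n
  have h1 := hc S.card hS e he S rfl T n
  have h2 : K S.card ≤ 1 + ∑ i' ∈ range i, K i' := by
    have := Finset.single_le_sum (f := K) (fun i' _ => by linarith [hK i'])
      (Finset.mem_range.mpr hS)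
    linarith
  have h3 : c S.card ≤ ∑ i' ∈ range i, c i' :=
    Finset.single_le_sum (f := c) (fun i' _ => Nat.zero_le _) (Finset.mem_range.mpr hS)
  have h4 : LL n ^ c S.card ≤ LL n ^ (∑ i' ∈ range i, c i') := pow_le_pow_right₀ (LL_one n) h3
  have h5 : 0 ≤ LL n := by linarith [LL_one n]
  have h6 : 0 ≤ ((n : ℝ) + 2) ^ g := Real.rpow_nonneg (by positivity) _
  have h7 : 0 ≤ K S.card := by linarith [hK S.card]
  have h8 : 0 ≤ 1 + ∑ i' ∈ range i, K i' := h7.trans h2
  refine h1.trans ?_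
  gcongr

theorem unif_Bw {k : ℕ} {θ : ℝ} {U : Set ℕ} {w : PowerSeries ℝ} {i : ℕ} {g : ℝ}
    (P : ℕ → Prop) (hP : ∀ i', P i' → i' < i)
    (H : ∀ i', P i' → Bw k θ U w i' g) :
    ∃ K : ℝ, 1 ≤ K ∧ ∃ c : ℕ, ∀ e : Fin k → ℕ, (∀ i, 1 ≤ e i ∧ e i ≤ k) →
    ∀ S : Finset (Fin k), P S.card → ∀ s : ℕ, 1 ≤ s → s ≤ k * k → ∀ T n : ℕ,
      ∑ a ∈ range T, pc θ a * |coeff n (pr (xx θ U) a e S * w * X ^ (s * a))|
        ≤ K * LL n ^ c * ((n : ℝ) + 2) ^ g := by
  have H' : ∀ i' : ℕ, ∃ K : ℝ, 1 ≤ K ∧ ∃ c : ℕ, (P i' → ∀ e : Fin k → ℕ,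
      (∀ i, 1 ≤ e i ∧ e i ≤ k) → ∀ S : Finset (Fin k), S.card = i' → ∀ s : ℕ, 1 ≤ s →
      s ≤ k * k → ∀ T n : ℕ,
      ∑ a ∈ range T, pc θ a * |coeff n (pr (xx θ U) a e S * w * X ^ (s * a))|
        ≤ K * LL n ^ c * ((n : ℝ) + 2) ^ g) := by
    intro i'
    by_cases h : P i'
    · obtain ⟨K, hK, c, hc⟩ := H i' h
      exact ⟨K, hK, c, fun _ => hc⟩
    · exact ⟨1, le_refl _, 0, fun h' => absurd h' h⟩
  choose K hK c hc using H'
  refine ⟨1 + ∑ i' ∈ range i, K i', ?_, ∑ i' ∈ range i, c i', ?_⟩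
  · have : 0 ≤ ∑ i' ∈ range i, K i' := Finset.sum_nonneg fun i' _ => by linarith [hK i']
    linarith
  intro e he S hS s hs hs2 T n
  have h1 := hc S.card hS e he S rfl s hs hs2 T n
  have hS' := hP _ hS
  have h2 : K S.card ≤ 1 + ∑ i' ∈ range i, K i' := by
    have := Finset.single_le_sum (f := K) (fun i' _ => by linarith [hK i'])
      (Finset.mem_range.mpr hS')
    linarith
  have h3 : c S.card ≤ ∑ i' ∈ range i, c i' :=
    Finset.single_le_sum (f := c) (fun i' _ => Nat.zero_le _) (Finset.mem_range.mpr hS')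
  have h4 : LL n ^ c S.card ≤ LL n ^ (∑ i' ∈ range i, c i') := pow_le_pow_right₀ (LL_one n) h3
  have h5 : 0 ≤ LL n := by linarith [LL_one n]
  have h6 : 0 ≤ ((n : ℝ) + 2) ^ g := Real.rpow_nonneg (by positivity) _
  have h7 : 0 ≤ K S.card := by linarith [hK S.card]
  have h8 : 0 ≤ 1 + ∑ i' ∈ range i, K i' := h7.trans h2
  refine h1.trans ?_
  gcongr

theorem coeff_shift_le {F : PowerSeries ℝ} {K g : ℝ} {c : ℕ} (hK : 0 ≤ K) (hg : 0 ≤ g)
    (h : ∀ n, |coeff n F| ≤ K * LL n ^ c * ((n : ℝ) + 2) ^ g) (n m : ℕ) :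
    |coeff n (F * X ^ m)| ≤ K * LL n ^ c * ((n : ℝ) + 2) ^ g := by
  rw [PowerSeries.coeff_mul_X_pow']
  have h5 : 0 ≤ LL n := by linarith [LL_one n]
  have h6 : 0 ≤ ((n : ℝ) + 2) ^ g := Real.rpow_nonneg (by positivity) _
  split_ifs with hm
  · refine (h (n - m)).trans ?_
    have h1 : LL (n - m) ≤ LL n := LL_mono (Nat.sub_le n m)
    have h2 : (((n - m : ℕ) : ℝ) + 2) ^ g ≤ ((n : ℝ) + 2) ^ g := by
      apply Real.rpow_le_rpow (by positivity) _ hg
      have : ((n - m : ℕ) : ℝ) ≤ n := by exact_mod_cast Nat.sub_le n m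
      linarith
    have h3 : 0 ≤ LL (n - m) := by linarith [LL_one (n - m)]
    gcongr
  · rw [abs_zero]; positivity

theorem step_lemma' {θ : ℝ} (h0 : 0 < θ) (h1 : θ ≤ 1) {k : ℕ} {U : Set ℕ} (hR : Rand θ k U)
    (j : Option (Bool × Fin (k + 1))) (i : ℕ) (hi : 1 ≤ i) (g g1 g2 g3 : ℝ) (hg0 : 0 ≤ g)
    (hg10 : 0 ≤ g1)
    (hg1 : g1 ≤ g) (hg12 : g1 + g2 ≤ 2 * g) (hg3 : g3 ≤ g)
    (Hs : ∀ i' < i, Bd k θ U (WW θ j) i' g1)
    (Hw : ∀ i' < i, Bw k θ U (WW θ j) i' g2)
    (Hd : ∀ i', i' + 2 ≤ i → Bw k θ U (WW θ j) i' g3) :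
    Bd k θ U (WW θ j) i g := by
  obtain ⟨K0, hK0, hR⟩ := hR
  obtain ⟨K1, hK1, c1, H1⟩ := unif_Bd Hs
  obtain ⟨K2, hK2, c2, H2⟩ := unif_Bw (fun i' => i' < i) (fun i' h => h) Hw
  obtain ⟨K3, hK3, c3, H3⟩ := unif_Bw (i := i) (fun i' => i' + 2 ≤ i) (fun i' h => by omega) Hd
  set w := WW θ j with hw
  set K : ℝ := 2 ^ k * K1 * K2 with hKdef
  have h2k : (1:ℝ) ≤ 2 ^ k := one_le_pow₀ (by norm_num)
  have hK : 1 ≤ K := by
    rw [hKdef]
    have : (1:ℝ) ≤ 2 ^ k * K1 := by nlinarith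
    nlinarith
  obtain ⟨K', hK', hM⟩ := real_M K0 K g (c1 + c2) hK0 hK hg0
  refine ⟨K' + 2 ^ k * K3, by nlinarith, c1 + c2 + 1 + c3, fun e he S hS T n => ?_⟩
  have hSne : S.Nonempty := by
    rw [← Finset.card_pos]; omega
  have hLL := LL_one n
  have hLL0 : 0 ≤ LL n := by linarith
  have hn2 := n2_one n
  have hn20 : (0:ℝ) < (n:ℝ) + 2 := by linarith
  have hpc : ∀ a, 0 ≤ pc θ a := fun a => (pc_pos h0 a).le
  have hpc1 : ∀ a, pc θ a ≤ 1 := fun a => pc_le_one h0 h1 a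
  have hcardpow : ((S.powerset.card : ℕ) : ℝ) ≤ 2 ^ k := by
    rw [Finset.card_powerset]
    push_cast
    have : S.card ≤ k := by
      have := Finset.card_le_univ S
      rwa [Fintype.card_fin] at this
    exact pow_le_pow_right₀ (by norm_num) this
  have hsum_e : ∀ R ⊆ S, R.Nonempty → 1 ≤ ∑ i ∈ R, e i ∧ ∑ i ∈ R, e i ≤ k * k := by
    intro R _ hRne
    constructor
    · obtain ⟨i0, hi0⟩ := hRne
      exact (he i0).1.trans (Finset.single_le_sum (f := e) (fun _ _ => Nat.zero_le _) hi0)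
    · calc ∑ i ∈ R, e i ≤ ∑ i ∈ R, k := Finset.sum_le_sum fun i _ => (he i).2
        _ = R.card * k := by simp
        _ ≤ k * k := by
          apply Nat.mul_le_mul_right
          have := Finset.card_le_univ R
          rwa [Fintype.card_fin] at this
  -- the two basic facts for proper subsets
  have hsub : ∀ R ∈ S.powerset.erase ∅, (S \ R).card < i := by
    intro R hR'
    rw [Finset.mem_erase, Finset.mem_powerset] at hR'
    have hRne : R.Nonempty := Finset.nonempty_iff_ne_empty.mpr hR'.1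
    have h1 : 0 < R.card := Finset.card_pos.mpr hRne
    rw [Finset.card_sdiff_of_subset hR'.2, hS]
    have := Finset.card_le_card hR'.2
    omega
  -- bound of cc
  have hcc : ∀ a, |cc θ w e S n a U| ≤ 2 ^ k * (K1 * LL n ^ c1 * ((n : ℝ) + 2) ^ g1) := by
    intro a
    unfold cc
    have hb : 0 ≤ K1 * LL n ^ c1 * ((n : ℝ) + 2) ^ g1 := by positivity
    calc |∑ R ∈ S.powerset.erase ∅, be R.card (pc θ a) *
        coeff n (pr (xx θ U) a e (S \ R) * w * X ^ ((∑ i ∈ R, e i) * a))|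
        ≤ ∑ R ∈ S.powerset.erase ∅, |be R.card (pc θ a) *
        coeff n (pr (xx θ U) a e (S \ R) * w * X ^ ((∑ i ∈ R, e i) * a))| :=
          Finset.abs_sum_le_sum_abs _ _
      _ ≤ ∑ R ∈ S.powerset.erase ∅, (K1 * LL n ^ c1 * ((n : ℝ) + 2) ^ g1) := by
          refine Finset.sum_le_sum fun R hR' => ?_
          rw [abs_mul]
          have hb1 : |be R.card (pc θ a)| ≤ 1 := by
            apply be_le (hpc a) (hpc1 a)
            rw [Finset.mem_erase] at hR'
            exact Finset.card_pos.mpr (Finset.nonempty_iff_ne_empty.mpr hR'.1)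
          have hb2 := coeff_shift_le (F := pr (xx θ U) a e (S \ R) * w) (by linarith) hg10
            (fun n' => H1 e he (S \ R) (hsub R hR') a n') n ((∑ i ∈ R, e i) * a)
          calc _ ≤ 1 * (K1 * LL n ^ c1 * ((n : ℝ) + 2) ^ g1) := by
                apply mul_le_mul hb1 hb2 (abs_nonneg _) zero_le_one
            _ = _ := one_mul _
      _ = ((S.powerset.erase ∅).card : ℝ) * (K1 * LL n ^ c1 * ((n : ℝ) + 2) ^ g1) := by simp
      _ ≤ _ := by
          gcongr
          refine le_trans ?_ hcardpow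
          exact_mod_cast Finset.card_le_card (Finset.erase_subset _ _)
  have hccw : ∑ a ∈ range T, pc θ a * |cc θ w e S n a U|
      ≤ 2 ^ k * (K2 * LL n ^ c2 * ((n : ℝ) + 2) ^ g2) := by
    have hb : 0 ≤ K2 * LL n ^ c2 * ((n : ℝ) + 2) ^ g2 := by positivity
    calc ∑ a ∈ range T, pc θ a * |cc θ w e S n a U|
        ≤ ∑ a ∈ range T, ∑ R ∈ S.powerset.erase ∅, pc θ a *
          |coeff n (pr (xx θ U) a e (S \ R) * w * X ^ ((∑ i ∈ R, e i) * a))| := by
          refine Finset.sum_le_sum fun a _ => ?_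
          rw [← Finset.mul_sum]
          refine mul_le_mul_of_nonneg_left ?_ (hpc a)
          unfold cc
          refine (Finset.abs_sum_le_sum_abs _ _).trans (Finset.sum_le_sum fun R hR' => ?_)
          rw [abs_mul]
          have hb1 : |be R.card (pc θ a)| ≤ 1 := by
            apply be_le (hpc a) (hpc1 a)
            rw [Finset.mem_erase] at hR'
            exact Finset.card_pos.mpr (Finset.nonempty_iff_ne_empty.mpr hR'.1)
          exact mul_le_of_le_one_left (abs_nonneg _) hb1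
      _ = ∑ R ∈ S.powerset.erase ∅, ∑ a ∈ range T, pc θ a *
          |coeff n (pr (xx θ U) a e (S \ R) * w * X ^ ((∑ i ∈ R, e i) * a))| :=
          Finset.sum_comm
      _ ≤ ∑ R ∈ S.powerset.erase ∅, (K2 * LL n ^ c2 * ((n : ℝ) + 2) ^ g2) := by
          refine Finset.sum_le_sum fun R hR' => ?_
          have hR2 := hR'
          rw [Finset.mem_erase, Finset.mem_powerset] at hR2
          have := hsum_e R hR2.2 (Finset.nonempty_iff_ne_empty.mpr hR2.1)
          exact H2 e he (S \ R) (hsub R hR') _ this.1 this.2 T n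
      _ = ((S.powerset.erase ∅).card : ℝ) * (K2 * LL n ^ c2 * ((n : ℝ) + 2) ^ g2) := by simp
      _ ≤ _ := by
          gcongr
          refine le_trans ?_ hcardpow
          exact_mod_cast Finset.card_le_card (Finset.erase_subset _ _)
  have hdd : |∑ a ∈ range T, dd θ w e S n a U|
      ≤ 2 ^ k * (K3 * LL n ^ c3 * ((n : ℝ) + 2) ^ g3) := by
    have hb : 0 ≤ K3 * LL n ^ c3 * ((n : ℝ) + 2) ^ g3 := by positivity
    calc |∑ a ∈ range T, dd θ w e S n a U|
        ≤ ∑ a ∈ range T, |dd θ w e S n a U| := Finset.abs_sum_le_sum_abs _ _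
      _ ≤ ∑ a ∈ range T, ∑ R ∈ S.powerset with 2 ≤ R.card, pc θ a *
          |coeff n (pr (xx θ U) a e (S \ R) * w * X ^ ((∑ i ∈ R, e i) * a))| := by
          refine Finset.sum_le_sum fun a _ => ?_
          unfold dd
          refine (Finset.abs_sum_le_sum_abs _ _).trans (Finset.sum_le_sum fun R hR' => ?_)
          rw [abs_mul]
          rw [Finset.mem_filter] at hR'
          exact mul_le_mul_of_nonneg_right (al_le (hpc a) (hpc1 a) hR'.2) (abs_nonneg _)
      _ = ∑ R ∈ S.powerset with 2 ≤ R.card, ∑ a ∈ range T, pc θ a *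
          |coeff n (pr (xx θ U) a e (S \ R) * w * X ^ ((∑ i ∈ R, e i) * a))| :=
          Finset.sum_comm
      _ ≤ ∑ R ∈ S.powerset with 2 ≤ R.card, (K3 * LL n ^ c3 * ((n : ℝ) + 2) ^ g3) := by
          refine Finset.sum_le_sum fun R hR' => ?_
          rw [Finset.mem_filter, Finset.mem_powerset] at hR'
          have hRne : R.Nonempty := by rw [← Finset.card_pos]; omega
          have := hsum_e R hR'.1 hRne
          refine H3 e he (S \ R) ?_ _ this.1 this.2 T n
          show (S \ R).card + 2 ≤ i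
          rw [Finset.card_sdiff_of_subset hR'.1, hS]
          have h4 := Finset.card_le_card hR'.1
          omega
      _ = ((S.powerset.filter (fun R => 2 ≤ R.card)).card : ℝ) *
            (K3 * LL n ^ c3 * ((n : ℝ) + 2) ^ g3) := by simp
      _ ≤ _ := by
          gcongr
          refine le_trans ?_ hcardpow
          exact_mod_cast Finset.card_le_card (Finset.filter_subset _ _)
  -- variance
  set V : ℝ := ∑ a ∈ range T, pc θ a * (cc θ w e S n a U) ^ 2 with hV
  have hV0 : 0 ≤ V := Finset.sum_nonneg fun a _ => mul_nonneg (hpc a) (sq_nonneg _)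
  have hlc1 : LL n ^ c1 ≤ LL n ^ (c1 + c2) := pow_le_pow_right₀ hLL (by omega)
  have hlc2 : LL n ^ c2 ≤ LL n ^ (c1 + c2) := pow_le_pow_right₀ hLL (by omega)
  have hVle : V ≤ (K * LL n ^ (c1 + c2) * ((n : ℝ) + 2) ^ g) ^ 2 := by
    have e1 : V ≤ (2 ^ k * (K1 * LL n ^ c1 * ((n : ℝ) + 2) ^ g1)) *
        ∑ a ∈ range T, pc θ a * |cc θ w e S n a U| := by
      rw [hV, Finset.mul_sum]
      refine Finset.sum_le_sum fun a _ => ?_
      rw [← sq_abs, sq]
      calc pc θ a * (|cc θ w e S n a U| * |cc θ w e S n a U|)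
          ≤ pc θ a * ((2 ^ k * (K1 * LL n ^ c1 * ((n : ℝ) + 2) ^ g1)) * |cc θ w e S n a U|) := by
            refine mul_le_mul_of_nonneg_left ?_ (hpc a)
            exact mul_le_mul_of_nonneg_right (hcc a) (abs_nonneg _)
        _ = _ := by ring
    have hb : 0 ≤ 2 ^ k * (K1 * LL n ^ c1 * ((n : ℝ) + 2) ^ g1) := by positivity
    have e2 : V ≤ (2 ^ k * (K1 * LL n ^ c1 * ((n : ℝ) + 2) ^ g1)) *
        (2 ^ k * (K2 * LL n ^ c2 * ((n : ℝ) + 2) ^ g2)) :=
      e1.trans (mul_le_mul_of_nonneg_left hccw hb)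
    refine e2.trans ?_
    have e3 : ((n : ℝ) + 2) ^ g1 * ((n : ℝ) + 2) ^ g2 ≤ (((n : ℝ) + 2) ^ g) ^ 2 := by
      rw [← Real.rpow_add hn20, ← Real.rpow_natCast, ← Real.rpow_mul hn20.le]
      apply Real.rpow_le_rpow_of_exponent_le hn2
      push_cast; linarith
    have e4 : (2 ^ k * (K1 * LL n ^ c1 * ((n : ℝ) + 2) ^ g1)) *
        (2 ^ k * (K2 * LL n ^ c2 * ((n : ℝ) + 2) ^ g2))
        = (2 ^ k * 2 ^ k * (K1 * K2)) * (LL n ^ c1 * LL n ^ c2) *
          (((n : ℝ) + 2) ^ g1 * ((n : ℝ) + 2) ^ g2) := by ring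
    have e5 : (K * LL n ^ (c1 + c2) * ((n : ℝ) + 2) ^ g) ^ 2
        = (2 ^ k * 2 ^ k * ((K1 * K2) * (K1 * K2))) * (LL n ^ (c1 + c2) * LL n ^ (c1 + c2)) *
          (((n : ℝ) + 2) ^ g) ^ 2 := by rw [hKdef]; ring
    rw [e4, e5]
    have e6 : K1 * K2 ≤ (K1 * K2) * (K1 * K2) := by
      have : 1 ≤ K1 * K2 := by nlinarith
      nlinarith
    have hK12 : 0 ≤ K1 * K2 := by positivity
    gcongr
  have hccB : ∀ a < T, |cc θ w e S n a U| ≤ K * LL n ^ (c1 + c2) * ((n : ℝ) + 2) ^ g := by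
    intro a _
    refine (hcc a).trans ?_
    have e3 : ((n : ℝ) + 2) ^ g1 ≤ ((n : ℝ) + 2) ^ g :=
      Real.rpow_le_rpow_of_exponent_le hn2 hg1
    have e4 : 2 ^ k * (K1 * LL n ^ c1 * ((n : ℝ) + 2) ^ g1)
        = (2 ^ k * K1) * LL n ^ c1 * ((n : ℝ) + 2) ^ g1 := by ring
    rw [e4]
    have e5 : 2 ^ k * K1 ≤ K := by
      rw [hKdef]
      have : (0:ℝ) ≤ 2 ^ k * K1 := by positivity
      nlinarith
    gcongr
  have hmart := hM n (|∑ a ∈ range T, xx θ U a * cc θ w e S n a U|) V hV0 hVle (by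
    intro r hr
    exact hR j e he S n r T (fun a ha => (hccB a ha).trans hr))
  rw [decomp θ w e S hSne n T U]
  have f1 : ((n : ℝ) + 2) ^ g3 ≤ ((n : ℝ) + 2) ^ g := Real.rpow_le_rpow_of_exponent_le hn2 hg3
  have f2 : LL n ^ c3 ≤ LL n ^ (c1 + c2 + 1 + c3) := pow_le_pow_right₀ hLL (by omega)
  have f3 : LL n ^ (c1 + c2 + 1) ≤ LL n ^ (c1 + c2 + 1 + c3) := pow_le_pow_right₀ hLL (by omega)
  calc _ ≤ |∑ a ∈ range T, xx θ U a * cc θ w e S n a U| + |∑ a ∈ range T, dd θ w e S n a U| :=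
        abs_add_le _ _
    _ ≤ K' * LL n ^ (c1 + c2 + 1) * ((n : ℝ) + 2) ^ g
        + 2 ^ k * (K3 * LL n ^ c3 * ((n : ℝ) + 2) ^ g3) := add_le_add hmart hdd
    _ ≤ K' * LL n ^ (c1 + c2 + 1 + c3) * ((n : ℝ) + 2) ^ g
        + 2 ^ k * (K3 * LL n ^ (c1 + c2 + 1 + c3) * ((n : ℝ) + 2) ^ g) := by gcongr
    _ = _ := by ring

/-! ### the three families of bounds -/

theorem C1' {θ : ℝ} (h0 : 0 < θ) (h1 : θ ≤ 1) {k : ℕ} {U : Set ℕ} (hR : Rand θ k U) (i : ℕ) :
    ∀ l : ℕ, i + l ≤ k → Bd k θ U (PP θ ^ l) i (max 0 (((i : ℝ) + l) * θ - 1)) := by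
  induction i using Nat.strong_induction_on with
  | _ i ih =>
    intro l hil
    rcases Nat.eq_zero_or_pos i with rfl | hi
    · have := Bd_zero h0 h1 k U l
      simpa using this
    · have hW : WW θ (some (false, (⟨l, by omega⟩ : Fin (k + 1)))) = PP θ ^ l := rfl
      have hmono : ∀ x y : ℝ, x ≤ y → max 0 (x * θ - 1) ≤ max 0 (y * θ - 1) := by
        intro x y hxy
        apply max_le_max (le_refl _)
        have := mul_le_mul_of_nonneg_right hxy h0.le
        linarith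
      rw [← hW]
      have hBw : ∀ i' < i, Bw k θ U (WW θ (some (false, (⟨l, by omega⟩ : Fin (k + 1))))) i'
          (max 0 (((i : ℝ) + l) * θ - 1)) := by
        intro i' hi'
        rw [hW]
        apply major_Bw h0 h1
        intro i'' hi''
        refine (ih i'' (by omega) (l + 1 + (i' - i'')) (by omega)).mono (hmono _ _ ?_)
        have : i'' + (l + 1 + (i' - i'')) ≤ i + l := by omega
        exact_mod_cast this
      refine step_lemma' h0 h1 hR _ i hi _ (max 0 (((i : ℝ) + l) * θ - 1))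
        (max 0 (((i : ℝ) + l) * θ - 1)) (max 0 (((i : ℝ) + l) * θ - 1))
        (le_max_left _ _) (le_max_left _ _) (le_refl _) (by linarith) (le_refl _) ?_ hBw
        (fun i' hi' => hBw i' (by omega))
      intro i' hi'
      rw [hW]
      refine (ih i' hi' l (by omega)).mono (hmono _ _ ?_)
      have : i' + l ≤ i + l := by omega
      exact_mod_cast this

theorem C2' {θ : ℝ} (h0 : 0 < θ) (h1 : θ ≤ 1) {k : ℕ} {U : Set ℕ} (hR : Rand θ k U) (i : ℕ) :
    i ≤ k → Bd k θ U 1 i (max 0 (((i : ℝ) * θ - 1) / 2)) := by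
  induction i using Nat.strong_induction_on with
  | _ i ih =>
    intro hik
    rcases Nat.eq_zero_or_pos i with rfl | hi
    · have := Bd_zero h0 h1 k U 0
      have e : ∀ x : ℝ, x ≤ 0 → max 0 x = 0 := fun x hx => max_eq_left hx
      rw [pow_zero, e _ (by norm_num)] at this
      rw [e _ (by norm_num)]
      exact this
    · have hW : WW θ (some (false, (⟨0, by omega⟩ : Fin (k + 1)))) = 1 := pow_zero _
      rw [← hW]
      -- crude weighted bound
      have hcr : ∀ i' < i, Bw k θ U 1 i' (max 0 (((i' : ℝ) + 1) * θ - 1)) := by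
        intro i' hi'
        rw [← pow_zero (PP θ)]
        apply major_Bw h0 h1
        intro i'' hi''
        refine (C1' h0 h1 hR i'' (0 + 1 + (i' - i'')) (by omega)).mono ?_
        apply max_le_max (le_refl _)
        have h2 : i'' + (0 + 1 + (i' - i'')) ≤ i' + 1 := by omega
        have h3 : ((i'' : ℝ) + ((0 + 1 + (i' - i'') : ℕ) : ℝ)) ≤ (i' : ℝ) + 1 := by
          exact_mod_cast h2
        have := mul_le_mul_of_nonneg_right h3 h0.le
        linarith
      have htr : ∀ i' < i, Bw k θ U 1 i' (max 0 (((i' : ℝ) * θ - 1) / 2) + θ) := by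
        intro i' hi'
        exact triv_Bw h0 h1 k U 1 i' _ (le_max_left _ _) (ih i' hi' (by omega))
      have hi1 : (1:ℝ) ≤ i := by exact_mod_cast hi
      set g1 : ℝ := max 0 ((((i : ℝ) - 1) * θ - 1) / 2) with hg1
      set g : ℝ := max 0 (((i : ℝ) * θ - 1) / 2) with hg
      have hg10 : 0 ≤ g1 := le_max_left _ _
      have hg1g : g1 ≤ g := by
        apply max_le_max (le_refl _)
        nlinarith
      refine step_lemma' h0 h1 hR _ i hi g g1 (2 * g - g1) g (le_max_left _ _) hg10 hg1g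
        (by linarith) (le_refl _) ?_ ?_ ?_
      · intro i' hi'
        rw [hW]
        refine (ih i' hi' (by omega)).mono ?_
        apply max_le_max (le_refl _)
        have h2 : (i' : ℝ) + 1 ≤ i := by exact_mod_cast hi'
        nlinarith
      · intro i' hi'
        rw [hW]
        have h2 : (i' : ℝ) + 1 ≤ i := by exact_mod_cast hi'
        rcases le_or_gt 1 (((i : ℝ) - 1) * θ) with hc | hc
        · refine (htr i' hi').mono ?_
          have e1 : g1 = (((i : ℝ) - 1) * θ - 1) / 2 := max_eq_right (by linarith)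
          have e2 : g = ((i : ℝ) * θ - 1) / 2 := max_eq_right (by nlinarith)
          rw [e1, e2]
          have e3 : max 0 (((i' : ℝ) * θ - 1) / 2) ≤ (((i : ℝ) - 1) * θ - 1) / 2 := by
            apply max_le (by linarith)
            nlinarith
          linarith
        · refine (hcr i' hi').mono ?_
          have e1 : g1 = 0 := max_eq_left (by linarith)
          rw [e1, sub_zero]
          have e2 : 2 * g = max 0 ((i : ℝ) * θ - 1) := by
            rw [hg, mul_max_of_nonneg _ _ (by norm_num : (0:ℝ) ≤ 2)]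
            congr 1 <;> ring
          rw [e2]
          apply max_le_max (le_refl _)
          nlinarith
      · intro i' hi'
        rw [hW]
        have h2 : (i' : ℝ) + 2 ≤ i := by exact_mod_cast hi'
        rcases le_or_gt 1 ((i' : ℝ) * θ) with hc | hc
        · refine (htr i' (by omega)).mono ?_
          have e1 : max 0 (((i' : ℝ) * θ - 1) / 2) = ((i' : ℝ) * θ - 1) / 2 :=
            max_eq_right (by linarith)
          rw [e1]
          refine le_trans ?_ (le_max_right _ _)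
          nlinarith
        · refine (hcr i' (by omega)).mono ?_
          apply max_le_max (le_refl _)
          nlinarith

theorem C3' {θ : ℝ} (h0 : 0 < θ) (h1 : θ ≤ 1) {k : ℕ} {U : Set ℕ} (hR : Rand θ k U) (l : ℕ)
    (hl : l ≤ k) (i : ℕ) :
    Bd k θ U ((1 - X) * PP θ ^ l) i ((i : ℝ) * θ / 2 + max 0 ((l : ℝ) * θ - 2)) := by
  induction i using Nat.strong_induction_on with
  | _ i ih =>
    set G : ℝ := max 0 ((l : ℝ) * θ - 2) with hG
    have hG0 : 0 ≤ G := le_max_left _ _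
    rcases Nat.eq_zero_or_pos i with rfl | hi
    · have := Bd_zero' h0 h1 k U l
      simpa using this
    · have hW : WW θ (some (true, (⟨l, by omega⟩ : Fin (k + 1)))) = (1 - X) * PP θ ^ l := rfl
      rw [← hW]
      have hi1 : (1:ℝ) ≤ i := by exact_mod_cast hi
      have hnn : ∀ i' : ℕ, 0 ≤ (i' : ℝ) * θ / 2 + G := fun i' => by positivity
      refine step_lemma' h0 h1 hR _ i hi ((i : ℝ) * θ / 2 + G) (((i : ℝ) - 1) * θ / 2 + G)
        (((i : ℝ) - 1) * θ / 2 + G + θ) ((i : ℝ) * θ / 2 + G) (hnn i) ?_ ?_ ?_ (le_refl _) ?_ ?_ ?_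
      · have : 0 ≤ ((i : ℝ) - 1) * θ / 2 := by
          apply div_nonneg (mul_nonneg (by linarith) h0.le) (by norm_num)
        linarith
      · nlinarith
      · nlinarith
      · intro i' hi'
        rw [hW]
        refine (ih i' hi').mono ?_
        have h2 : (i' : ℝ) + 1 ≤ i := by exact_mod_cast hi'
        nlinarith
      · intro i' hi'
        rw [hW]
        refine (triv_Bw h0 h1 k U _ i' _ (hnn i') (ih i' hi')).mono ?_
        have h2 : (i' : ℝ) + 1 ≤ i := by exact_mod_cast hi'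
        nlinarith
      · intro i' hi'
        rw [hW]
        refine (triv_Bw h0 h1 k U _ i' _ (hnn i') (ih i' (by omega))).mono ?_
        have h2 : (i' : ℝ) + 2 ≤ i := by exact_mod_cast hi'
        nlinarith

end Pool.Agent.Helper149.Thin3
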